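import Mathlib

/-!
# Classes of rational numbers modulo powers
-/

set_option autoImplicit false

namespace Pool.Agent.Q33.EX

/-- compatible families of classes of nonzero rational numbers modulo `n`-th powers, `n ∈ E` -/
def Cls (E : Set ℕ) : Type :=
  {c : (n : E) → ℚˣ ⧸ (powMonoidHom (n : ℕ) : ℚˣ →* ℚˣ).range //
    ∀ m n : E, (m : ℕ) ∣ n →
      ∃ x : ℚˣ, c m = (x : ℚˣ ⧸ (powMonoidHom (m : ℕ) : ℚˣ →* ℚˣ).range) ∧
        c n = (x : ℚˣ ⧸ (powMonoidHom (n : ℕ) : ℚˣ →* ℚˣ).range)}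

/-- the image of the family `c` over the field `K` is the family of the classes of `z` -/
def IsClassOf {E : Set ℕ} (K : Type) [Field K] (c : Cls E) (z : K) : Prop :=
  ∀ n : E, ∃ (x : ℚˣ) (r : K),
    c.1 n = (x : ℚˣ ⧸ (powMonoidHom (n : ℕ) : ℚˣ →* ℚˣ).range) ∧ r ≠ 0 ∧
      z = ((x : ℚ) : K) * r ^ (n : ℕ)

theorem mk_eq_iff (n : ℕ) (x y : ℚˣ) :
    (x : ℚˣ ⧸ (powMonoidHom n : ℚˣ →* ℚˣ).range) = y ↔ ∃ r : ℚˣ, y = x * r ^ n := by
  rw [QuotientGroup.eq, MonoidHom.mem_range]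
  constructor
  · rintro ⟨r, hr⟩
    refine ⟨r, ?_⟩
    rw [powMonoidHom_apply] at hr
    rw [hr]
    simp
  · rintro ⟨r, rfl⟩
    refine ⟨r, ?_⟩
    rw [powMonoidHom_apply]
    simp

/-- the family given by a sequence -/
theorem exists_cls {E : Set ℕ} (X : ℕ → ℚˣ) (e : ℕ → ℕ) (he : ∀ k, e k ∣ e (k + 1))
    (hX : ∀ k, ∃ r : ℚˣ, X (k + 1) = X k * r ^ e k) (hE : ∀ n ∈ E, ∃ k, n ∣ e k) :
    ∃ c : Cls E, ∀ (n : E) (k : ℕ), (n : ℕ) ∣ e k →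
      c.1 n = (X k : ℚˣ ⧸ (powMonoidHom (n : ℕ) : ℚˣ →* ℚˣ).range) := by
  classical
  have h1 : ∀ j k, j ≤ k → e j ∣ e k := by
    intro j k hjk
    induction k, hjk using Nat.le_induction with
    | base => exact dvd_rfl
    | succ k _ ih => exact ih.trans (he k)
  have h2 : ∀ (n : ℕ) (j k : ℕ), j ≤ k → n ∣ e j → ∃ r : ℚˣ, X k = X j * r ^ n := by
    intro n j k hjk hn
    induction k, hjk using Nat.le_induction with
    | base => exact ⟨1, by simp⟩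
    | succ k hjk ih =>
      obtain ⟨r, hr⟩ := ih
      obtain ⟨s, hs⟩ := hX k
      obtain ⟨d, hd⟩ := hn.trans (h1 j k hjk)
      refine ⟨r * s ^ d, ?_⟩
      rw [hs, hr, hd, mul_pow, ← pow_mul, mul_comm d n, mul_assoc]
  have h3 : ∀ n : E, ∃ k, (n : ℕ) ∣ e k := fun n => hE n n.2
  choose κ hκ using h3
  have h4 : ∀ (n : E) (k : ℕ), (n : ℕ) ∣ e k →
      (X (κ n) : ℚˣ ⧸ (powMonoidHom (n : ℕ) : ℚˣ →* ℚˣ).range) = X k := by
    intro n k hk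
    rw [mk_eq_iff]
    rcases le_total (κ n) k with h | h
    · exact h2 n _ _ h (hκ n)
    · obtain ⟨r, hr⟩ := h2 n _ _ h hk
      refine ⟨r⁻¹, ?_⟩
      rw [hr, mul_assoc, ← mul_pow, mul_inv_cancel, one_pow, mul_one]
  refine ⟨⟨fun n => X (κ n), ?_⟩, ?_⟩
  · intro m n hmn
    exact ⟨X (κ n), h4 m (κ n) (hmn.trans (hκ n)), rfl⟩
  · intro n k hk
    exact h4 n k hk

end Pool.Agent.Q33.EX
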