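import Mathlib

/-!
# Prime numbers with prescribed residues
-/

set_option autoImplicit false

namespace Pool.Agent.Q33.EX

/-- Dirichlet's theorem and the Chinese remainder theorem -/
theorem exists_prime (S : Finset ℕ) (hS : ∀ v ∈ S, v.Prime) (n : ℕ → ℕ) (hn : ∀ v ∈ S, ¬ v ∣ n v)
    (B L : ℕ) : ∃ p : ℕ, p.Prime ∧ L < p ∧ ∀ v ∈ S, p ≡ n v [MOD v ^ B] := by
  have hpp : Set.Pairwise (S : Set ℕ) (Function.onFun Nat.Coprime fun v => v ^ B) := by
    intro v hv w hw hvw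
    exact Nat.Coprime.pow _ _ ((Nat.coprime_primes (hS v hv) (hS w hw)).2 hvw)
  obtain ⟨k, hk⟩ := Nat.chineseRemainderOfFinset n (fun v => v ^ B) S
    (fun v hv => pow_ne_zero _ (hS v hv).ne_zero) hpp
  rcases Nat.eq_zero_or_pos B with hB | hB
  · obtain ⟨p, hp1, hp2⟩ := Nat.exists_infinite_primes (L + 1)
    refine ⟨p, hp2, by omega, fun v _ => ?_⟩
    rw [hB, pow_zero]
    exact Nat.modEq_one
  · have hcop : Nat.Coprime k (∏ v ∈ S, v ^ B) := by
      apply Nat.Coprime.prod_right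
      intro v hv
      apply Nat.Coprime.pow_right
      rw [Nat.coprime_comm, Nat.Prime.coprime_iff_not_dvd (hS v hv)]
      intro h
      apply hn v hv
      have h1 : k ≡ n v [MOD v] := (hk v hv).of_dvd (dvd_pow_self v hB.ne')
      exact (Nat.ModEq.dvd_iff h1 dvd_rfl).1 h
    have hne : NeZero (∏ v ∈ S, v ^ B) :=
      ⟨Finset.prod_ne_zero_iff.2 fun v hv => pow_ne_zero _ (hS v hv).ne_zero⟩
    obtain ⟨p, hp1, hp2, hp3⟩ := Nat.forall_exists_prime_gt_and_modEq L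
      (NeZero.ne _) hcop
    refine ⟨p, hp2, hp1, fun v hv => ?_⟩
    exact (hp3.of_dvd (Finset.dvd_prod_of_mem _ hv)).trans (hk v hv)

end Pool.Agent.Q33.EX
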