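import Mathlib

/-!
# Powers in `ℚ_[p]`
-/

set_option autoImplicit false

namespace Pool.Agent.Q33.EX

open Polynomial

variable {p : ℕ} [hp : Fact p.Prime]

/-- Hensel's lemma for `T ^ n = z`. -/
theorem hensel_pow (n : ℕ) (z w : ℚ_[p]) (hz : ‖z‖ ≤ 1) (hw : ‖w‖ = 1)
    (h : ‖z - w ^ n‖ < ‖(n : ℚ_[p])‖ ^ 2) :
    ∃ r : ℚ_[p], z = r ^ n ∧ ‖r - w‖ < ‖(n : ℚ_[p])‖ := by
  obtain ⟨Z, hZ⟩ : ∃ Z : ℤ_[p], (Z : ℚ_[p]) = z := ⟨⟨z, hz⟩, rfl⟩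
  obtain ⟨V, hV⟩ : ∃ V : ℤ_[p], (V : ℚ_[p]) = w := ⟨⟨w, hw.le⟩, rfl⟩
  have hn0 : n ≠ 0 := by
    rintro rfl
    simp at h
    exact absurd h (not_lt.2 (norm_nonneg _))
  have hVn : ‖V‖ = 1 := by
    rw [← hw, ← hV]
    rfl
  have h1 : ‖(X ^ n - C Z : ℤ_[p][X]).aeval V‖ < ‖(X ^ n - C Z : ℤ_[p][X]).derivative.aeval V‖ ^ 2 := by
    have e1 : (X ^ n - C Z : ℤ_[p][X]).aeval V = V ^ n - Z := by simp
    have e2 : (X ^ n - C Z : ℤ_[p][X]).derivative.aeval V = n * V ^ (n - 1) := by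
      simp [derivative_X_pow]
    rw [e1, e2, norm_mul, norm_pow, hVn, one_pow, mul_one]
    have e3 : ‖V ^ n - Z‖ = ‖z - w ^ n‖ := by
      rw [← hZ, ← hV, ← norm_neg (V ^ n - Z), neg_sub]
      rfl
    have e4 : ‖(n : ℤ_[p])‖ = ‖(n : ℚ_[p])‖ := by
      rw [← PadicInt.coe_natCast]
      rfl
    rw [e3, e4]
    exact h
  obtain ⟨r, hr0, hr1, -, -⟩ := hensels_lemma h1
  have e2 : (X ^ n - C Z : ℤ_[p][X]).derivative.aeval V = n * V ^ (n - 1) := by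
    simp [derivative_X_pow]
  rw [e2, norm_mul, norm_pow, hVn, one_pow, mul_one] at hr1
  refine ⟨r, ?_, ?_⟩
  · have e1 : (X ^ n - C Z : ℤ_[p][X]).aeval r = r ^ n - Z := by simp
    rw [e1, sub_eq_zero] at hr0
    rw [← hZ, ← hr0]
    push_cast
    rfl
  · have e4 : ‖(n : ℤ_[p])‖ = ‖(n : ℚ_[p])‖ := by
      rw [← PadicInt.coe_natCast]
      rfl
    rw [← e4, ← hV]
    exact hr1

theorem norm_eq_one_of_sub_lt {r w : ℚ_[p]} (hw : ‖w‖ = 1) (h : ‖r - w‖ < 1) : ‖r‖ = 1 := by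
  have h1 : ‖r - w‖ < ‖w‖ := by rw [hw]; exact h
  have h2 : r = (r - w) + w := by ring
  rw [h2, Padic.add_eq_max_of_ne h1.ne, hw]
  exact max_eq_right (by rw [← hw]; exact h1.le)

/-- units congruent to an `n`-th power, `p` not dividing `n` -/
theorem hensel_unit (n : ℕ) (hn : ¬ p ∣ n) (z w : ℚ_[p]) (hw : ‖w‖ = 1) (h : ‖z - w ^ n‖ < 1) :
    ∃ r : ℚ_[p], ‖r‖ = 1 ∧ z = r ^ n ∧ ‖r - w‖ < 1 := by
  have h1 : ‖(n : ℚ_[p])‖ = 1 := by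
    exact Padic.norm_natCast_eq_one_iff.2 ((Nat.Prime.coprime_iff_not_dvd hp.out).2 hn)
  have hwn : ‖w ^ n‖ = 1 := by rw [norm_pow, hw, one_pow]
  have hz : ‖z‖ = 1 := norm_eq_one_of_sub_lt hwn h
  obtain ⟨r, hr, hr1⟩ := hensel_pow n z w hz.le hw (by rw [h1, one_pow]; exact h)
  rw [h1] at hr1
  exact ⟨r, norm_eq_one_of_sub_lt hw hr1, hr, hr1⟩

/-- elements close to one are powers -/
theorem pow_near_one (n : ℕ) (hn : 1 ≤ n) : ∃ B : ℕ, ∀ z : ℚ_[p], ‖z - 1‖ ≤ (p : ℝ) ^ (-(B : ℤ)) →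
    ∃ r : ℚ_[p], ‖r‖ = 1 ∧ z = r ^ n ∧ ‖r - 1‖ ≤ (p : ℝ) ^ (-3 : ℤ) := by
  set N := n * p ^ 4 with hN
  have hN0 : (N : ℚ_[p]) ≠ 0 := by
    have : N ≠ 0 := by
      rw [hN]
      exact Nat.mul_ne_zero (by omega) (pow_ne_zero _ hp.out.ne_zero)
    exact_mod_cast this
  have hNpos : 0 < ‖(N : ℚ_[p])‖ ^ 2 := by positivity
  obtain ⟨B, hB⟩ := PadicInt.exists_pow_neg_lt p hNpos
  refine ⟨B, fun z hz => ?_⟩
  have h1 : ‖z - 1 ^ N‖ < ‖(N : ℚ_[p])‖ ^ 2 := by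
    rw [one_pow]
    exact hz.trans_lt hB
  have hz1 : ‖z‖ ≤ 1 := by
    have h2 : ‖(N : ℚ_[p])‖ ≤ 1 := by
      have := Padic.norm_int_le_one (p := p) (N : ℤ)
      simpa using this
    have h3 : ‖z - 1‖ < 1 := by
      rw [one_pow] at h1
      refine h1.trans_le ?_
      exact pow_le_one₀ (norm_nonneg _) h2
    exact (norm_eq_one_of_sub_lt (w := (1 : ℚ_[p])) (by simp) h3).le
  obtain ⟨s, hs, hs1⟩ := hensel_pow N z 1 hz1 (by simp) h1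
  have h4 : ‖(N : ℚ_[p])‖ ≤ (p : ℝ) ^ (-4 : ℤ) := by
    rw [hN]
    push_cast
    rw [norm_mul, norm_pow, Padic.norm_p]
    have h5 : ‖(n : ℚ_[p])‖ ≤ 1 := by
      have := Padic.norm_int_le_one (p := p) (n : ℤ)
      simpa using this
    have h6 : ((p : ℝ)⁻¹) ^ 4 = (p : ℝ) ^ (-4 : ℤ) := by
      rw [zpow_neg, inv_pow]
      norm_cast
    rw [h6]
    have h7 : (0 : ℝ) ≤ (p : ℝ) ^ (-4 : ℤ) := by positivity
    nlinarith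
  have hp1 : (1 : ℝ) < p := by exact_mod_cast hp.out.one_lt
  have h5 : ‖s - 1‖ ≤ (p : ℝ) ^ (-3 : ℤ) := by
    refine (hs1.le.trans h4).trans ?_
    exact zpow_le_zpow_right₀ hp1.le (by norm_num)
  have h5' : ‖s - 1‖ < 1 := by
    refine h5.trans_lt ?_
    exact zpow_lt_one_of_neg₀ hp1 (by norm_num)
  have hs2 : ‖s‖ = 1 := norm_eq_one_of_sub_lt (w := (1 : ℚ_[p])) (by simp) h5'
  refine ⟨s ^ (p ^ 4), by rw [norm_pow, hs2, one_pow], ?_, ?_⟩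
  · rw [hs, hN, ← pow_mul, mul_comm]
  · have h6 : ∀ k : ℕ, ‖s ^ k - 1‖ ≤ ‖s - 1‖ := by
      intro k
      obtain ⟨S, hS⟩ : ∃ S : ℤ_[p], (S : ℚ_[p]) = s := ⟨⟨s, hs2.le⟩, rfl⟩
      obtain ⟨c, hc⟩ := sub_one_dvd_pow_sub_one S k
      have h7 : s ^ k - 1 = (s - 1) * (c : ℚ_[p]) := by
        rw [← hS]
        have := congrArg (fun y : ℤ_[p] => (y : ℚ_[p])) hc
        push_cast at this
        exact this
      rw [h7, norm_mul]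
      have h8 : ‖(c : ℚ_[p])‖ ≤ 1 := c.2
      nlinarith [norm_nonneg (s - 1)]
    exact (h6 _).trans h5

/-- irrational elements are dense -/
theorem exists_irrational (y : ℚ_[p]) (ε : ℝ) (hε : 0 < ε) :
    ∃ x : ℚ_[p], ‖x - y‖ < ε ∧ ∀ a : ℚ, x ≠ a := by
  have h1 : (Set.range (fun a : ℚ => (a : ℚ_[p]))).Countable := Set.countable_range _
  have h2 := Set.Countable.dense_compl ℚ_[p] h1
  obtain ⟨x, hx, hx1⟩ := Metric.dense_iff.1 h2 y ε hε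
  refine ⟨x, ?_, ?_⟩
  · rw [← dist_eq_norm]
    exact hx
  · intro a ha
    exact hx1 ⟨a, ha.symm⟩

end Pool.Agent.Q33.EX
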