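import Pool.Agent.Q33.EX.Pts
import Pool.Agent.Q33.EX.Hens

/-!
# Local points at the places of good reduction and at a new prime
-/

set_option autoImplicit false

namespace Pool.Agent.Q33.EX

/-- bound for the primes of a rational number -/
def rb (q : ℚ) : ℕ := q.num.natAbs + q.den

theorem norm_rat_eq_one {p : ℕ} [hp : Fact p.Prime] {q : ℚ} (hq : q ≠ 0) (h : rb q < p) :
    ‖(q : ℚ_[p])‖ = 1 := by
  unfold rb at h
  have h1 : ¬ p ∣ q.num.natAbs := by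
    intro h2
    have := Nat.le_of_dvd (Int.natAbs_pos.2 (Rat.num_ne_zero.2 hq)) h2
    omega
  have h2 : ¬ p ∣ q.den := by
    intro h2
    have := Nat.le_of_dvd q.den_pos h2
    omega
  have h3 : ‖((q.num.natAbs : ℕ) : ℚ_[p])‖ = 1 :=
    Padic.norm_natCast_eq_one_iff.2 ((Nat.Prime.coprime_iff_not_dvd hp.out).2 h1)
  have h4 : ‖((q.den : ℕ) : ℚ_[p])‖ = 1 :=
    Padic.norm_natCast_eq_one_iff.2 ((Nat.Prime.coprime_iff_not_dvd hp.out).2 h2)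
  have h5 : ‖((q.num : ℤ) : ℚ_[p])‖ = 1 := by
    have h7 : ((q.num.natAbs : ℕ) : ℚ_[p]) = ((q.num.natAbs : ℤ) : ℚ_[p]) := by
      rw [Int.cast_natCast]
    rw [h7] at h3
    rcases Int.natAbs_eq q.num with h6 | h6
    · rw [h6]; exact h3
    · rw [h6, Int.cast_neg, norm_neg]
      exact h3
  have h6 : (q : ℚ_[p]) = (q.num : ℚ_[p]) / (q.den : ℚ_[p]) := by
    conv_lhs => rw [← Rat.num_div_den q]
    push_cast
    rfl
  rw [h6, norm_div, h5, h4, div_one]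

theorem norm_rat_le_one' {p : ℕ} [hp : Fact p.Prime] {q : ℚ} (h : rb q < p) :
    ‖(q : ℚ_[p])‖ ≤ 1 := by
  by_cases hq : q = 0
  · rw [hq]
    simp
  · exact (norm_rat_eq_one hq h).le

theorem toZMod_eq_zero_iff {p : ℕ} [hp : Fact p.Prime] (z : ℤ_[p]) :
    PadicInt.toZMod z = 0 ↔ ‖z‖ < 1 := by
  rw [← RingHom.mem_ker, PadicInt.ker_toZMod, IsLocalRing.mem_maximalIdeal, PadicInt.mem_nonunits]

/-- points at the places of good reduction -/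
theorem good_point (A : Finset ℚ) (Q : ℕ) (hQ : 1 ≤ Q) : ∃ K : ℕ, ∀ (p : ℕ) [Fact p.Prime], K < p →
    ∀ X : ℚ → ℚ, (∀ a ∈ A, ‖(X a : ℚ_[p])‖ = 1) →
    ∃ x : ℚ_[p], (∀ b : ℚ, x ≠ b) ∧ ∀ a ∈ A, ∃ r : ℚ_[p], ‖r‖ = 1 ∧ x - a = X a * r ^ Q := by
  classical
  obtain ⟨B, hB⟩ := exists_pt Q A.card hQ
  refine ⟨B + Q + ∑ a ∈ A, rb a + ∑ a ∈ A, ∑ b ∈ A, rb (a - b), ?_⟩
  intro p hp hpK X hX
  have hpQ : ¬ p ∣ Q := by
    intro h
    have := Nat.le_of_dvd (by omega) h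
    omega
  have hA1 : ∀ a ∈ A, ‖(a : ℚ_[p])‖ ≤ 1 := by
    intro a ha
    apply norm_rat_le_one'
    have h1 : rb a ≤ ∑ a ∈ A, rb a :=
      Finset.single_le_sum (f := fun a => rb a) (fun _ _ => Nat.zero_le _) ha
    omega
  have hA2 : ∀ a ∈ A, ∀ b ∈ A, a ≠ b → ‖(a : ℚ_[p]) - b‖ = 1 := by
    intro a ha b hb hab
    have h1 : rb (a - b) ≤ ∑ b ∈ A, rb (a - b) :=
      Finset.single_le_sum (f := fun b => rb (a - b)) (fun _ _ => Nat.zero_le _) hb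
    have h2 : ∑ b ∈ A, rb (a - b) ≤ ∑ a ∈ A, ∑ b ∈ A, rb (a - b) :=
      Finset.single_le_sum (f := fun a => ∑ b ∈ A, rb (a - b)) (fun _ _ => Nat.zero_le _) ha
    have h3 := norm_rat_eq_one (p := p) (q := a - b) (sub_ne_zero.2 hab) (by omega)
    push_cast at h3
    exact h3
  set ε := A.equivFin with hε
  set pt : Fin A.card → ℚ := fun i => (ε.symm i : ℚ) with hpt
  have hptA : ∀ i, pt i ∈ A := fun i => (ε.symm i).2
  let α' : Fin A.card → ℤ_[p] := fun i => ⟨(pt i : ℚ_[p]), hA1 _ (hptA i)⟩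
  let c' : Fin A.card → ℤ_[p] := fun i => ⟨(X (pt i) : ℚ_[p]), (hX _ (hptA i)).le⟩
  let α : Fin A.card → ZMod p := fun i => PadicInt.toZMod (α' i)
  let c : Fin A.card → ZMod p := fun i => PadicInt.toZMod (c' i)
  have hα : Function.Injective α := by
    intro i j hij
    by_contra hne
    have h1 : pt i ≠ pt j := by
      intro h
      apply hne
      apply ε.symm.injective
      exact Subtype.ext h
    have h2 : PadicInt.toZMod (α' i - α' j) = 0 := by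
      rw [map_sub]
      exact sub_eq_zero.2 hij
    rw [toZMod_eq_zero_iff] at h2
    have h3 := hA2 _ (hptA i) _ (hptA j) h1
    have h4 : ‖α' i - α' j‖ = ‖(pt i : ℚ_[p]) - (pt j : ℚ_[p])‖ := rfl
    rw [h4, h3] at h2
    exact lt_irrefl _ h2
  have hc : ∀ i, c i ≠ 0 := by
    intro i h
    have h1 := (toZMod_eq_zero_iff (c' i)).1 h
    have h2 : ‖c' i‖ = ‖(X (pt i) : ℚ_[p])‖ := rfl
    rw [h2, hX _ (hptA i)] at h1
    exact lt_irrefl _ h1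
  have hcard : B < Fintype.card (ZMod p) := by
    rw [ZMod.card]
    omega
  obtain ⟨xb, hxb⟩ := hB (ZMod p) hcard α hα c hc
  choose u hu0 hu using hxb
  obtain ⟨x0, hx0⟩ := ZMod.ringHom_surjective (PadicInt.toZMod (p := p)) xb
  have hw : ∀ i, ∃ w : ℤ_[p], PadicInt.toZMod w = u i := fun i =>
    ZMod.ringHom_surjective (PadicInt.toZMod (p := p)) (u i)
  choose w hw using hw
  obtain ⟨x, hx1, hx2⟩ := exists_irrational (x0 : ℚ_[p]) 1 one_pos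
  refine ⟨x, hx2, ?_⟩
  intro a ha
  obtain ⟨i, hi⟩ : ∃ i, pt i = a := ⟨ε ⟨a, ha⟩, by simp [hpt]⟩
  have hwn : ‖(w i : ℚ_[p])‖ = 1 := by
    have h1 : ¬ ‖w i‖ < 1 := by
      rw [← toZMod_eq_zero_iff, hw]
      exact hu0 i
    have h2 : ‖w i‖ ≤ 1 := PadicInt.norm_le_one _
    exact le_antisymm h2 (not_lt.1 h1)
  have h1 : ‖((x0 : ℚ_[p]) - a) - X a * (w i : ℚ_[p]) ^ Q‖ < 1 := by
    have h2 : PadicInt.toZMod ((x0 - α' i) - c' i * (w i) ^ Q) = 0 := by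
      rw [map_sub, map_sub, map_mul, map_pow, hx0, hw]
      exact sub_eq_zero.2 (hu i)
    rw [toZMod_eq_zero_iff] at h2
    have h3 : ‖(x0 - α' i) - c' i * (w i) ^ Q‖ =
        ‖((x0 : ℚ_[p]) - a) - X a * (w i : ℚ_[p]) ^ Q‖ := by
      rw [← hi]
      rfl
    rw [h3] at h2
    exact h2
  have h2 : ‖(x - a) - X a * (w i : ℚ_[p]) ^ Q‖ < 1 := by
    have h3 : (x - a) - X a * (w i : ℚ_[p]) ^ Q = (x - x0) +
      (((x0 : ℚ_[p]) - a) - X a * (w i : ℚ_[p]) ^ Q) := by ring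
    rw [h3]
    exact (Padic.nonarchimedean _ _).trans_lt (max_lt hx1 h1)
  have hXn := hX a ha
  have hX0 : (X a : ℚ_[p]) ≠ 0 := norm_ne_zero_iff.1 (by rw [hXn]; exact one_ne_zero)
  have h3 : ‖(x - a) / X a - (w i : ℚ_[p]) ^ Q‖ < 1 := by
    have h4 : (x - a) / X a - (w i : ℚ_[p]) ^ Q = ((x - a) - X a * (w i : ℚ_[p]) ^ Q) / X a := by
      field_simp
    rw [h4, norm_div, hXn, div_one]
    exact h2
  obtain ⟨r, hr1, hr2, -⟩ := hensel_unit Q hpQ _ _ hwn h3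
  refine ⟨r, hr1, ?_⟩
  rw [← hr2]
  field_simp

/-- points at a new prime -/
theorem new_point {p : ℕ} [Fact p.Prime] (A : Finset ℚ) (a₀ : ℚ) (e : ℚ → ℕ) (X : ℚ → ℚ) (M : ℕ)
    (hM : ¬ p ∣ M) (Y : ℚ) (hY0 : Y ≠ 0) (hY : ‖(Y : ℚ_[p])‖ < 1)
    (hA : ∀ a ∈ A, a ≠ a₀ → ¬ p ∣ e a ∧ ‖(X a : ℚ_[p])‖ = 1 ∧
      ∃ u : ℚ_[p], ‖u‖ = 1 ∧ ‖((a₀ : ℚ_[p]) - a) - X a * u ^ e a‖ < 1) :
    ∃ x : ℚ_[p], (∀ b : ℚ, x ≠ b) ∧ (∃ r : ℚ_[p], ‖r‖ = 1 ∧ x - a₀ = Y * r ^ M) ∧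
      ∀ a ∈ A, a ≠ a₀ → ∃ r : ℚ_[p], ‖r‖ = 1 ∧ x - a = X a * r ^ e a := by
  have hY0' : (Y : ℚ_[p]) ≠ 0 := by exact_mod_cast hY0
  have hYpos : 0 < ‖(Y : ℚ_[p])‖ := norm_pos_iff.2 hY0'
  obtain ⟨x, hx1, hx2⟩ := exists_irrational ((a₀ : ℚ_[p]) + (Y : ℚ_[p])) ‖(Y : ℚ_[p])‖ hYpos
  have h1 : ‖(x - (a₀ : ℚ_[p])) / (Y : ℚ_[p]) - 1 ^ M‖ < 1 := by
    have h2 : (x - (a₀ : ℚ_[p])) / (Y : ℚ_[p]) - 1 ^ M =
        (x - ((a₀ : ℚ_[p]) + (Y : ℚ_[p]))) / (Y : ℚ_[p]) := by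
      rw [one_pow]
      field_simp
      ring
    rw [h2, norm_div, div_lt_one hYpos]
    exact hx1
  obtain ⟨r, hr1, hr2, -⟩ := hensel_unit M hM _ 1 (by simp) h1
  refine ⟨x, hx2, ⟨r, hr1, ?_⟩, ?_⟩
  · rw [← hr2]
    field_simp
  · intro a ha haa
    obtain ⟨hpe, hXn, u, hu1, hu2⟩ := hA a ha haa
    have hX0 : (X a : ℚ_[p]) ≠ 0 := norm_ne_zero_iff.1 (by rw [hXn]; exact one_ne_zero)
    have h3 : ‖x - (a₀ : ℚ_[p])‖ < 1 := by
      have h4 : x - (a₀ : ℚ_[p]) = (x - ((a₀ : ℚ_[p]) + (Y : ℚ_[p]))) + (Y : ℚ_[p]) := by ring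
      rw [h4]
      exact (Padic.nonarchimedean _ _).trans_lt (max_lt (hx1.trans hY) hY)
    have h2 : ‖(x - a) / X a - u ^ e a‖ < 1 := by
      have h4 : (x - a) / X a - u ^ e a = ((x - a₀) + (((a₀ : ℚ_[p]) - a) - X a * u ^ e a)) / X a := by
        field_simp
        ring
      rw [h4, norm_div, hXn, div_one]
      exact (Padic.nonarchimedean _ _).trans_lt (max_lt h3 hu2)
    obtain ⟨r, hr1, hr2, -⟩ := hensel_unit (e a) hpe _ u hu1 h2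
    refine ⟨r, hr1, ?_⟩
    rw [← hr2]
    field_simp

end Pool.Agent.Q33.EX
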