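import Pool.Agent.Q33.EX.Rec
import Pool.Agent.Q33.EX.Loc

/-!
# Sections which are not geometric; uncountable sets of sections
-/

set_option autoImplicit false

namespace Pool.Agent.Q33.EX

theorem dvd_of_norm_pow {p : ℕ} [hp : Fact p.Prime] (θ : ℚ_[p]) (hθ : θ ≠ 0) (m n : ℕ)
    (h : (p : ℝ) ^ (-(m : ℤ)) = ‖θ‖ ^ n) : n ∣ m := by
  rw [Padic.norm_eq_zpow_neg_valuation hθ, ← zpow_natCast, ← zpow_mul] at h
  have hp0 : (0 : ℝ) < p := by exact_mod_cast hp.out.pos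
  have hp1 : (p : ℝ) ≠ 1 := by exact_mod_cast hp.out.one_lt.ne'
  have h1 := zpow_right_injective₀ hp0 hp1 h
  have h2 : (m : ℤ) = n * θ.valuation := by linarith
  exact Int.natCast_dvd_natCast.1 ⟨θ.valuation, h2⟩

/-- the two representatives differ by a power -/
theorem IsClassOf.rep {E : Set ℕ} {K : Type} [Field K] [CharZero K] {c : Cls E} {z : K}
    (h : IsClassOf K c z) (n : E) (y : ℚˣ)
    (hy : c.1 n = (y : ℚˣ ⧸ (powMonoidHom (n : ℕ) : ℚˣ →* ℚˣ).range)) :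
    ∃ r : K, r ≠ 0 ∧ z = ((y : ℚ) : K) * r ^ (n : ℕ) := by
  obtain ⟨x, r, hx, hr, hz⟩ := h n
  rw [hy, mk_eq_iff] at hx
  obtain ⟨t, ht⟩ := hx
  refine ⟨((t : ℚ) : K) * r, mul_ne_zero ?_ hr, ?_⟩
  · exact_mod_cast t.ne_zero
  · rw [hz, ht]
    push_cast
    ring

section

variable {D : Set ℚ} {E : Set ℕ} {en : ℕ → ℚ} {ee mu L : ℕ → ℕ} {c : D → Cls E}
  {x : (p : ℕ) → [Fact p.Prime] → ℚ_[p]}

theorem mark_core (hloc : ∀ (p : ℕ) [Fact p.Prime] (b : D),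
      IsClassOf ℚ_[p] (c b) (x p - ((b : ℚ) : ℚ_[p])))
    (hee : ∀ k, 1 ≤ ee k) (hmu : ∀ k, 2 ≤ mu k) (k : ℕ) (b : D) (hb : (b : ℚ) = en k) (n : E)
    (hn : (n : ℕ) = ee k * mu k) (y : ℚˣ)
    (hy : (c b).1 n = (y : ℚˣ ⧸ (powMonoidHom (n : ℕ) : ℚˣ →* ℚˣ).range))
    (p : ℕ) [hp : Fact p.Prime] (hm : ‖x p - (en k : ℚ_[p])‖ = (p : ℝ) ^ (-(ee k : ℤ))) :
    ‖((y : ℚ) : ℚ_[p])‖ ≠ 1 := by
  intro hy1
  obtain ⟨r, hr, h1⟩ := (hloc p b).rep n y hy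
  rw [hb] at h1
  rw [h1, norm_mul, hy1, one_mul, norm_pow] at hm
  have h2 := dvd_of_norm_pow r hr (ee k) n hm.symm
  have h3 := Nat.le_of_dvd (hee k) h2
  rw [hn] at h3
  have h4 : ee k * 2 ≤ ee k * mu k := Nat.mul_le_mul_left _ (hmu k)
  have := hee k
  omega

theorem not_rational (hloc : ∀ (p : ℕ) [Fact p.Prime] (b : D),
      IsClassOf ℚ_[p] (c b) (x p - ((b : ℚ) : ℚ_[p])))
    (hee : ∀ k, 1 ≤ ee k) (hmu : ∀ k, 2 ≤ mu k) (hE : ∀ k, ee k * mu k ∈ E)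
    (hen2 : ∀ b ∈ D, ∀ K, ∃ k ≥ K, en k = b) (hL : ∀ k, k ≤ L k)
    (hmark : ∀ k, ∃ (p : ℕ) (_ : Fact p.Prime), L k < p ∧
        ‖x p - (en k : ℚ_[p])‖ = (p : ℝ) ^ (-(ee k : ℤ)))
    (b : D) (z : ℚ) : ¬ IsClassOf ℚ (c b) z := by
  intro h
  obtain ⟨k, hk1, hk2⟩ := hen2 b b.2 (rb z)
  obtain ⟨x0, r, hx0, hr, hz⟩ := h ⟨_, hE k⟩
  have hz0 : z ≠ 0 := by
    rw [hz]
    exact mul_ne_zero (by exact_mod_cast x0.ne_zero) (pow_ne_zero _ hr)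
  obtain ⟨p, hp, hp1, hp2⟩ := hmark k
  apply mark_core hloc hee hmu k b hk2.symm ⟨_, hE k⟩ rfl (Units.mk0 z hz0) ?_ p hp2
  · change ‖(z : ℚ_[p])‖ = 1
    exact norm_rat_eq_one hz0 (by have := hL k; omega)
  · rw [hx0, mk_eq_iff]
    refine ⟨Units.mk0 r hr, ?_⟩
    ext
    push_cast
    rw [Units.val_mk0, Units.val_mk0, hz]
    rfl

theorem not_all_eq (hloc : ∀ (p : ℕ) [Fact p.Prime] (b : D),
      IsClassOf ℚ_[p] (c b) (x p - ((b : ℚ) : ℚ_[p])))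
    (hee : ∀ k, 1 ≤ ee k) (hmu : ∀ k, 2 ≤ mu k) (hE : ∀ k, ee k * mu k ∈ E)
    (hen2 : ∀ b ∈ D, ∀ K, ∃ k ≥ K, en k = b) (hL : ∀ k, k ≤ L k)
    (hmark : ∀ k, ∃ (p : ℕ) (_ : Fact p.Prime), L k < p ∧
        ‖x p - (en k : ℚ_[p])‖ = (p : ℝ) ^ (-(ee k : ℤ)))
    (b b' : D) (hbb : (b : ℚ) ≠ b') : c b ≠ c b' := by
  intro heq
  obtain ⟨k, hk1, hk2⟩ := hen2 b b.2 (rb ((b : ℚ) - b'))
  obtain ⟨p, hp, hp1, hp2⟩ := hmark k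
  have hpR : (1 : ℝ) < p := by exact_mod_cast hp.out.one_lt
  have h1 : ‖(((b : ℚ) - b' : ℚ) : ℚ_[p])‖ = 1 :=
    norm_rat_eq_one (sub_ne_zero.2 hbb) (by have := hL k; omega)
  have h2 : ‖x p - ((b : ℚ) : ℚ_[p])‖ < 1 := by
    rw [← hk2, hp2]
    apply zpow_lt_one_of_neg₀ hpR
    have := hee k
    omega
  have h3 : ‖x p - ((b' : ℚ) : ℚ_[p])‖ = 1 := by
    apply norm_eq_one_of_sub_lt h1
    have h4 : x p - ((b' : ℚ) : ℚ_[p]) - (((b : ℚ) - b' : ℚ) : ℚ_[p]) =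
        x p - ((b : ℚ) : ℚ_[p]) := by
      push_cast
      ring
    rw [h4]
    exact h2
  obtain ⟨y, r, hy, hr, h4⟩ := hloc p b' ⟨_, hE k⟩
  obtain ⟨s, hs, h5⟩ := (hloc p b).rep ⟨_, hE k⟩ y (by rw [heq]; exact hy)
  have h6 : x p - ((b : ℚ) : ℚ_[p]) = (x p - ((b' : ℚ) : ℚ_[p])) * (s / r) ^ (ee k * mu k) := by
    rw [h4, h5, div_pow]
    field_simp
  have h7 : (p : ℝ) ^ (-(ee k : ℤ)) = ‖s / r‖ ^ (ee k * mu k) := by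
    rw [← hp2, hk2, h6, norm_mul, h3, one_mul, norm_pow]
  have h8 := dvd_of_norm_pow _ (div_ne_zero hs hr) _ _ h7
  have h9 := Nat.le_of_dvd (hee k) h8
  have h10 : ee k * 2 ≤ ee k * mu k := Nat.mul_le_mul_left _ (hmu k)
  have := hee k
  omega

end

/-- A set of sections is uncountable if it contains for every `L` a section with marks beyond
`L`. -/
theorem uncountable {D : Set ℚ} {E : Set ℕ} {en : ℕ → ℚ} {ee mu : ℕ → ℕ}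
    (hen : ∀ k, en k ∈ D) (hee : ∀ k, 1 ≤ ee k) (hmu : ∀ k, 2 ≤ mu k)
    (hE : ∀ k, ee k * mu k ∈ E) (𝒮 : Set (D → Cls E))
    (h : ∀ L : ℕ → ℕ, (∀ k, k ≤ L k) → ∃ (c : D → Cls E)
      (x : (p : ℕ) → [Fact p.Prime] → ℚ_[p]), c ∈ 𝒮 ∧
      (∀ (p : ℕ) [Fact p.Prime] (b : D),
        IsClassOf ℚ_[p] (c b) (x p - ((b : ℚ) : ℚ_[p]))) ∧
      ∀ k, ∃ (p : ℕ) (_ : Fact p.Prime), L k < p ∧
        ‖x p - (en k : ℚ_[p])‖ = (p : ℝ) ^ (-(ee k : ℤ))) :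
    ¬ 𝒮.Countable := by
  classical
  intro hcount
  obtain ⟨c0, -, hc0, -⟩ := h (fun k => k) fun _ => le_rfl
  obtain ⟨g, hg⟩ := hcount.exists_eq_range ⟨c0, hc0⟩
  have h1 : ∀ k : ℕ, ∃ y : ℚˣ, (g k ⟨en k, hen k⟩).1 ⟨ee k * mu k, hE k⟩ =
      (y : ℚˣ ⧸ (powMonoidHom (ee k * mu k) : ℚˣ →* ℚˣ).range) := by
    intro k
    obtain ⟨y, hy⟩ := QuotientGroup.mk_surjective
      ((g k ⟨en k, hen k⟩).1 ⟨ee k * mu k, hE k⟩)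
    exact ⟨y, hy.symm⟩
  choose y hy using h1
  obtain ⟨c, x, hc, hloc, hmark⟩ := h (fun k => k + rb (y k : ℚ)) fun k => Nat.le_add_right _ _
  rw [hg] at hc
  obtain ⟨k, hk⟩ := hc
  obtain ⟨p, hp, hp1, hp2⟩ := hmark k
  apply mark_core hloc hee hmu k ⟨en k, hen k⟩ rfl ⟨_, hE k⟩ rfl (y k) ?_ p hp2
  · exact norm_rat_eq_one (y k).ne_zero (lt_of_le_of_lt (Nat.le_add_left _ _) hp1)
  · rw [← hk]
    exact hy k

end Pool.Agent.Q33.EX
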