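import Pool.Agent.Q33.EX.Loc
import Pool.Agent.Q33.EX.Dir

/-!
# Preparations for the steps
-/

set_option autoImplicit false

namespace Pool.Agent.Q33.EX

/-- Bezout with natural numbers -/
theorem nat_bezout (e k : ℕ) (he : 1 ≤ e) (hk : 1 ≤ k) : ∃ j i : ℕ, e * j = Nat.gcd e k + k * i := by
  set A := Nat.gcdA e k with hA
  set B := Nat.gcdB e k with hB
  have h1 : (Nat.gcd e k : ℤ) = e * A + k * B := Nat.gcd_eq_gcd_ab e k
  have hk' : (1 : ℤ) ≤ k := by exact_mod_cast hk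
  have he' : (1 : ℤ) ≤ e := by exact_mod_cast he
  have h2 : 0 ≤ A + k * |A| := by
    have h3 : -|A| ≤ A := neg_abs_le A
    have h4 : |A| ≤ k * |A| := by nlinarith [abs_nonneg A]
    linarith
  have h3 : (Nat.gcd e k : ℤ) ≤ k := by exact_mod_cast Nat.gcd_le_right e hk
  obtain ⟨j, hj⟩ := Int.eq_ofNat_of_zero_le (show 0 ≤ A + k * |A| + k by linarith)
  have h4 : (e : ℤ) * j = Nat.gcd e k + k * (e * |A| + e - B) := by
    rw [h1]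
    have : (j : ℤ) = A + k * |A| + k := hj.symm
    rw [this]
    ring
  have h5 : (k : ℤ) ≤ e * j := by
    have : (j : ℤ) = A + k * |A| + k := hj.symm
    rw [this]
    nlinarith
  have h6 : 0 ≤ (e : ℤ) * |A| + e - B := by
    by_contra h
    push Not at h
    have h7 : (k : ℤ) * (e * |A| + e - B) < 0 := by nlinarith
    linarith
  obtain ⟨i, hi⟩ := Int.eq_ofNat_of_zero_le h6
  refine ⟨j, i, ?_⟩
  rw [hi] at h4
  exact_mod_cast h4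

variable {p : ℕ} [hp : Fact p.Prime]

theorem pow_card_sub_one (z : ℚ_[p]) (hz : ‖z‖ = 1) : ‖z ^ (p - 1) - 1‖ < 1 := by
  obtain ⟨Z, hZ⟩ : ∃ Z : ℤ_[p], (Z : ℚ_[p]) = z := ⟨⟨z, hz.le⟩, rfl⟩
  have h1 : PadicInt.toZMod Z ≠ 0 := by
    rw [Ne, toZMod_eq_zero_iff]
    have : ‖Z‖ = 1 := by
      rw [← hz, ← hZ]
      rfl
    rw [this]
    exact lt_irrefl _
  have h2 : PadicInt.toZMod (Z ^ (p - 1) - 1) = 0 := by
    rw [map_sub, map_pow, map_one, ZMod.pow_card_sub_one_eq_one h1, sub_self]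
  rw [toZMod_eq_zero_iff] at h2
  have h3 : ‖Z ^ (p - 1) - 1‖ = ‖z ^ (p - 1) - 1‖ := by
    rw [← hZ]
    rfl
  rwa [h3] at h2

/-- units which are congruent to a power -/
theorem unit_pow (e j d i : ℕ) (h : e * j = d + (p - 1) * i) (z y : ℚ_[p]) (hy : ‖y‖ = 1)
    (hz : ‖z - y ^ d‖ < 1) : ∃ u : ℚ_[p], ‖u‖ = 1 ∧ ‖z - u ^ e‖ < 1 := by
  refine ⟨y ^ j, by rw [norm_pow, hy, one_pow], ?_⟩
  have h1 : (y ^ j) ^ e = y ^ d * (y ^ (p - 1)) ^ i := by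
    rw [← pow_mul, mul_comm j e, h, pow_add, pow_mul]
  have h2 : ‖(y ^ (p - 1)) ^ i - 1‖ < 1 := by
    obtain ⟨Z, hZ⟩ : ∃ Z : ℤ_[p], (Z : ℚ_[p]) = y ^ (p - 1) :=
      ⟨⟨y ^ (p - 1), by rw [norm_pow, hy, one_pow]⟩, rfl⟩
    obtain ⟨c, hc⟩ := sub_one_dvd_pow_sub_one Z i
    have h7 : (y ^ (p - 1)) ^ i - 1 = (y ^ (p - 1) - 1) * (c : ℚ_[p]) := by
      rw [← hZ]
      have := congrArg (fun y : ℤ_[p] => (y : ℚ_[p])) hc
      push_cast at this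
      exact this
    rw [h7, norm_mul]
    have h8 : ‖(c : ℚ_[p])‖ ≤ 1 := c.2
    have h9 := pow_card_sub_one y hy
    nlinarith [norm_nonneg (y ^ (p - 1) - 1), norm_nonneg (c : ℚ_[p])]
  have h3 : z - (y ^ j) ^ e = (z - y ^ d) + -(y ^ d * ((y ^ (p - 1)) ^ i - 1)) := by
    rw [h1]
    ring
  rw [h3]
  refine (Padic.nonarchimedean _ _).trans_lt (max_lt hz ?_)
  rw [norm_neg, norm_mul, norm_pow, hy, one_pow, one_mul]
  exact h2

/-- approximation of a unit by natural numbers -/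
theorem exists_appr (U : ℚ_[p]) (hU : ‖U‖ = 1) (B : ℕ) (hB : 1 ≤ B) : ∃ n : ℕ, ¬ p ∣ n ∧
    ∀ m : ℕ, m ≡ n [MOD p ^ B] → ‖(m : ℚ_[p]) - U‖ ≤ (p : ℝ) ^ (-(B : ℤ)) := by
  obtain ⟨Z, hZ⟩ : ∃ Z : ℤ_[p], (Z : ℚ_[p]) = U := ⟨⟨U, hU.le⟩, rfl⟩
  have h1 : ∀ m : ℕ, m ≡ PadicInt.appr Z B [MOD p ^ B] →
      ‖(m : ℚ_[p]) - U‖ ≤ (p : ℝ) ^ (-(B : ℤ)) := by
    intro m hm
    have h2 := PadicInt.appr_spec B Z
    rw [← PadicInt.norm_le_pow_iff_mem_span_pow] at h2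
    have h3 : ‖((m : ℤ) - (PadicInt.appr Z B : ℤ) : ℤ_[p])‖ ≤ (p : ℝ) ^ (-(B : ℤ)) := by
      have h4 := (PadicInt.norm_int_le_pow_iff_dvd (p := p) (k := (m : ℤ) - (PadicInt.appr Z B : ℤ))
        (n := B)).2 (by
          have := (Nat.modEq_iff_dvd.1 hm.symm)
          push_cast at this ⊢
          exact this)
      push_cast at h4 ⊢
      exact h4
    have h5 : ‖((m : ℕ) : ℤ_[p]) - Z‖ ≤ (p : ℝ) ^ (-(B : ℤ)) := by
      have h6 : ((m : ℕ) : ℤ_[p]) - Z = (((m : ℤ) - (PadicInt.appr Z B : ℤ) : ℤ_[p])) +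
          -(Z - (PadicInt.appr Z B : ℤ_[p])) := by
        push_cast
        ring
      rw [h6]
      refine (PadicInt.nonarchimedean _ _).trans (max_le h3 ?_)
      rw [norm_neg]
      exact h2
    have h6 : ‖((m : ℕ) : ℤ_[p]) - Z‖ = ‖(m : ℚ_[p]) - U‖ := by
      rw [← hZ]
      rfl
    rw [← h6]
    exact h5
  refine ⟨PadicInt.appr Z B, ?_, h1⟩
  intro hdvd
  have h2 := h1 _ (Nat.ModEq.refl _)
  have hp1 : (1 : ℝ) < p := by exact_mod_cast hp.out.one_lt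
  have h3 : ‖((PadicInt.appr Z B : ℕ) : ℚ_[p]) - U‖ < 1 :=
    h2.trans_lt (zpow_lt_one_of_neg₀ hp1 (by omega))
  have h4 : ‖((PadicInt.appr Z B : ℕ) : ℚ_[p])‖ < 1 := Padic.norm_natCast_lt_one_iff.2 hdvd
  have h5 : ‖U‖ < 1 := by
    have h6 : U = ((PadicInt.appr Z B : ℕ) : ℚ_[p]) + -(((PadicInt.appr Z B : ℕ) : ℚ_[p]) - U) := by
      ring
    rw [h6]
    refine (Padic.nonarchimedean _ _).trans_lt (max_lt h4 ?_)
    rw [norm_neg]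
    exact h3
  rw [hU] at h5
  exact lt_irrefl _ h5

omit hp in
/-- a prime number with local conditions -/
theorem exists_prime_good (S : Finset ℕ) (hS : ∀ v ∈ S, v.Prime)
    (G : (v : ℕ) → [Fact v.Prime] → ℕ → Prop)
    (h : ∀ (v : ℕ) [Fact v.Prime], v ∈ S → ∃ (U : ℚ_[v]) (B : ℕ), ‖U‖ = 1 ∧
      ∀ m : ℕ, ‖(m : ℚ_[v]) - U‖ ≤ (v : ℝ) ^ (-(B : ℤ)) → G v m) (L : ℕ) :
    ∃ p : ℕ, p.Prime ∧ L < p ∧ ∀ (v : ℕ) [Fact v.Prime], v ∈ S → G v p := by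
  classical
  have h1 : ∀ v : ℕ, ∃ n B : ℕ, ∀ (_ : Fact v.Prime), v ∈ S → ¬ v ∣ n ∧
      ∀ m : ℕ, m ≡ n [MOD v ^ B] → G v m := by
    intro v
    by_cases hv : v ∈ S
    · have hvp : Fact v.Prime := ⟨hS v hv⟩
      obtain ⟨U, B, hU, hB⟩ := h v hv
      obtain ⟨n, hn1, hn2⟩ := exists_appr U hU (B + 1) (by omega)
      refine ⟨n, B + 1, fun _ _ => ⟨hn1, fun m hm => hB m ((hn2 m hm).trans ?_)⟩⟩
      have hp1 : (1 : ℝ) < v := by exact_mod_cast hvp.out.one_lt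
      apply zpow_le_zpow_right₀ hp1.le
      push_cast
      omega
    · exact ⟨0, 0, fun _ h => absurd h hv⟩
  choose n B hn using h1
  obtain ⟨p, hp1, hp2, hp3⟩ := exists_prime S hS n (fun v hv => (hn v ⟨hS v hv⟩ hv).1)
    (∑ v ∈ S, B v) L
  refine ⟨p, hp1, hp2, fun v hvp hv => (hn v hvp hv).2 p ?_⟩
  exact (hp3 v hv).of_dvd (pow_dvd_pow _
    (Finset.single_le_sum (f := B) (fun _ _ => Nat.zero_le _) hv))

end Pool.Agent.Q33.EX
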