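import Pool.Agent.Q33.EX.ResA

/-!
# Existence of the data near a rational point
-/

set_option autoImplicit false

namespace Pool.Agent.Q33.EX

theorem exists_appr0 {p : ℕ} [hp : Fact p.Prime] (U : ℚ_[p]) (hU : ‖U‖ ≤ 1) (B : ℕ) :
    ∃ n : ℕ, ∀ m : ℕ, m ≡ n [MOD p ^ B] → ‖(m : ℚ_[p]) - U‖ ≤ (p : ℝ) ^ (-(B : ℤ)) := by
  obtain ⟨Z, hZ⟩ : ∃ Z : ℤ_[p], (Z : ℚ_[p]) = U := ⟨⟨U, hU⟩, rfl⟩
  refine ⟨PadicInt.appr Z B, ?_⟩
  intro m hm
  have h2 := PadicInt.appr_spec B Z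
  rw [← PadicInt.norm_le_pow_iff_mem_span_pow] at h2
  have h3 : ‖((m : ℤ) - (PadicInt.appr Z B : ℤ) : ℤ_[p])‖ ≤ (p : ℝ) ^ (-(B : ℤ)) := by
    have h4 := (PadicInt.norm_int_le_pow_iff_dvd (p := p) (k := (m : ℤ) - (PadicInt.appr Z B : ℤ))
      (n := B)).2 (by
        have := (Nat.modEq_iff_dvd.1 hm.symm)
        push_cast at this ⊢
        exact this)
    push_cast at h4 ⊢
    exact h4
  have h5 : ‖((m : ℕ) : ℤ_[p]) - Z‖ ≤ (p : ℝ) ^ (-(B : ℤ)) := by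
    have h6 : ((m : ℕ) : ℤ_[p]) - Z = (((m : ℤ) - (PadicInt.appr Z B : ℤ) : ℤ_[p])) +
        -(Z - (PadicInt.appr Z B : ℤ_[p])) := by
      push_cast
      ring
    rw [h6]
    refine (PadicInt.nonarchimedean _ _).trans (max_le h3 ?_)
    rw [norm_neg]
    exact h2
  have h6 : ‖((m : ℕ) : ℤ_[p]) - Z‖ = ‖(m : ℚ_[p]) - U‖ := by
    rw [← hZ]
    rfl
  rw [← h6]
  exact h5

/-- private prime numbers -/
theorem exists_private (L : ℕ) : ∃ q : ℚ → ℕ, (∀ b, (q b).Prime ∧ q b % 4 = 3 ∧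
    L < q b) ∧ Function.Injective q := by
  classical
  have h1 : {p : ℕ | p.Prime ∧ p % 4 = 3 ∧ L < p}.Infinite := by
    apply Set.infinite_of_forall_exists_gt
    intro n
    obtain ⟨p, hp1, hp2, hp3⟩ := exists_prime {2} (by simp [Nat.prime_two]) (fun _ => 3)
      (by simp) 2 (n + L)
    have h2 := hp3 2 (by simp)
    refine ⟨p, ⟨hp1, ?_, by omega⟩, by omega⟩
    have h3 : p % 4 = 3 % 4 := h2
    omega
  let f := Set.Infinite.natEmbedding _ h1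
  refine ⟨fun b => (f (Encodable.encode b) : ℕ), fun b => (f (Encodable.encode b)).2, ?_⟩
  intro b b' h
  exact Encodable.encode_injective (f.injective (Subtype.ext h))

theorem exists_data (D : Finset ℚ) (z₀ : ℚ) (T0 : Finset ℕ) (ε : ℝ) (hε : 0 < ε) :
    ∃ (z : ℚ) (T : Finset ℕ) (q : ℚ → ℕ) (N0 : ℕ), HA D z T q N0 ∧ 1 ≤ N0 ∧
      (∀ p ∈ T0, p.Prime → p ∈ T) ∧
      (∀ (p : ℕ) [Fact p.Prime], p ∈ T0 → ‖(z : ℚ_[p]) - (z₀ : ℚ_[p])‖ < ε) ∧
      |(z : ℝ) - (z₀ : ℝ)| < ε := by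
  classical
  set L := ∑ v ∈ T0, v + ∑ a ∈ D, ∑ b ∈ D, rb (a - b) + ∑ b ∈ D, rb (b - z₀) + 5 with hL
  obtain ⟨q, hq, hqinj⟩ := exists_private L
  have hqp : ∀ b, (q b).Prime := fun b => (hq b).1
  have hqL : ∀ b, L < q b := fun b => (hq b).2.2
  -- the modulus at the places of T0
  set T1 := T0.filter Nat.Prime with hT1
  obtain ⟨k, hk⟩ : ∃ k : ℕ, (1 / 2 : ℝ) ^ k < ε := exists_pow_lt_of_lt_one hε (by norm_num)
  set P : ℕ := ∏ v ∈ T1, v ^ k with hP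
  have hT1p : ∀ v ∈ T1, v.Prime := fun v hv => (Finset.mem_filter.1 hv).2
  have hP0 : P ≠ 0 := Finset.prod_ne_zero_iff.2 fun v hv => pow_ne_zero _ (hT1p v hv).ne_zero
  have hPq : ∀ b, Nat.Coprime (q b) P := by
    intro b
    apply Nat.Coprime.prod_right
    intro v hv
    apply Nat.Coprime.pow_right
    rw [Nat.coprime_primes (hqp b) (hT1p v hv)]
    have h1 : v ≤ ∑ v ∈ T0, v :=
      Finset.single_le_sum (f := fun v : ℕ => v) (fun _ _ => Nat.zero_le _) (Finset.mem_filter.1 hv).1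
    have := hqL b
    omega
  have hab : ∀ a ∈ D, ∀ b ∈ D, a ≠ b → ∀ b' : ℚ, ∀ [Fact (q b').Prime],
      ‖((a - b : ℚ) : ℚ_[q b'])‖ = 1 := by
    intro a ha b hb hne b' _
    apply norm_rat_eq_one (sub_ne_zero.2 hne)
    have h1 : rb (a - b) ≤ ∑ b ∈ D, rb (a - b) :=
      Finset.single_le_sum (f := fun b => rb (a - b)) (fun _ _ => Nat.zero_le _) hb
    have h2 : ∑ b ∈ D, rb (a - b) ≤ ∑ a ∈ D, ∑ b ∈ D, rb (a - b) :=
      Finset.single_le_sum (f := fun a => ∑ b ∈ D, rb (a - b)) (fun _ _ => Nat.zero_le _) ha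
    have := hqL b'
    omega
  -- the numerator
  have hn : ∀ b ∈ D, ∃ n : ℕ, ∀ [Fact (q b).Prime], ∀ m : ℕ, m ≡ n [MOD q b ^ 2] →
      ‖(m : ℚ_[q b]) - ((b : ℚ_[q b]) + (q b : ℚ_[q b]) - (z₀ : ℚ_[q b])) / (P : ℚ_[q b])‖ ≤
        ((q b : ℕ) : ℝ) ^ (-(2 : ℤ)) := by
    intro b hb
    have hf : Fact (q b).Prime := ⟨hqp b⟩
    have hPn : ‖(P : ℚ_[q b])‖ = 1 := Padic.norm_natCast_eq_one_iff.2 (hPq b)
    obtain ⟨n, hn⟩ := exists_appr0 (p := q b) (((b : ℚ_[q b]) + (q b : ℚ_[q b]) -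
      (z₀ : ℚ_[q b])) / (P : ℚ_[q b])) (by
        rw [norm_div, hPn, div_one]
        have h1 : ‖((b - z₀ : ℚ) : ℚ_[q b])‖ ≤ 1 := by
          apply norm_rat_le_one'
          have h1 : rb (b - z₀) ≤ ∑ b ∈ D, rb (b - z₀) :=
            Finset.single_le_sum (f := fun b => rb (b - z₀)) (fun _ _ => Nat.zero_le _) hb
          have := hqL b
          omega
        have h2 : (b : ℚ_[q b]) + (q b : ℚ_[q b]) - (z₀ : ℚ_[q b]) =
            ((b - z₀ : ℚ) : ℚ_[q b]) + (q b : ℚ_[q b]) := by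
          push_cast
          ring
        rw [h2]
        refine (Padic.nonarchimedean _ _).trans (max_le h1 ?_)
        rw [Padic.norm_p]
        exact inv_le_one_of_one_le₀ (by exact_mod_cast (hqp b).one_le)) 2
    exact ⟨n, fun m hm => by exact_mod_cast hn m hm⟩
  choose! nb hnb using hn
  have hpp : Set.Pairwise (D : Set ℚ) (Function.onFun Nat.Coprime fun b => q b ^ 2) := by
    intro b _ b' _ hbb
    exact Nat.Coprime.pow _ _ ((Nat.coprime_primes (hqp b) (hqp b')).2 (fun h => hbb (hqinj h)))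
  obtain ⟨n, hn⟩ := Nat.chineseRemainderOfFinset nb (fun b => q b ^ 2) D
    (fun b _ => pow_ne_zero _ (hqp b).ne_zero) hpp
  -- the denominator
  set W : ℕ := (∏ v ∈ T1, v) * ∏ b ∈ D, q b ^ 2 with hW
  have hW1 : 1 ≤ W := Nat.one_le_iff_ne_zero.2 (Nat.mul_ne_zero
    (Finset.prod_ne_zero_iff.2 fun v hv => (hT1p v hv).ne_zero)
    (Finset.prod_ne_zero_iff.2 fun b _ => pow_ne_zero _ (hqp b).ne_zero))
  obtain ⟨t, ht⟩ : ∃ t : ℕ, (P * n : ℝ) / ε < t := exists_nat_gt _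
  set R : ℕ := 1 + W * t with hR
  have hR0 : (R : ℚ) ≠ 0 := by
    have : R ≠ 0 := by rw [hR]; omega
    exact_mod_cast this
  set z : ℚ := z₀ + P * n / R with hz
  have hzv : ∀ (v : ℕ) [Fact v.Prime], (z : ℚ_[v]) = (z₀ : ℚ_[v]) + (P : ℚ_[v]) * n / (R : ℚ_[v]) := by
    intro v _
    rw [hz]
    push_cast
    rfl
  have hRn : ∀ (v : ℕ) [Fact v.Prime], v ∣ W → ‖(R : ℚ_[v])‖ = 1 := by
    intro v hv hvW
    rw [Padic.norm_natCast_eq_one_iff, Nat.Prime.coprime_iff_not_dvd hv.out]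
    intro h
    have h1 : v ∣ 1 := (Nat.dvd_add_left (hvW.mul_right t)).1 h
    exact hv.out.one_lt.ne' (Nat.dvd_one.1 h1)
  -- the distance to the points of D
  have hqz : ∀ b ∈ D, ∀ [Fact (q b).Prime], ‖((z - b : ℚ) : ℚ_[q b])‖ = ((q b : ℕ) : ℝ)⁻¹ := by
    intro b hb hf
    have hq1 : (1 : ℝ) < q b := by exact_mod_cast (hqp b).one_lt
    have hqW : q b ^ 2 ∣ W := (Finset.dvd_prod_of_mem (fun b => q b ^ 2) hb).mul_left _
    have hRq := hRn (q b) ((dvd_pow_self _ two_ne_zero).trans hqW)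
    have hR0' : (R : ℚ_[q b]) ≠ 0 := norm_ne_zero_iff.1 (by rw [hRq]; exact one_ne_zero)
    have hPn : ‖(P : ℚ_[q b])‖ = 1 := Padic.norm_natCast_eq_one_iff.2 (hPq b)
    have hP0' : (P : ℚ_[q b]) ≠ 0 := norm_ne_zero_iff.1 (by rw [hPn]; exact one_ne_zero)
    set U : ℚ_[q b] := ((b : ℚ_[q b]) + (q b : ℚ_[q b]) - (z₀ : ℚ_[q b])) / (P : ℚ_[q b]) with hU
    have h1 : ‖(n : ℚ_[q b]) - U‖ ≤ ((q b : ℕ) : ℝ) ^ (-(2 : ℤ)) := hnb b hb n (hn b hb)
    have hlt : ((q b : ℕ) : ℝ) ^ (-(2 : ℤ)) < ((q b : ℕ) : ℝ)⁻¹ := by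
      rw [← zpow_neg_one]
      exact zpow_lt_zpow_right₀ hq1 (by norm_num)
    have hUn : ‖U‖ ≤ 1 := by
      have h2 : U = (n : ℚ_[q b]) + -((n : ℚ_[q b]) - U) := by ring
      rw [h2]
      refine (Padic.nonarchimedean _ _).trans (max_le ?_ ?_)
      · have := Padic.norm_int_le_one (p := q b) (n : ℤ)
        simpa using this
      · rw [norm_neg]
        refine h1.trans (hlt.le.trans ?_)
        exact inv_le_one_of_one_le₀ hq1.le
    have hR1 : ‖(R : ℚ_[q b]) - 1‖ ≤ ((q b : ℕ) : ℝ) ^ (-(2 : ℤ)) := by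
      have h2 : (R : ℚ_[q b]) - 1 = ((W * t : ℕ) : ℚ_[q b]) := by
        rw [hR]
        push_cast
        ring
      rw [h2]
      have h3 := (Padic.norm_int_le_pow_iff_dvd (p := q b) ((W * t : ℕ) : ℤ) 2).2
        (by exact_mod_cast (hqW.mul_right t))
      rw [Int.cast_natCast] at h3
      exact_mod_cast h3
    have h2 : ((z - b : ℚ) : ℚ_[q b]) - (q b : ℚ_[q b]) =
        (P : ℚ_[q b]) * (((n : ℚ_[q b]) - U) + -(U * ((R : ℚ_[q b]) - 1))) / (R : ℚ_[q b]) := by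
      have h3 : (b : ℚ_[q b]) + (q b : ℚ_[q b]) - (z₀ : ℚ_[q b]) = U * P := by
        rw [hU]
        field_simp
      have h4 : (b : ℚ_[q b]) = U * P - (q b : ℚ_[q b]) + (z₀ : ℚ_[q b]) := by
        rw [← h3]
        ring
      push_cast
      rw [hzv, h4]
      field_simp
      ring
    have h3 : ‖((z - b : ℚ) : ℚ_[q b]) - (q b : ℚ_[q b])‖ ≤ ((q b : ℕ) : ℝ) ^ (-(2 : ℤ)) := by
      rw [h2, norm_div, norm_mul, hPn, hRq, one_mul, div_one]
      refine (Padic.nonarchimedean _ _).trans (max_le h1 ?_)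
      rw [norm_neg, norm_mul]
      calc ‖U‖ * ‖(R : ℚ_[q b]) - 1‖ ≤ 1 * ((q b : ℕ) : ℝ) ^ (-(2 : ℤ)) :=
            mul_le_mul hUn hR1 (norm_nonneg _) zero_le_one
        _ = _ := one_mul _
    have h4 : ((z - b : ℚ) : ℚ_[q b]) =
        (((z - b : ℚ) : ℚ_[q b]) - (q b : ℚ_[q b])) + (q b : ℚ_[q b]) := by ring
    have h5 : ‖((z - b : ℚ) : ℚ_[q b]) - (q b : ℚ_[q b])‖ < ‖(q b : ℚ_[q b])‖ := by
      rw [Padic.norm_p]
      exact h3.trans_lt hlt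
    rw [h4, Padic.add_eq_max_of_ne h5.ne, max_eq_right h5.le, Padic.norm_p]
  have hne : ∀ b ∈ D, b ≠ z := by
    intro b hb h
    have hf : Fact (q b).Prime := ⟨hqp b⟩
    have h1 := hqz b hb
    rw [sub_eq_zero.2 h.symm] at h1
    simp only [Rat.cast_zero, norm_zero] at h1
    have h2 : (0 : ℝ) < ((q b : ℕ) : ℝ)⁻¹ := by
      have : (0 : ℝ) < q b := by exact_mod_cast (hqp b).pos
      positivity
    linarith
  have hqz1 : ∀ b ∈ D, ∀ b' ∈ D, b' ≠ b → ∀ [Fact (q b').Prime],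
      ‖((z - b : ℚ) : ℚ_[q b'])‖ = 1 := by
    intro b hb b' hb' hbb hf
    have hq1 : (1 : ℝ) < q b' := by exact_mod_cast (hqp b').one_lt
    apply norm_eq_one_of_sub_lt (hab b' hb' b hb hbb b')
    have h1 : ((z - b : ℚ) : ℚ_[q b']) - ((b' - b : ℚ) : ℚ_[q b']) = ((z - b' : ℚ) : ℚ_[q b']) := by
      push_cast
      ring
    rw [h1, hqz b' hb']
    exact inv_lt_one_of_one_lt₀ hq1
  set M := 2 + ∑ v ∈ T0, v + ∑ b ∈ D, q b + ∑ a ∈ D, ∑ b ∈ D, rb ((a - b) * (z - b)) with hM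
  refine ⟨z, (Finset.range (M + 1)).filter Nat.Prime, q, 2 * ∏ b ∈ D, (q b - 1), ?_, ?_, ?_, ?_, ?_⟩
  · refine ⟨fun v hv => (Finset.mem_filter.1 hv).2, ?_, hne, ?_, fun b _ => (hq b).2.1, ?_,
      fun b _ b' _ h h2 => h (hqinj h2), ?_, even_two_mul _, ?_, ?_, ?_⟩
    · exact Finset.mem_filter.2 ⟨Finset.mem_range.2 (by omega), Nat.prime_two⟩
    · intro b hb
      refine Finset.mem_filter.2 ⟨Finset.mem_range.2 ?_, hqp b⟩
      have : q b ≤ ∑ b ∈ D, q b := Finset.single_le_sum (f := q) (fun _ _ => Nat.zero_le _) hb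
      omega
    · intro b _
      have := hqL b
      omega
    · intro b hb
      exact (Finset.dvd_prod_of_mem (fun b => q b - 1) hb).mul_left _
    · intro a ha b hb hne' l hl hlT
      apply norm_rat_eq_one (mul_ne_zero (sub_ne_zero.2 hne') (sub_ne_zero.2 (hne b hb).symm))
      by_contra hlt
      apply hlT
      refine Finset.mem_filter.2 ⟨Finset.mem_range.2 ?_, hl.out⟩
      have h1 : rb ((a - b) * (z - b)) ≤ ∑ b ∈ D, rb ((a - b) * (z - b)) :=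
        Finset.single_le_sum (f := fun b => rb ((a - b) * (z - b))) (fun _ _ => Nat.zero_le _) hb
      have h2 : ∑ b ∈ D, rb ((a - b) * (z - b)) ≤ ∑ a ∈ D, ∑ b ∈ D, rb ((a - b) * (z - b)) :=
        Finset.single_le_sum (f := fun a => ∑ b ∈ D, rb ((a - b) * (z - b)))
          (fun _ _ => Nat.zero_le _) ha
      omega
    · intro a ha b hb hne' hf
      rw [Rat.cast_mul, norm_mul, hab a ha b hb hne' b, hqz b hb, one_mul]
    · intro a ha b hb hne' b' hb' hbb hf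
      rw [Rat.cast_mul, norm_mul, hab a ha b hb hne' b', hqz1 b hb b' hb' hbb, one_mul]
  · apply Nat.one_le_iff_ne_zero.2
    apply Nat.mul_ne_zero two_ne_zero
    apply Finset.prod_ne_zero_iff.2
    intro b _
    have := hqL b
    omega
  · intro p hp hpp
    refine Finset.mem_filter.2 ⟨Finset.mem_range.2 ?_, hpp⟩
    have : p ≤ ∑ v ∈ T0, v :=
      Finset.single_le_sum (f := fun v : ℕ => v) (fun _ _ => Nat.zero_le _) hp
    omega
  · intro p hp hpT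
    have hpT1 : p ∈ T1 := Finset.mem_filter.2 ⟨hpT, hp.out⟩
    have hpW : p ∣ W := (Finset.dvd_prod_of_mem (fun v : ℕ => v) hpT1).mul_right _
    have h1 : (z : ℚ_[p]) - (z₀ : ℚ_[p]) = (P : ℚ_[p]) * n / (R : ℚ_[p]) := by
      rw [hzv]
      ring
    rw [h1, norm_div, norm_mul, hRn p hpW, div_one]
    have h2 : ‖(n : ℚ_[p])‖ ≤ 1 := by
      have := Padic.norm_int_le_one (p := p) (n : ℤ)
      simpa using this
    have h3 : ‖(P : ℚ_[p])‖ ≤ (1 / 2 : ℝ) ^ k := by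
      obtain ⟨d, hd⟩ := Finset.dvd_prod_of_mem (fun v : ℕ => v ^ k) hpT1
      have h4 : (P : ℚ_[p]) = (p : ℚ_[p]) ^ k * (d : ℚ_[p]) := by
        rw [hP, hd]
        push_cast
        rfl
      rw [h4, norm_mul, norm_pow, Padic.norm_p]
      have h5 : ‖(d : ℚ_[p])‖ ≤ 1 := by
        have := Padic.norm_int_le_one (p := p) (d : ℤ)
        simpa using this
      have h6 : ((p : ℝ)⁻¹) ^ k ≤ (1 / 2 : ℝ) ^ k := by
        apply pow_le_pow_left₀ (by positivity)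
        rw [one_div]
        apply inv_anti₀ (by norm_num)
        exact_mod_cast hp.out.two_le
      have h7 : (0 : ℝ) ≤ ((p : ℝ)⁻¹) ^ k := by positivity
      nlinarith
    nlinarith [norm_nonneg (P : ℚ_[p]), norm_nonneg (n : ℚ_[p])]
  · have hRpos : (0 : ℝ) < R := by
      have : 0 < R := by rw [hR]; omega
      exact_mod_cast this
    have h1 : (z : ℝ) - z₀ = (P : ℝ) * n / R := by
      rw [hz]
      push_cast
      ring
    rw [h1, abs_of_nonneg (by positivity), div_lt_iff₀ hRpos]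
    have h2 : (t : ℝ) ≤ R := by
      have : t ≤ R := by
        rw [hR]
        nlinarith
      exact_mod_cast this
    rw [div_lt_iff₀ hε] at ht
    nlinarith

theorem partA (D : Finset ℚ) (hD : 2 ≤ D.card) (z₀ : ℚ) (T : Finset ℕ) (ε : ℝ) (hε : 0 < ε) :
    ¬ {c : ↥(D : Set ℚ) → Cls {n | 0 < n} |
      (∀ (p : ℕ) [Fact p.Prime], ∃ x : ℚ_[p], (p ∈ T → ‖x - (z₀ : ℚ_[p])‖ < ε) ∧
        LocGeom (D : Set ℚ) c ℚ_[p] x) ∧
      (∃ x : ℝ, |x - (z₀ : ℝ)| < ε ∧ LocGeom (D : Set ℚ) c ℝ x) ∧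
        ¬ Geom (D : Set ℚ) c}.Countable := by
  obtain ⟨z, T1, q, N0, hA, hN0, hT, h1, h2⟩ := exists_data D z₀ T ε hε
  intro h
  apply partA' hA hN0 hD
  apply h.mono
  rintro c ⟨hc1, hc2, hc3⟩
  refine ⟨?_, ⟨(z : ℝ), h2, hc2⟩, hc3⟩
  intro p hp
  obtain ⟨x, hx1, hx2⟩ := hc1 p
  refine ⟨x, fun hpT => ?_, hx2⟩
  rw [hx1 (hT p hpT hp.out)]
  exact h1 p hpT

end Pool.Agent.Q33.EX
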