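import Pool.Agent.Q33.EX.Weil
import Pool.Agent.W349.CG.Weil

/-!
# Points with prescribed power residue classes over large finite fields
-/

set_option autoImplicit false

namespace Pool.Agent.Q33.EX

open Polynomial Finset

/-- the greatest common divisor condition for products of linear factors -/
theorem copG_prod {F : Type} [Field F] {r : ℕ} (α : Fin r → F) (hα : Function.Injective α)
    (t : ℕ) (m : Fin r → ℕ) (hm : ∀ k : ℕ, (∀ i, t ∣ k * m i) → t ∣ k) :
    W.CopG t (∏ i, (X - C (α i)) ^ m i) := by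
  classical
  intro k hk
  apply hm
  intro i
  have h1 := hk (α i)
  have h0 : (∏ i, (X - C (α i)) ^ m i : F[X]) ≠ 0 :=
    Finset.prod_ne_zero_iff.2 fun j _ => pow_ne_zero _ (X_sub_C_ne_zero _)
  have h2 : rootMultiplicity (α i) (∏ i, (X - C (α i)) ^ m i : F[X]) = m i := by
    have h3 : (∏ i, (X - C (α i)) ^ m i : F[X]) =
      (X - C (α i)) ^ m i * ∏ x ∈ univ.erase i, (X - C (α x)) ^ m x :=
      (Finset.mul_prod_erase _ _ (Finset.mem_univ i)).symm
    rw [h3] at h0 ⊢
    rw [rootMultiplicity_mul h0, rootMultiplicity_X_sub_C_pow]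
    have : rootMultiplicity (α i) (∏ x ∈ univ.erase i, (X - C (α x)) ^ m x : F[X]) = 0 := by
      apply rootMultiplicity_eq_zero
      rw [IsRoot, eval_prod]
      apply Finset.prod_ne_zero_iff.2
      intro j hj
      rw [eval_pow, eval_sub, eval_X, eval_C]
      apply pow_ne_zero
      rw [sub_ne_zero]
      intro h
      exact (Finset.ne_of_mem_erase hj) (hα h).symm
    rw [this, add_zero]
  rw [h2] at h1
  exact h1

section

variable {F : Type} [Field F] [Fintype F] [DecidableEq F]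

open Pool.Agent.W349.CG.WeilT (norm_char_le pow_of_char)

/-- the sum for one tuple of exponents -/
theorem tuple_bound (n r : ℕ) : ∃ K : ℝ, 0 ≤ K ∧ ∀ (F : Type) [Field F] [Fintype F]
    [DecidableEq F] (t : ℕ), 1 ≤ t → t ≤ n → t ∣ Fintype.card F - 1 → ∀ χ : MulChar F ℂ,
    orderOf χ = t → ∀ α : Fin r → F, Function.Injective α → ∀ c : Fin r → F,
    ∀ j : Fin r → ℕ, (∀ i, j i < t) → (∃ i, j i ≠ 0) →
    ‖∑ x : F, ∏ i, (χ ^ j i) ((x - α i) * c i)‖ ≤ K * Real.sqrt (Fintype.card F) + r := by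
  classical
  have hw : ∀ t : ℕ, 2 ≤ t → ∃ K : ℝ, 0 ≤ K ∧ ∀ (E : Type) [Field E] [Fintype E],
    t ∣ Fintype.card E - 1 → ∀ ψ : MulChar E ℂ, ψ ≠ 1 → ψ ^ t = 1 → ∀ f : E[X],
    f.natDegree ≤ r * n → f ≠ 0 → W.CopG t f →
    ‖∑ x : E, ψ (f.eval x)‖ ≤ K * Real.sqrt (Fintype.card E) := fun t ht => W.wele t (r * n) ht
  choose! K hK0 hK using hw
  refine ⟨∑ t ∈ Finset.Icc 2 n, K t, Finset.sum_nonneg fun t ht =>
    hK0 t (Finset.mem_Icc.1 ht).1, ?_⟩
  intro F _ _ _ t ht1 htn htF χ hχ α hα c j hj hj0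
  -- the greatest common divisor
  set g := Finset.univ.gcd j with hg
  set d := Nat.gcd g t with hd
  have ht0 : 0 < t := ht1
  have hd0 : 0 < d := Nat.gcd_pos_of_pos_right _ ht0
  have hdt : d ∣ t := Nat.gcd_dvd_right _ _
  have hdj : ∀ i, d ∣ j i := fun i => (Nat.gcd_dvd_left g t).trans (Finset.gcd_dvd (Finset.mem_univ i))
  obtain ⟨t', ht'⟩ := hdt
  choose m hm using hdj
  obtain ⟨i0, hi0⟩ := hj0
  have ht'2 : 2 ≤ t' := by
    by_contra hlt
    have h1 : t' = 1 ∨ t' = 0 := by omega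
    rcases h1 with h1 | h1
    · rw [h1, mul_one] at ht'
      have h2 : t ∣ j i0 := by rw [ht', hm i0]; exact dvd_mul_right _ _
      have h3 := Nat.le_of_dvd (Nat.pos_of_ne_zero hi0) h2
      have := hj i0
      omega
    · rw [h1, mul_zero] at ht'
      omega
  have ht'n : t' ≤ n := by
    refine le_trans ?_ htn
    rw [ht']
    exact Nat.le_mul_of_pos_left _ hd0
  have hcop : ∀ k : ℕ, (∀ i, t' ∣ k * m i) → t' ∣ k := by
    intro k hk
    have h1 : ∀ i, t ∣ k * j i := by
      intro i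
      rw [hm i, ht']
      have : k * (d * m i) = d * (k * m i) := by ring
      rw [this]
      exact mul_dvd_mul_left d (hk i)
    have h2 : t ∣ k * g := by
      have h3 : t ∣ Finset.univ.gcd (fun i => k * j i) := Finset.dvd_gcd fun i _ => h1 i
      exact h3.trans (Finset.gcd_mul_left' (s := Finset.univ) (f := j) k).dvd
    have h3 : t ∣ k * d := by
      rw [hd, ← Nat.gcd_mul_left]
      exact Nat.dvd_gcd h2 (dvd_mul_left _ _)
    rw [ht', mul_comm k d] at h3
    exact Nat.dvd_of_mul_dvd_mul_left hd0 h3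
  -- the character and the polynomial
  set ψ := χ ^ d with hψ
  have hψt : ψ ^ t' = 1 := by
    rw [hψ, ← pow_mul, ← ht', ← hχ, pow_orderOf_eq_one]
  have hψ1 : ψ ≠ 1 := by
    intro h
    have h1 : t ∣ d := by
      rw [← hχ]
      exact orderOf_dvd_of_pow_eq_one h
    have h2 := Nat.le_of_dvd hd0 h1
    have h3 : d * 2 ≤ d * t' := Nat.mul_le_mul_left _ ht'2
    omega
  set f : F[X] := ∏ i, (X - C (α i)) ^ m i with hf
  have hf0 : f ≠ 0 := Finset.prod_ne_zero_iff.2 fun j _ => pow_ne_zero _ (X_sub_C_ne_zero _)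
  have hfd : f.natDegree ≤ r * n := by
    rw [hf, natDegree_prod_of_monic _ _ fun i _ => (monic_X_sub_C _).pow _]
    calc ∑ i, ((X - C (α i)) ^ m i : F[X]).natDegree ≤ ∑ i : Fin r, n := by
          apply Finset.sum_le_sum
          intro i _
          rw [(monic_X_sub_C _).natDegree_pow, natDegree_X_sub_C, mul_one]
          have h1 : m i ≤ j i := by rw [hm i]; exact Nat.le_mul_of_pos_left _ hd0
          have := hj i
          omega
      _ = r * n := by simp
  have hfc : W.CopG t' f := copG_prod α hα t' m hcop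
  have ht'F : t' ∣ Fintype.card F - 1 := (Dvd.intro_left d ht'.symm).trans htF
  have h1 := hK t' ht'2 F ht'F ψ hψ1 hψt f hfd hf0 hfc
  have hKle : K t' ≤ ∑ t ∈ Finset.Icc 2 n, K t :=
    Finset.single_le_sum (f := K) (fun t ht => hK0 t (Finset.mem_Icc.1 ht).1)
      (Finset.mem_Icc.2 ⟨ht'2, ht'n⟩)
  set A : ℂ := ∏ i, (χ ^ j i) (c i) with hA
  have hAn : ‖A‖ ≤ 1 := by
    rw [hA, norm_prod]
    exact Finset.prod_le_one (fun i _ => norm_nonneg _) fun i _ => norm_char_le _ _
  have h2 : ∑ x : F, ∏ i, (χ ^ j i) ((x - α i) * c i) =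
      A * ∑ x : F, ∏ i, (χ ^ j i) (x - α i) := by
    rw [Finset.mul_sum]
    apply Finset.sum_congr rfl
    intro x _
    rw [hA, ← Finset.prod_mul_distrib]
    apply Finset.prod_congr rfl
    intro i _
    rw [map_mul, mul_comm]
  have h3 : ‖∑ x : F, ∏ i, (χ ^ j i) (x - α i) - ∑ x : F, ψ (f.eval x)‖ ≤ r := by
    rw [← Finset.sum_sub_distrib]
    have h4 : ∀ x ∉ Finset.univ.image α, (∏ i, (χ ^ j i) (x - α i)) - ψ (f.eval x) = 0 := by
      intro x hx
      rw [sub_eq_zero, hf, eval_prod, map_prod]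
      apply Finset.prod_congr rfl
      intro i _
      have hxi : x - α i ≠ 0 := by
        rw [sub_ne_zero]
        rintro rfl
        exact hx (Finset.mem_image_of_mem _ (Finset.mem_univ i))
      rw [eval_pow, eval_sub, eval_X, eval_C, hψ, hm i]
      obtain ⟨u, hu⟩ : ∃ u : Fˣ, (u : F) = x - α i := ⟨Units.mk0 _ hxi, rfl⟩
      rw [← hu, ← Units.val_pow_eq_pow_val, MulChar.pow_apply_coe, MulChar.pow_apply_coe,
        Units.val_pow_eq_pow_val, map_pow, ← pow_mul]
      congr 1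
      ring
    rw [← Finset.sum_subset (Finset.subset_univ (Finset.univ.image α)) (fun x _ hx => h4 x hx)]
    refine (norm_sum_le _ _).trans ?_
    calc ∑ x ∈ Finset.univ.image α, ‖(∏ i, (χ ^ j i) (x - α i)) - ψ (f.eval x)‖
        ≤ ∑ x ∈ Finset.univ.image α, (1 : ℝ) := by
          apply Finset.sum_le_sum
          intro x hx
          obtain ⟨i, _, hi⟩ := Finset.mem_image.1 hx
          have h5 : (∏ i, (χ ^ j i) (x - α i)) = 0 := by
            apply Finset.prod_eq_zero (Finset.mem_univ i)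
            rw [hi, sub_self, MulChar.map_zero]
          rw [h5, zero_sub, norm_neg]
          exact norm_char_le _ _
      _ ≤ r := by
          rw [Finset.sum_const, nsmul_eq_mul, mul_one]
          have : (Finset.univ.image α).card ≤ r := by
            refine Finset.card_image_le.trans ?_
            simp
          exact_mod_cast this
  rw [h2, norm_mul]
  have h4 : ‖∑ x : F, ∏ i, (χ ^ j i) (x - α i)‖ ≤
      (∑ t ∈ Finset.Icc 2 n, K t) * Real.sqrt (Fintype.card F) + r := by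
    have h5 : ‖∑ x : F, ∏ i, (χ ^ j i) (x - α i)‖ ≤ ‖∑ x : F, ψ (f.eval x)‖ +
        ‖∑ x : F, ∏ i, (χ ^ j i) (x - α i) - ∑ x : F, ψ (f.eval x)‖ := by
      have := norm_add_le (∑ x : F, ψ (f.eval x))
        (∑ x : F, ∏ i, (χ ^ j i) (x - α i) - ∑ x : F, ψ (f.eval x))
      rwa [add_sub_cancel] at this
    have h6 : K t' * Real.sqrt (Fintype.card F) ≤
        (∑ t ∈ Finset.Icc 2 n, K t) * Real.sqrt (Fintype.card F) :=
      mul_le_mul_of_nonneg_right hKle (Real.sqrt_nonneg _)
    linarith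
  calc ‖A‖ * ‖∑ x : F, ∏ i, (χ ^ j i) (x - α i)‖ ≤ 1 * ‖∑ x : F, ∏ i, (χ ^ j i) (x - α i)‖ :=
        mul_le_mul_of_nonneg_right hAn (norm_nonneg _)
    _ ≤ _ := by rw [one_mul]; exact h4


omit [DecidableEq F] in
/-- elements of the kernel of a character of order `gcd (n, q - 1)` are `n`-th powers -/
theorem pow_of_char' (χ : MulChar F ℂ) (n : ℕ) (hχ : orderOf χ = Nat.gcd n (Fintype.card F - 1))
    (z : F) (hz0 : z ≠ 0) (hz : χ z = 1) : ∃ u : F, u ≠ 0 ∧ z = u ^ n := by
  classical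
  obtain ⟨u, hu⟩ := pow_of_char χ _ hχ (Units.mk0 z hz0) hz
  set q := Fintype.card F - 1 with hq
  have hcard : u ^ q = 1 := by
    have := pow_card_eq_one (x := u)
    rwa [Fintype.card_units] at this
  refine ⟨((u ^ (Nat.gcdA n q) : Fˣ) : F), Units.ne_zero _, ?_⟩
  have h1 : u ^ (Nat.gcd n q) = (u ^ (Nat.gcdA n q)) ^ n := by
    rw [← zpow_natCast u, Nat.gcd_eq_gcd_ab, zpow_add, zpow_mul, zpow_mul, zpow_natCast u q, hcard,
      one_zpow, mul_one, ← zpow_natCast (u ^ (Nat.gcdA n q)), ← zpow_mul, ← zpow_mul, mul_comm]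
  have h2 : (z : F) = ((u ^ (Nat.gcd n q) : Fˣ) : F) := by
    rw [← hu]
    rfl
  rw [h2, h1]
  push_cast
  rfl

/-- **Points with prescribed power residue classes.** -/
theorem exists_pt (n r : ℕ) (hn : 1 ≤ n) : ∃ B : ℕ, ∀ (F : Type) [Field F] [Fintype F],
    B < Fintype.card F → ∀ α : Fin r → F, Function.Injective α →
    ∀ c : Fin r → F, (∀ i, c i ≠ 0) → ∃ x : F, ∀ i, ∃ u : F, u ≠ 0 ∧ x - α i = c i * u ^ n := by
  classical
  obtain ⟨K, hK0, hK⟩ := tuple_bound n r
  set b : ℝ := (n : ℝ) ^ r * K with hb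
  set e : ℝ := (n : ℝ) ^ r * r + r with he
  have hb0 : 0 ≤ b := by positivity
  have he0 : 0 ≤ e := by positivity
  refine ⟨⌈(b + e + 1) ^ 2⌉₊, ?_⟩
  intro F _ _ hF α hα c hc
  by_contra hno
  push Not at hno
  set q := Fintype.card F with hq
  set t := Nat.gcd n (q - 1) with ht
  have hq2 : 2 ≤ q := Fintype.one_lt_card
  have ht1 : 1 ≤ t := Nat.gcd_pos_of_pos_left _ hn
  have htn : t ≤ n := Nat.gcd_le_left _ hn
  have htq : t ∣ q - 1 := Nat.gcd_dvd_right _ _
  obtain ⟨χ, hχ⟩ := MulChar.exists_mulChar_orderOf F htq (Complex.isPrimitiveRoot_exp t (by omega))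
  have hχt : χ ^ t = 1 := by rw [← hχ, pow_orderOf_eq_one]
  have h1 : ∀ x : F, ∏ i, ∑ j ∈ range t, (χ ^ j) ((x - α i) * (c i)⁻¹) = 0 := by
    intro x
    obtain ⟨i, hi⟩ := hno x
    apply Finset.prod_eq_zero (Finset.mem_univ i)
    by_cases hx : x - α i = 0
    · apply Finset.sum_eq_zero
      intro j _
      rw [hx, zero_mul, MulChar.map_zero]
    · set z := (x - α i) * (c i)⁻¹ with hz
      have hz0 : z ≠ 0 := mul_ne_zero hx (inv_ne_zero (hc i))
      have hz1 : χ z ≠ 1 := by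
        intro h
        obtain ⟨u, hu0, hu⟩ := pow_of_char' χ n hχ z hz0 h
        apply hi u hu0
        rw [← hu, hz]
        field_simp [hc i]
      have hzt : (χ z) ^ t = 1 := by
        obtain ⟨w, hw⟩ : ∃ w : Fˣ, (w : F) = z := ⟨Units.mk0 _ hz0, rfl⟩
        rw [← hw, ← MulChar.pow_apply_coe, hχt, MulChar.one_apply_coe]
      have h2 : ∀ j ∈ range t, (χ ^ j) z = (χ z) ^ j := by
        intro j _
        obtain ⟨w, hw⟩ : ∃ w : Fˣ, (w : F) = z := ⟨Units.mk0 _ hz0, rfl⟩
        rw [← hw, MulChar.pow_apply_coe]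
      rw [Finset.sum_congr rfl h2, geom_sum_eq hz1, hzt, sub_self, zero_div]
  have h2 : ∑ p ∈ Fintype.piFinset (fun _ : Fin r => range t),
      ∑ x : F, ∏ i, (χ ^ p i) ((x - α i) * (c i)⁻¹) = 0 := by
    rw [Finset.sum_comm]
    apply Finset.sum_eq_zero
    intro x _
    rw [← Finset.prod_univ_sum (fun _ : Fin r => range t)
      (fun i j => (χ ^ j) ((x - α i) * (c i)⁻¹))]
    exact h1 x
  set P := Fintype.piFinset (fun _ : Fin r => range t) with hP
  have h0P : (fun _ => 0 : Fin r → ℕ) ∈ P := by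
    rw [hP, Fintype.mem_piFinset]
    intro i
    exact mem_range.2 ht1
  rw [← Finset.add_sum_erase _ _ h0P] at h2
  have h3 : ‖∑ p ∈ P.erase (fun _ => 0), ∑ x : F, ∏ i, (χ ^ p i) ((x - α i) * (c i)⁻¹)‖ ≤
      (n : ℝ) ^ r * (K * Real.sqrt q + r) := by
    refine (norm_sum_le _ _).trans ?_
    calc ∑ p ∈ P.erase (fun _ => 0), ‖∑ x : F, ∏ i, (χ ^ p i) ((x - α i) * (c i)⁻¹)‖
        ≤ ∑ p ∈ P.erase (fun _ => 0), (K * Real.sqrt q + r) := by
          apply Finset.sum_le_sum
          intro p hp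
          have hp1 := Finset.ne_of_mem_erase hp
          have hp2 := Fintype.mem_piFinset.1 (Finset.mem_of_mem_erase hp)
          apply hK F t ht1 htn htq χ hχ α hα (fun i => (c i)⁻¹) p (fun i => mem_range.1 (hp2 i))
          by_contra h
          push Not at h
          exact hp1 (funext h)
      _ ≤ (n : ℝ) ^ r * (K * Real.sqrt q + r) := by
          rw [Finset.sum_const, nsmul_eq_mul]
          apply mul_le_mul_of_nonneg_right _ (by positivity)
          have h4 : (P.erase (fun _ => 0)).card ≤ n ^ r := by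
            refine (Finset.card_erase_le).trans ?_
            rw [hP, Fintype.card_piFinset]
            simp only [card_range, prod_const, card_univ, Fintype.card_fin]
            exact Nat.pow_le_pow_left htn r
          exact_mod_cast h4
  have h4 : (q : ℝ) - r ≤ ‖∑ x : F, ∏ i, (χ ^ ((fun _ => 0 : Fin r → ℕ) i))
      ((x - α i) * (c i)⁻¹)‖ := by
    have h5 : ∀ x : F, ∏ i, (χ ^ ((fun _ => 0 : Fin r → ℕ) i)) ((x - α i) * (c i)⁻¹) =
        if x ∈ Finset.univ.image α then 0 else 1 := by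
      intro x
      split_ifs with hx
      · obtain ⟨i, _, hi⟩ := Finset.mem_image.1 hx
        apply Finset.prod_eq_zero (Finset.mem_univ i)
        rw [hi, sub_self, zero_mul, MulChar.map_zero]
      · apply Finset.prod_eq_one
        intro i _
        have hxi : (x - α i) * (c i)⁻¹ ≠ 0 := by
          apply mul_ne_zero _ (inv_ne_zero (hc i))
          rw [sub_ne_zero]
          rintro rfl
          exact hx (Finset.mem_image_of_mem _ (Finset.mem_univ i))
        rw [pow_zero, MulChar.one_apply (isUnit_iff_ne_zero.2 hxi)]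
    simp_rw [h5]
    rw [Finset.sum_ite, Finset.sum_const_zero, zero_add, Finset.sum_const, nsmul_eq_mul, mul_one,
      Complex.norm_natCast]
    have h6 : q ≤ (Finset.univ.filter fun x : F => x ∉ Finset.univ.image α).card + r := by
      have h7 : (Finset.univ.filter fun x : F => x ∈ Finset.univ.image α).card ≤ r := by
        rw [Finset.filter_mem_eq_inter, Finset.univ_inter]
        refine Finset.card_image_le.trans ?_
        simp
      have h8 := Finset.card_filter_add_card_filter_not (s := (Finset.univ : Finset F))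
        (fun x : F => x ∈ Finset.univ.image α)
      rw [Finset.card_univ, ← hq] at h8
      omega
    have h7 : (q : ℝ) ≤ ((Finset.univ.filter fun x : F => x ∉ Finset.univ.image α).card : ℝ) + r := by
      exact_mod_cast h6
    linarith
  have h5 : ‖∑ x : F, ∏ i, (χ ^ ((fun _ => 0 : Fin r → ℕ) i)) ((x - α i) * (c i)⁻¹)‖ =
      ‖∑ p ∈ P.erase (fun _ => 0), ∑ x : F, ∏ i, (χ ^ p i) ((x - α i) * (c i)⁻¹)‖ := by
    rw [← norm_neg (∑ p ∈ P.erase (fun _ => 0), ∑ x : F, ∏ i, (χ ^ p i) ((x - α i) * (c i)⁻¹))]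
    congr 1
    exact eq_neg_of_add_eq_zero_left h2
  rw [h5] at h4
  have h6 := h4.trans h3
  have h7 : (b + e + 1) ^ 2 < q := by
    have h8 := Nat.le_ceil ((b + e + 1) ^ 2)
    have h9 : ((⌈(b + e + 1) ^ 2⌉₊ : ℕ) : ℝ) < q := by exact_mod_cast hF
    linarith
  have h8 : b + e + 1 < Real.sqrt q := Real.lt_sqrt_of_sq_lt h7
  have h9 : Real.sqrt q * Real.sqrt q = q := Real.mul_self_sqrt (Nat.cast_nonneg q)
  have h10 : (n : ℝ) ^ r * (K * Real.sqrt q + r) + r = b * Real.sqrt q + e := by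
    rw [hb, he]
    ring
  have h11 : (q : ℝ) ≤ b * Real.sqrt q + e := by
    rw [← h10]
    linarith
  nlinarith [mul_nonneg hb0 (by linarith : (0 : ℝ) ≤ Real.sqrt q), mul_nonneg he0 (by linarith : (0 : ℝ) ≤ Real.sqrt q)]

end

end Pool.Agent.Q33.EX
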