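import Pool.Agent.Q33.EX.Defs

/-!
# Sequences of approximations and their limits
-/

set_option autoImplicit false

namespace Pool.Agent.Q33.EX

/-- an approximation: exponents, representatives of the classes, local points; the local points at
the primes up to `g` will not be changed any more -/
structure St where
  e : ℚ → ℕ
  X : ℚ → ℚˣ
  x : (p : ℕ) → [Fact p.Prime] → ℚ_[p]
  g : ℕ

/-- the local points belong to the classes -/
def St.Pts (s : St) (D : Set ℚ) : Prop :=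
  ∀ (p : ℕ) [Fact p.Prime], ∀ b ∈ D, ∃ r : ℚ_[p], r ≠ 0 ∧
    s.x p - (b : ℚ_[p]) = ((s.X b : ℚ) : ℚ_[p]) * r ^ s.e b

/-- one step: the exponent at `a` is multiplied by `m` -/
structure Step (L : ℕ) (a : ℚ) (m : ℕ) (s s' : St) : Prop where
  e_a : s'.e a = s.e a * m
  e_ne : ∀ b, b ≠ a → s'.e b = s.e b
  X_a : ∃ r : ℚˣ, s'.X a = s.X a * r ^ s.e a
  X_ne : ∀ b, b ≠ a → s'.X b = s.X b
  g_lt : s.g < s'.g
  x_eq : ∀ (p : ℕ) [Fact p.Prime], p ≤ s.g → s'.x p = s.x p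
  mark : ∃ (p : ℕ) (_ : Fact p.Prime), L < p ∧ p ≤ s'.g ∧
    ‖s'.x p - (a : ℚ_[p])‖ = (p : ℝ) ^ (-(s.e a : ℤ))

/-- the exponents -/
def eseq (e0 : ℚ → ℕ) (en : ℕ → ℚ) (mu : ℕ → ℕ) : ℕ → ℚ → ℕ
  | 0 => e0
  | k + 1 => Function.update (eseq e0 en mu k) (en k) (eseq e0 en mu k (en k) * mu k)

theorem exists_chain {α : Type} (V : ℕ → α → Prop) (R : ℕ → α → α → Prop) (a0 : α) (h0 : V 0 a0)
    (h : ∀ k a, V k a → ∃ b, V (k + 1) b ∧ R k a b) :
    ∃ f : ℕ → α, f 0 = a0 ∧ ∀ k, V k (f k) ∧ R k (f k) (f (k + 1)) := by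
  classical
  choose! G hG1 hG2 using h
  let f : ℕ → α := fun n => Nat.rec a0 (fun k a => G k a) n
  have hf : ∀ k, V k (f k) := by
    intro k
    induction k with
    | zero => exact h0
    | succ k ih => exact hG1 k _ ih
  exact ⟨f, rfl, fun k => ⟨hf k, hG2 k _ (hf k)⟩⟩

theorem output {D : Set ℚ} {E : Set ℕ} (en : ℕ → ℚ) (mu : ℕ → ℕ) (e0 : ℚ → ℕ)
    (hen2 : ∀ b ∈ D, ∀ K, ∃ k ≥ K, en k = b)
    (hmuE : ∀ n ∈ E, ∃ K, ∀ k ≥ K, n ∣ mu k) (W : St → Prop) (hWP : ∀ s, W s → s.Pts D)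
    (s0 : St) (h0 : W s0) (he0 : s0.e = e0) (L : ℕ → ℕ)
    (step : ∀ s, W s → ∀ k, s.e = eseq e0 en mu k → ∃ s', W s' ∧ Step (L k) (en k) (mu k) s s') :
    ∃ (c : D → Cls E) (x : (p : ℕ) → [Fact p.Prime] → ℚ_[p]),
      (∀ (p : ℕ) [Fact p.Prime] (b : D), x p ≠ ((b : ℚ) : ℚ_[p]) ∧
        IsClassOf ℚ_[p] (c b) (x p - ((b : ℚ) : ℚ_[p]))) ∧
      (∀ (p : ℕ) [Fact p.Prime], p ≤ s0.g → x p = s0.x p) ∧
      (∀ k, ∃ (p : ℕ) (_ : Fact p.Prime), L k < p ∧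
        ‖x p - (en k : ℚ_[p])‖ = (p : ℝ) ^ (-(eseq e0 en mu k (en k) : ℤ))) ∧
      (∀ (b : D) (n : E), ∃ s, W s ∧
        (c b).1 n = (s.X b : ℚˣ ⧸ (powMonoidHom (n : ℕ) : ℚˣ →* ℚˣ).range)) := by
  classical
  obtain ⟨f, hf0, hf⟩ := exists_chain (fun k s => W s ∧ s.e = eseq e0 en mu k)
    (fun k s s' => Step (L k) (en k) (mu k) s s') s0 ⟨h0, he0⟩ (by
      rintro k s ⟨hs1, hs2⟩
      obtain ⟨s', h1, h2⟩ := step s hs1 k hs2
      refine ⟨s', ⟨h1, ?_⟩, h2⟩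
      funext b
      rw [eseq]
      by_cases hb : b = en k
      · rw [hb, Function.update_self, h2.e_a, hs2]
      · rw [Function.update_of_ne hb, h2.e_ne b hb, hs2])
  have hW : ∀ k, W (f k) := fun k => (hf k).1.1
  have hS : ∀ k, Step (L k) (en k) (mu k) (f k) (f (k + 1)) := fun k => (hf k).2
  have hg1 : ∀ j k, j ≤ k → (f j).g ≤ (f k).g := by
    intro j k hjk
    induction k, hjk using Nat.le_induction with
    | base => exact le_rfl
    | succ k _ ih => exact ih.trans (hS k).g_lt.le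
  have hg2 : ∀ k, k ≤ (f k).g := by
    intro k
    induction k with
    | zero => exact Nat.zero_le _
    | succ k ih => exact Nat.succ_le_of_lt (ih.trans_lt (hS k).g_lt)
  have hx : ∀ (p : ℕ) [Fact p.Prime] (j k : ℕ), j ≤ k → p ≤ (f j).g → (f k).x p = (f j).x p := by
    intro p _ j k hjk hp
    induction k, hjk using Nat.le_induction with
    | base => rfl
    | succ k hjk ih => rw [(hS k).x_eq p (hp.trans (hg1 j k hjk)), ih]
  have hx2 : ∀ (p : ℕ) [Fact p.Prime] (k : ℕ), p ≤ (f k).g → (f p).x p = (f k).x p := by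
    intro p _ k hk
    rcases le_total p k with h | h
    · exact (hx p p k h (hg2 p)).symm
    · exact hx p k p h hk
  have hediv : ∀ b k, (f k).e b ∣ (f (k + 1)).e b := by
    intro b k
    by_cases hb : b = en k
    · rw [hb, (hS k).e_a]
      exact dvd_mul_right _ _
    · rw [(hS k).e_ne b hb]
  have hXr : ∀ b k, ∃ r : ℚˣ, (f (k + 1)).X b = (f k).X b * r ^ (f k).e b := by
    intro b k
    by_cases hb : b = en k
    · rw [hb]
      exact (hS k).X_a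
    · exact ⟨1, by rw [(hS k).X_ne b hb]; simp⟩
  have hE : ∀ b ∈ D, ∀ n ∈ E, ∃ k, n ∣ (f k).e b := by
    intro b hb n hn
    obtain ⟨K, hK⟩ := hmuE n hn
    obtain ⟨k, hk1, hk2⟩ := hen2 b hb K
    refine ⟨k + 1, ?_⟩
    rw [← hk2, (hS k).e_a]
    exact (hK k hk1).mul_left _
  have hediv2 : ∀ b j k, j ≤ k → (f j).e b ∣ (f k).e b := by
    intro b j k hjk
    induction k, hjk using Nat.le_induction with
    | base => exact dvd_rfl
    | succ k _ ih => exact ih.trans (hediv b k)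
  have hc : ∀ b : D, ∃ c : Cls E, ∀ (n : E) (k : ℕ), (n : ℕ) ∣ (f k).e b →
      c.1 n = ((f k).X b : ℚˣ ⧸ (powMonoidHom (n : ℕ) : ℚˣ →* ℚˣ).range) := fun b =>
    exists_cls (fun k => (f k).X b) (fun k => (f k).e b) (hediv b) (hXr b) (hE b b.2)
  choose c hc using hc
  have hpt : ∀ (p : ℕ) [Fact p.Prime] (b : D) (k : ℕ), p ≤ k → ∃ r : ℚ_[p], r ≠ 0 ∧
      (f p).x p - ((b : ℚ) : ℚ_[p]) = (((f k).X b : ℚ) : ℚ_[p]) * r ^ (f k).e b := by
    intro p _ b k hk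
    rw [hx2 p k (hk.trans (hg2 k))]
    exact hWP _ (hW k) p b b.2
  refine ⟨c, fun p _ => (f p).x p, ?_, ?_, ?_, ?_⟩
  · intro p hp b
    constructor
    · obtain ⟨r, hr, h1⟩ := hpt p b p le_rfl
      intro h2
      change (f p).x p = _ at h2
      rw [h2, sub_self] at h1
      have h3 : (((f p).X b : ℚ) : ℚ_[p]) ≠ 0 := by
        exact_mod_cast ((f p).X b).ne_zero
      exact mul_ne_zero h3 (pow_ne_zero _ hr) h1.symm
    · intro n
      obtain ⟨k, hk⟩ := hE b b.2 n n.2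
      obtain ⟨d, hd⟩ := hk.trans (hediv2 b k (max k p) (le_max_left _ _))
      obtain ⟨r, hr, h1⟩ := hpt p b (max k p) (le_max_right _ _)
      refine ⟨(f (max k p)).X b, r ^ d, hc b n _ (hk.trans (hediv2 b k _ (le_max_left _ _))),
        pow_ne_zero _ hr, ?_⟩
      rw [h1, ← pow_mul, hd, mul_comm (n : ℕ) d]
  · intro p hp hpg
    change (f p).x p = _
    rw [hx2 p 0 (by rw [hf0]; exact hpg), hf0]
  · intro k
    obtain ⟨p, hp, h1, h2, h3⟩ := (hS k).mark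
    refine ⟨p, hp, h1, ?_⟩
    change ‖(f p).x p - (en k : ℚ_[p])‖ = _
    rw [hx2 p (k + 1) h2, h3, (hf k).1.2]
  · intro b n
    obtain ⟨k, hk⟩ := hE b b.2 n n.2
    exact ⟨f k, hW k, hc b n k hk⟩

end Pool.Agent.Q33.EX
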