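import Pool.Agent.Q33.EX.StepB
import Pool.Agent.Q33.EX.Fin

/-!
# All rational points, odd exponents
-/

set_option autoImplicit false

namespace Pool.Agent.Q33.EX

/-- the section with the classes `c` comes from the point `x`, at every point of `D` -/
def LocGeom {E : Set ℕ} (D : Set ℚ) (c : D → Cls E) (K : Type) [Field K] (x : K) : Prop :=
  ∀ b : D, x ≠ ((b : ℚ) : K) ∧ IsClassOf K (c b) (x - ((b : ℚ) : K))

/-- the section with the classes `c` comes from a rational point of the projective line -/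
def Geom {E : Set ℕ} (D : Set ℚ) (c : D → Cls E) : Prop :=
  (∃ z : ℚ, ∀ b : D, (b : ℚ) ≠ z → IsClassOf ℚ (c b) (z - b)) ∨ ∀ b b' : D, c b = c b'

theorem eseq_odd (e0 : ℚ → ℕ) (en : ℕ → ℚ) (mu : ℕ → ℕ) (h0 : ∀ b, Odd (e0 b))
    (hmu : ∀ k, Odd (mu k)) (k : ℕ) : ∀ b, Odd (eseq e0 en mu k b) := by
  induction k with
  | zero => exact h0
  | succ k ih =>
    intro b
    rw [eseq]
    by_cases hb : b = en k
    · rw [hb, Function.update_self]
      exact (ih _).mul (hmu k)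
    · rw [Function.update_of_ne hb]
      exact ih b

theorem partB (T : Finset ℕ) (y : (p : ℕ) → [Fact p.Prime] → ℚ_[p])
    (hy : ∀ (p : ℕ) [Fact p.Prime], p ∈ T → ∀ b : ℚ, y p ≠ (b : ℚ_[p])) :
    ¬ {c : ↥(Set.univ : Set ℚ) → Cls {n | Odd n} |
      (∀ (p : ℕ) [Fact p.Prime], ∃ x : ℚ_[p], (p ∈ T → x = y p) ∧ LocGeom Set.univ c ℚ_[p] x) ∧
        ¬ Geom Set.univ c}.Countable := by
  classical
  -- the first approximation
  have hx0 : ∀ p : ℕ, ∀ hp : Fact p.Prime, ∃ x : ℚ_[p], (∀ b : ℚ, x ≠ b) ∧ (p ∈ T → x = y p) := by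
    intro p hp
    by_cases hpT : p ∈ T
    · exact ⟨y p, hy p hpT, fun _ => rfl⟩
    · obtain ⟨x, -, hx⟩ := exists_irrational (0 : ℚ_[p]) 1 one_pos
      exact ⟨x, hx, fun h => absurd h hpT⟩
  choose x0 hx01 hx02 using hx0
  let s0 : St := ⟨fun _ => 1, fun _ => 1, fun p hp => x0 p hp, ∑ p ∈ T, p⟩
  have hs0 : WB s0 := by
    refine ⟨fun p hp b => hx01 p hp b, ?_, ⟨∅, fun _ _ => ⟨rfl, rfl⟩⟩, fun _ => odd_one⟩
    intro p hp b _
    refine ⟨x0 p hp - b, sub_ne_zero.2 (hx01 p hp b), ?_⟩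
    change x0 p hp - (b : ℚ_[p]) = (((1 : ℚˣ) : ℚ) : ℚ_[p]) * (x0 p hp - b) ^ 1
    simp
  let en : ℕ → ℚ := fun k => (Encodable.decode (α := ℚ) (Nat.unpair k).1).getD 0
  let mu : ℕ → ℕ := fun k => ∏ i ∈ Finset.range (k + 1), (2 * i + 3)
  have hmuodd : ∀ k, Odd (mu k) := by
    intro k
    apply Finset.prod_induction _ Odd (fun a b ha hb => ha.mul hb) odd_one
    intro i _
    exact ⟨i + 1, by ring⟩
  have hmu2 : ∀ k, 2 ≤ mu k := by
    intro k
    have h1 : (2 * 0 + 3) ∣ mu k := Finset.dvd_prod_of_mem (fun i => 2 * i + 3) (by simp)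
    have := Nat.le_of_dvd (hmuodd k).pos h1
    omega
  have hmuE : ∀ n ∈ {n : ℕ | Odd n}, ∃ K, ∀ k ≥ K, n ∣ mu k := by
    rintro n ⟨j, rfl⟩
    refine ⟨j, fun k hk => ?_⟩
    rcases Nat.eq_zero_or_pos j with hj | hj
    · rw [hj]
      simp
    · have h1 : (2 * (j - 1) + 3) ∣ mu k :=
        Finset.dvd_prod_of_mem (fun i => 2 * i + 3) (by simp; omega)
      have h2 : 2 * (j - 1) + 3 = 2 * j + 1 := by omega
      rwa [h2] at h1
  have hen2 : ∀ b ∈ (Set.univ : Set ℚ), ∀ K, ∃ k ≥ K, en k = b := by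
    intro b _ K
    refine ⟨Nat.pair (Encodable.encode b) K, Nat.right_le_pair _ _, ?_⟩
    simp [en]
  set ee : ℕ → ℕ := fun k => eseq (fun _ => 1) en mu k (en k) with hee
  have heodd : ∀ k, Odd (ee k) := fun k => eseq_odd _ _ _ (fun _ => odd_one) hmuodd k _
  have hE : ∀ k, ee k * mu k ∈ {n : ℕ | Odd n} := fun k => (heodd k).mul (hmuodd k)
  apply uncountable (D := Set.univ) (en := en) (ee := ee) (mu := mu) (fun _ => trivial)
    (fun k => (heodd k).pos) hmu2 hE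
  intro L hL
  obtain ⟨c, x, h1, h2, h3, -⟩ := output (D := Set.univ) (E := {n : ℕ | Odd n}) en mu (fun _ => 1)
    hen2 hmuE WB (fun s hs => hs.pts) s0 hs0 rfl L (fun s hs k _ => stepB s hs (en k) (mu k)
      (hmuodd k) (L k))
  have hloc : ∀ (p : ℕ) [Fact p.Prime] (b : (Set.univ : Set ℚ)),
      IsClassOf ℚ_[p] (c b) (x p - ((b : ℚ) : ℚ_[p])) := fun p _ b => (h1 p b).2
  refine ⟨c, x, ⟨?_, ?_⟩, hloc, h3⟩
  · intro p hp
    refine ⟨x p, ?_, fun b => h1 p b⟩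
    intro hpT
    have h4 : p ≤ s0.g := Finset.single_le_sum (f := fun p : ℕ => p) (fun _ _ => Nat.zero_le _) hpT
    rw [h2 p h4]
    exact hx02 p hp hpT
  · rintro (⟨z, hz⟩ | h)
    · obtain ⟨b, hb⟩ : ∃ b : ℚ, b ≠ z := ⟨z + 1, by simp⟩
      exact not_rational hloc (fun k => (heodd k).pos) hmu2 hE hen2 hL h3 ⟨b, trivial⟩ _
        (hz ⟨b, trivial⟩ hb)
    · exact not_all_eq hloc (fun k => (heodd k).pos) hmu2 hE hen2 hL h3 ⟨0, trivial⟩ ⟨1, trivial⟩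
        (by simp) (h _ _)

end Pool.Agent.Q33.EX
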