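import Pool.Agent.Q33.EX.StepA
import Pool.Agent.Q33.EX.ResB

/-!
# Finitely many rational points, all exponents
-/

set_option autoImplicit false

namespace Pool.Agent.Q33.EX

theorem eseq_dvd (e0 : ℚ → ℕ) (en : ℕ → ℚ) (mu : ℕ → ℕ) (h0 : ∀ b, 0 < e0 b)
    (hmu : ∀ k, 0 < mu k) (k : ℕ) : ∀ b, 0 < eseq e0 en mu k b := by
  induction k with
  | zero => exact h0
  | succ k ih =>
    intro b
    rw [eseq]
    by_cases hb : b = en k
    · rw [hb, Function.update_self]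
      exact Nat.mul_pos (ih _) (hmu k)
    · rw [Function.update_of_ne hb]
      exact ih b

theorem partA' {D : Finset ℚ} {z : ℚ} {T : Finset ℕ} {q : ℚ → ℕ} {N0 : ℕ} (hA : HA D z T q N0)
    (hN0 : 1 ≤ N0) (hD : 2 ≤ D.card) :
    ¬ {c : ↥(D : Set ℚ) → Cls {n | 0 < n} |
      (∀ (p : ℕ) [Fact p.Prime], ∃ x : ℚ_[p], (p ∈ T → x = (z : ℚ_[p])) ∧
        LocGeom (D : Set ℚ) c ℚ_[p] x) ∧ LocGeom (D : Set ℚ) c ℝ (z : ℝ) ∧
        ¬ Geom (D : Set ℚ) c}.Countable := by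
  classical
  obtain ⟨a0, ha0, a1, ha1, ha01⟩ := Finset.one_lt_card.1 (by omega : 1 < D.card)
  let s0 : St := ⟨fun _ => N0, fun b => if h : z - b = 0 then 1 else Units.mk0 (z - b) h,
    fun p _ => (z : ℚ_[p]), ∑ p ∈ T, p⟩
  have hX0 : ∀ b ∈ D, (s0.X b : ℚ) = z - b := by
    intro b hb
    have h1 : z - b ≠ 0 := sub_ne_zero.2 (hA.ne b hb).symm
    change ((if h : z - b = 0 then 1 else Units.mk0 (z - b) h : ℚˣ) : ℚ) = z - b
    rw [dif_neg h1, Units.val_mk0]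
  have hs0 : WA D z T N0 s0 := by
    refine ⟨?_, fun _ _ => dvd_rfl, fun _ _ => hN0, ?_, ?_, ?_⟩
    · intro p _ b hb
      refine ⟨1, by simp, ?_⟩
      rw [hX0 b hb]
      change (z : ℚ_[p]) - b = _
      push_cast
      ring
    · intro b hb
      exact ⟨1, one_ne_zero, by rw [hX0 b hb]; ring⟩
    · intro v hv _
      refine ⟨rfl, fun b hb => ⟨1, ?_, ?_⟩⟩
      · rw [sub_self, norm_zero]
        positivity
      · rw [hX0 b hb]
        push_cast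
        ring
    · intro v hv
      exact Finset.single_le_sum (f := fun p : ℕ => p) (fun _ _ => Nat.zero_le _) hv
  let en : ℕ → ℚ := fun k =>
    if (Encodable.decode (α := ℚ) (Nat.unpair k).1).getD a0 ∈ D then
      (Encodable.decode (α := ℚ) (Nat.unpair k).1).getD a0 else a0
  have hen : ∀ k, en k ∈ D := by
    intro k
    simp only [en]
    split_ifs with h
    · exact h
    · exact ha0
  let mu : ℕ → ℕ := fun k => (k + 2).factorial
  have hmu0 : ∀ k, 0 < mu k := fun k => Nat.factorial_pos _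
  have hmu2 : ∀ k, 2 ≤ mu k := fun k => (by omega : 2 ≤ k + 2).trans (Nat.self_le_factorial _)
  have hmuE : ∀ n ∈ {n : ℕ | 0 < n}, ∃ K, ∀ k ≥ K, n ∣ mu k := by
    intro n hn
    exact ⟨n, fun k hk => Nat.dvd_factorial hn (by omega)⟩
  have hen2 : ∀ b ∈ (D : Set ℚ), ∀ K, ∃ k ≥ K, en k = b := by
    intro b hb K
    refine ⟨Nat.pair (Encodable.encode b) K, Nat.right_le_pair _ _, ?_⟩
    have h1 : b ∈ D := hb
    simp [en, h1]
  set ee : ℕ → ℕ := fun k => eseq (fun _ => N0) en mu k (en k) with hee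
  have heepos : ∀ k, 1 ≤ ee k := fun k => eseq_dvd _ _ _ (fun _ => hN0) hmu0 k _
  have hE : ∀ k, ee k * mu k ∈ {n : ℕ | 0 < n} := fun k => Nat.mul_pos (heepos k) (hmu0 k)
  apply uncountable (D := (D : Set ℚ)) (en := en) (ee := ee) (mu := mu) (fun k => hen k)
    heepos hmu2 hE
  intro L hL
  obtain ⟨c, x, h1, h2, h3, h4⟩ := output (D := (D : Set ℚ)) (E := {n : ℕ | 0 < n}) en mu
    (fun _ => N0) hen2 hmuE (WA D z T N0) (fun s hs p _ b hb => by
      obtain ⟨r, hr1, hr2⟩ := hs.pts p b hb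
      exact ⟨r, norm_ne_zero_iff.1 (by rw [hr1]; exact one_ne_zero), hr2⟩) s0 hs0 rfl L
    (fun s hs k _ => stepA hA s hs (en k) (hen k) (mu k) (hmu0 k) (L k))
  have hloc : ∀ (p : ℕ) [Fact p.Prime] (b : (D : Set ℚ)),
      IsClassOf ℚ_[p] (c b) (x p - ((b : ℚ) : ℚ_[p])) := fun p _ b => (h1 p b).2
  refine ⟨c, x, ⟨?_, ?_, ?_⟩, hloc, h3⟩
  · intro p hp
    refine ⟨x p, ?_, fun b => h1 p b⟩
    intro hpT
    have h4 : p ≤ s0.g := Finset.single_le_sum (f := fun p : ℕ => p) (fun _ _ => Nat.zero_le _) hpT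
    rw [h2 p h4]
  · intro b
    have hbD : (b : ℚ) ∈ D := b.2
    constructor
    · exact_mod_cast (hA.ne b hbD).symm
    · intro n
      obtain ⟨s, hs, hn⟩ := h4 b n
      obtain ⟨Y, hY0, hY⟩ := hs.sq b hbD
      have hYR : (0 : ℝ) < ((Y : ℝ) ^ 2)⁻¹ := by
        have : (Y : ℝ) ≠ 0 := by exact_mod_cast hY0
        positivity
      have hn0 : (n : ℕ) ≠ 0 := (show 0 < (n : ℕ) from n.2).ne'
      refine ⟨s.X b, (((Y : ℝ) ^ 2)⁻¹) ^ (((n : ℕ) : ℝ)⁻¹), hn, ?_, ?_⟩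
      · exact (Real.rpow_pos_of_pos hYR _).ne'
      · rw [Real.rpow_inv_natCast_pow hYR.le hn0, hY]
        have : (Y : ℝ) ≠ 0 := by exact_mod_cast hY0
        push_cast
        field_simp
  · rintro (⟨w, hw⟩ | h)
    · obtain ⟨b, hb, hbw⟩ : ∃ b ∈ D, b ≠ w := by
        by_cases h : a0 = w
        · exact ⟨a1, ha1, fun h2 => ha01 (h.trans h2.symm)⟩
        · exact ⟨a0, ha0, h⟩
      exact not_rational hloc heepos hmu2 hE hen2 hL h3 ⟨b, hb⟩ _ (hw ⟨b, hb⟩ hbw)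
    · exact not_all_eq hloc heepos hmu2 hE hen2 hL h3 ⟨a0, ha0⟩ ⟨a1, ha1⟩ ha01 (h _ _)

end Pool.Agent.Q33.EX
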