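import Pool.Agent.Q33.EX.Prep
import Pool.Agent.Q33.EX.Rec

/-!
# The step for odd exponents and all rational points
-/

set_option autoImplicit false

namespace Pool.Agent.Q33.EX

theorem norm_two_eq_one {v : ℕ} [hv : Fact v.Prime] (h : v ≠ 2) : ‖(2 : ℚ_[v])‖ = 1 := by
  have h1 : ‖((2 : ℕ) : ℚ_[v])‖ = 1 :=
    Padic.norm_natCast_eq_one_iff.2 ((Nat.coprime_primes hv.out Nat.prime_two).2 h)
  exact_mod_cast h1

/-- decomposition of a unit as a product of two units, not congruent to one -/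
theorem two_units {v : ℕ} [hv : Fact v.Prime] (t : ℚ_[v]) (ht : ‖t‖ = 1)
    (h3 : v = 3 → ‖t - 1‖ < 1) : ∃ t1 t2 : ℚ_[v], ‖t1‖ = 1 ∧ ‖t2‖ = 1 ∧ t1 * t2 = t ∧
      (v ≠ 2 → ¬ ‖t1 - 1‖ < 1 ∧ ¬ ‖t2 - 1‖ < 1) := by
  by_cases hv2 : v = 2
  · exact ⟨t, 1, ht, by simp, by simp, fun h => absurd hv2 h⟩
  · have h2 := norm_two_eq_one hv2
    by_cases h4 : ‖t + 1‖ < 1
    · have hv3 : v ≠ 3 := by
        intro h5
        have h6 := h3 h5
        have h7 : (2 : ℚ_[v]) = (t + 1) + -(t - 1) := by ring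
        rw [h7] at h2
        have h8 := Padic.nonarchimedean (t + 1) (-(t - 1))
        rw [h2, norm_neg] at h8
        exact absurd (h8.trans_lt (max_lt h4 h6)) (lt_irrefl _)
      have h5 : ‖(3 : ℚ_[v])‖ = 1 := by
        have h1 : ‖((3 : ℕ) : ℚ_[v])‖ = 1 :=
          Padic.norm_natCast_eq_one_iff.2 ((Nat.coprime_primes hv.out Nat.prime_three).2 hv3)
        exact_mod_cast h1
      refine ⟨2, t / 2, h2, by rw [norm_div, ht, h2, div_one], ?_, fun _ => ⟨?_, ?_⟩⟩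
      · have : (2 : ℚ_[v]) ≠ 0 := two_ne_zero
        field_simp
      · have : (2 : ℚ_[v]) - 1 = 1 := by norm_num
        rw [this]
        simp
      · intro h6
        have h7 : t / 2 - 1 = (t - 2) / 2 := by
          have : (2 : ℚ_[v]) ≠ 0 := two_ne_zero
          field_simp
        rw [h7, norm_div, h2, div_one] at h6
        have h8 : (3 : ℚ_[v]) = (t + 1) + -(t - 2) := by ring
        rw [h8] at h5
        have h9 := Padic.nonarchimedean (t + 1) (-(t - 2))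
        rw [h5, norm_neg] at h9
        exact absurd (h9.trans_lt (max_lt h4 h6)) (lt_irrefl _)
    · refine ⟨-1, -t, by simp, by rw [norm_neg, ht], by ring, fun _ => ⟨?_, ?_⟩⟩
      · have : (-1 : ℚ_[v]) - 1 = -2 := by norm_num
        rw [this, norm_neg, h2]
        exact lt_irrefl _
      · have : -t - 1 = -(t + 1) := by ring
        rw [this, norm_neg]
        exact h4

theorem zmod_three : ∀ z : ZMod 3, z ≠ 0 → z - 1 = 0 ∨ -z - 1 = 0 := by decide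

theorem unit_three {v : ℕ} [hv : Fact v.Prime] (h3 : v = 3) (t : ℚ_[v]) (ht : ‖t‖ = 1) :
    ‖t - 1‖ < 1 ∨ ‖-t - 1‖ < 1 := by
  subst h3
  obtain ⟨Z, hZ⟩ : ∃ Z : ℤ_[3], (Z : ℚ_[3]) = t := ⟨⟨t, ht.le⟩, rfl⟩
  have h1 : PadicInt.toZMod Z ≠ 0 := by
    rw [Ne, toZMod_eq_zero_iff]
    have : ‖Z‖ = 1 := by
      rw [← ht, ← hZ]
      rfl
    rw [this]
    exact lt_irrefl _
  rcases zmod_three _ h1 with h | h
  · left
    have h3 : PadicInt.toZMod (Z - 1) = 0 := by rw [map_sub, map_one, h]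
    rw [toZMod_eq_zero_iff] at h3
    have h4 : ‖Z - 1‖ = ‖t - 1‖ := by rw [← hZ]; rfl
    rwa [h4] at h3
  · right
    have h3 : PadicInt.toZMod (-Z - 1) = 0 := by rw [map_sub, map_one, map_neg, h]
    rw [toZMod_eq_zero_iff] at h3
    have h4 : ‖-Z - 1‖ = ‖-t - 1‖ := by rw [← hZ]; rfl
    rwa [h4] at h3

theorem prod_norm (S : Finset ℕ) (hS : ∀ w ∈ S, w.Prime) (k : ℕ → ℤ) (v : ℕ) [hv : Fact v.Prime] :
    ‖((∏ w ∈ S, (w : ℚ) ^ k w : ℚ) : ℚ_[v])‖ = if v ∈ S then (v : ℝ) ^ (-k v) else 1 := by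
  classical
  have h1 : ∀ w ∈ S, w ≠ v → ‖((w : ℚ_[v])) ^ k w‖ = 1 := by
    intro w hw hwv
    have h2 : ‖(w : ℚ_[v])‖ = 1 := by
      rw [Padic.norm_natCast_eq_one_iff]
      exact (Nat.coprime_primes hv.out (hS w hw)).2 hwv.symm
    rw [norm_zpow, h2, one_zpow]
  push_cast
  rw [norm_prod]
  split_ifs with h
  · rw [← Finset.mul_prod_erase S _ h, Finset.prod_eq_one, mul_one, norm_zpow, Padic.norm_p,
      inv_zpow', ]
    intro w hw
    exact h1 w (Finset.mem_of_mem_erase hw) (Finset.ne_of_mem_erase hw)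
  · apply Finset.prod_eq_one
    intro w hw
    exact h1 w hw (fun h2 => h (h2 ▸ hw))

/-- the invariant -/
structure WB (s : St) : Prop where
  irr : ∀ (p : ℕ) [Fact p.Prime] (b : ℚ), s.x p ≠ (b : ℚ_[p])
  pts : s.Pts Set.univ
  fin : ∃ A : Finset ℚ, ∀ b ∉ A, s.e b = 1 ∧ s.X b = 1
  odd : ∀ b, Odd (s.e b)


/-- the coprimality -/
theorem coprime_of_odd (Q C e p : ℕ) (hQC : Q ≤ C) (he : e ∣ Q) (hQ0 : 1 ≤ Q) (hodd : Odd e) (hp : p.Prime)
    (h : ∀ (l : ℕ) [Fact l.Prime], l ≤ C → l ≠ 2 → ¬ ‖(p : ℚ_[l]) - 1‖ < 1) :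
    Nat.gcd e (p - 1) = 1 := by
  by_contra hne
  obtain ⟨l, hl, hl1⟩ := Nat.exists_prime_and_dvd hne
  have hle : l ∣ e := hl1.trans (Nat.gcd_dvd_left _ _)
  have hlp : l ∣ p - 1 := hl1.trans (Nat.gcd_dvd_right _ _)
  have hl2 : l ≠ 2 := by
    rintro rfl
    exact (Nat.not_even_iff_odd.2 hodd) (even_iff_two_dvd.2 hle)
  have hfl : Fact l.Prime := ⟨hl⟩
  apply h l ((Nat.le_of_dvd hQ0 (hle.trans he)).trans hQC) hl2
  have h1 := (Padic.norm_natCast_lt_one_iff (p := l) (n := p - 1)).2 hlp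
  rwa [Nat.cast_sub hp.one_le, Nat.cast_one] at h1

theorem stepB (s : St) (hs : WB s) (a : ℚ) (m : ℕ) (hm : Odd m) (L : ℕ) :
    ∃ s', WB s' ∧ Step L a m s s' := by
  classical
  obtain ⟨A, hA⟩ := hs.fin
  have hU : ∀ (p : ℕ) [Fact p.Prime], ∃ r : ℚ_[p], r ≠ 0 ∧
    s.x p - (a : ℚ_[p]) = ((s.X a : ℚ) : ℚ_[p]) * r ^ s.e a := fun p _ => hs.pts p a trivial
  choose U hU0 hU using hU
  set N := s.e a with hN
  have hNodd : Odd N := hs.odd a
  have hN1 : 1 ≤ N := hNodd.pos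
  have hm1 : 1 ≤ m := hm.pos
  set e' := Function.update s.e a (N * m) with he'
  have he'a : e' a = N * m := Function.update_self _ _ _
  have he'ne : ∀ b, b ≠ a → e' b = s.e b := fun b hb => Function.update_of_ne hb _ _
  have he'odd : ∀ b, Odd (e' b) := by
    intro b
    by_cases hb : b = a
    · rw [hb, he'a]
      exact hNodd.mul hm
    · rw [he'ne b hb]
      exact hs.odd b
  set A0 := insert a A with hA0
  set Q := ∏ b ∈ A0, e' b with hQ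
  have hQ1 : 1 ≤ Q := Finset.prod_pos fun b _ => (he'odd b).pos
  have hdvdQ : ∀ b ∈ A0, e' b ∣ Q := fun b hb => Finset.dvd_prod_of_mem _ hb
  obtain ⟨K, hK⟩ := good_point A0 Q hQ1
  set C := K + L + s.g + Q + ∑ b ∈ A0, rb (s.X b) + ∑ b ∈ A0, rb (a - b) + 3 with hC
  have hCX : ∀ b ∈ A0, rb (s.X b) ≤ C := by
    intro b hb
    have := Finset.single_le_sum (f := fun b => rb (s.X b : ℚ)) (fun _ _ => Nat.zero_le _) hb
    omega
  have hCa : ∀ b ∈ A0, rb (a - b) ≤ C := by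
    intro b hb
    have := Finset.single_le_sum (f := fun b => rb (a - b)) (fun _ _ => Nat.zero_le _) hb
    omega
  set S := (Finset.range (C + 1)).filter Nat.Prime with hS
  have hSp : ∀ v ∈ S, v.Prime := fun v hv => (Finset.mem_filter.1 hv).2
  have hSmem : ∀ (v : ℕ) [Fact v.Prime], v ∈ S ↔ v ≤ C := by
    intro v hv
    rw [hS, Finset.mem_filter, Finset.mem_range]
    exact ⟨fun h => by omega, fun h => ⟨by omega, hv.out⟩⟩
  -- the part at the old places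
  let kk : ℕ → ℤ := fun v => if hv : v.Prime then
    (have : Fact v.Prime := ⟨hv⟩; (U v).valuation) else 0
  have hkk : ∀ (v : ℕ) [hv : Fact v.Prime], ‖U v‖ = (v : ℝ) ^ (-kk v) := by
    intro v hv
    have h1 : kk v = (U v).valuation := by simp [kk, hv.out]
    rw [h1]
    exact Padic.norm_eq_zpow_neg_valuation (hU0 v)
  set P : ℚ := ∏ w ∈ S, (w : ℚ) ^ kk w with hP
  have hP0 : P ≠ 0 := Finset.prod_ne_zero_iff.2 fun w hw =>
    zpow_ne_zero _ (by exact_mod_cast (hSp w hw).ne_zero)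
  have hPn := prod_norm S hSp kk
  have hPn1 : ∀ (v : ℕ) [Fact v.Prime], v ∈ S → ‖(P : ℚ_[v])‖ = (v : ℝ) ^ (-kk v) := by
    intro v _ hv
    rw [hP, hPn v, if_pos hv]
  have hPn2 : ∀ (v : ℕ) [Fact v.Prime], v ∉ S → ‖(P : ℚ_[v])‖ = 1 := by
    intro v _ hv
    rw [hP, hPn v, if_neg hv]
  have ht : ∀ (v : ℕ) [Fact v.Prime], v ∈ S → ‖U v / (P : ℚ_[v])‖ = 1 := by
    intro v hv hvS
    rw [norm_div, hkk v, hPn1 v hvS, div_self]
    exact zpow_ne_zero _ (by exact_mod_cast hv.out.ne_zero)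
  -- the sign
  obtain ⟨ε, hε, hε3⟩ : ∃ ε : ℚ, (ε = 1 ∨ ε = -1) ∧ ∀ (v : ℕ) [Fact v.Prime], v = 3 →
      ‖(ε : ℚ_[v]) * (U v / (P : ℚ_[v])) - 1‖ < 1 := by
    have h3 : Fact (Nat.Prime 3) := ⟨Nat.prime_three⟩
    have h3S : 3 ∈ S := (hSmem 3).2 (by omega)
    rcases unit_three (v := 3) rfl _ (ht 3 h3S) with h | h
    · refine ⟨1, Or.inl rfl, ?_⟩
      intro v hv hv3
      subst hv3
      simpa using h
    · refine ⟨-1, Or.inr rfl, ?_⟩
      intro v hv hv3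
      subst hv3
      simpa using h
  have hε2 : ∀ (v : ℕ) [Fact v.Prime], ‖(ε : ℚ_[v])‖ = 1 := by
    intro v _
    rcases hε with h | h <;> simp [h]
  have hε0 : ε ≠ 0 := by rcases hε with h | h <;> simp [h]
  have hεε : ε * ε = 1 := by rcases hε with h | h <;> simp [h]
  -- the primes
  let G : (v : ℕ) → [Fact v.Prime] → ℕ → ℕ → Prop := fun v _ m1 m2 =>
    (∃ r : ℚ_[v], ‖r‖ = 1 ∧ (ε : ℚ_[v]) * (U v / (P : ℚ_[v])) = (m1 : ℚ_[v]) * m2 * r ^ m) ∧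
      (v ≠ 2 → ¬ ‖(m1 : ℚ_[v]) - 1‖ < 1 ∧ ¬ ‖(m2 : ℚ_[v]) - 1‖ < 1)
  have hG : ∀ (v : ℕ) [Fact v.Prime], v ∈ S → ∃ (U1 U2 : ℚ_[v]) (B : ℕ), ‖U1‖ = 1 ∧ ‖U2‖ = 1 ∧
      ∀ m1 m2 : ℕ, ‖(m1 : ℚ_[v]) - U1‖ ≤ (v : ℝ) ^ (-(B : ℤ)) →
        ‖(m2 : ℚ_[v]) - U2‖ ≤ (v : ℝ) ^ (-(B : ℤ)) → G v m1 m2 := by
    intro v hv hvS
    have hv1 : (1 : ℝ) < v := by exact_mod_cast hv.out.one_lt
    have hT : ‖(ε : ℚ_[v]) * (U v / (P : ℚ_[v]))‖ = 1 := by rw [norm_mul, hε2, ht v hvS, one_mul]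
    obtain ⟨t1, t2, ht1, ht2, ht12, ht3⟩ := two_units ((ε : ℚ_[v]) * (U v / (P : ℚ_[v]))) hT
      (fun h => hε3 v h)
    obtain ⟨B, hB⟩ := pow_near_one (p := v) m hm1
    refine ⟨t1, t2, B + 1, ht1, ht2, ?_⟩
    intro m1 m2 h1 h2
    have hlt : (v : ℝ) ^ (-((B + 1 : ℕ) : ℤ)) < 1 := zpow_lt_one_of_neg₀ hv1 (by push_cast; omega)
    have hm1n : ‖(m1 : ℚ_[v])‖ = 1 := norm_eq_one_of_sub_lt ht1 (h1.trans_lt hlt)
    have hm2n : ‖(m2 : ℚ_[v])‖ = 1 := norm_eq_one_of_sub_lt ht2 (h2.trans_lt hlt)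
    have hm10 : (m1 : ℚ_[v]) ≠ 0 := norm_ne_zero_iff.1 (by rw [hm1n]; exact one_ne_zero)
    have hm20 : (m2 : ℚ_[v]) ≠ 0 := norm_ne_zero_iff.1 (by rw [hm2n]; exact one_ne_zero)
    constructor
    · set T := (ε : ℚ_[v]) * (U v / (P : ℚ_[v])) with hTdef
      have h3 : ‖T / ((m1 : ℚ_[v]) * m2) - 1‖ ≤ (v : ℝ) ^ (-(B : ℤ)) := by
        have h4 : T / ((m1 : ℚ_[v]) * m2) - 1 =
            (-(((m1 : ℚ_[v]) - t1) * m2) + -(t1 * ((m2 : ℚ_[v]) - t2))) / ((m1 : ℚ_[v]) * m2) := by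
          rw [← ht12]
          field_simp
          ring
        rw [h4, norm_div, norm_mul, hm1n, hm2n, one_mul, div_one]
        refine (Padic.nonarchimedean _ _).trans (max_le ?_ ?_)
        · rw [norm_neg, norm_mul, hm2n, mul_one]
          refine h1.trans (zpow_le_zpow_right₀ hv1.le (by push_cast; omega))
        · rw [norm_neg, norm_mul, ht1, one_mul]
          refine h2.trans (zpow_le_zpow_right₀ hv1.le (by push_cast; omega))
      obtain ⟨r, hr1, hr2, -⟩ := hB _ h3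
      refine ⟨r, hr1, ?_⟩
      rw [← hr2]
      field_simp
    · intro hv2
      obtain ⟨h5, h6⟩ := ht3 hv2
      constructor
      · intro h7
        apply h5
        have h8 : t1 - 1 = -((m1 : ℚ_[v]) - t1) + ((m1 : ℚ_[v]) - 1) := by ring
        rw [h8]
        refine (Padic.nonarchimedean _ _).trans_lt (max_lt ?_ h7)
        rw [norm_neg]
        exact h1.trans_lt hlt
      · intro h7
        apply h6
        have h8 : t2 - 1 = -((m2 : ℚ_[v]) - t2) + ((m2 : ℚ_[v]) - 1) := by ring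
        rw [h8]
        refine (Padic.nonarchimedean _ _).trans_lt (max_lt ?_ h7)
        rw [norm_neg]
        exact h2.trans_lt hlt
  obtain ⟨p1, hp1, hp1C, hp1G⟩ := exists_prime_good S hSp
    (fun v _ m1 => ∃ (U2 : ℚ_[v]) (B : ℕ), ‖U2‖ = 1 ∧
      ∀ m2 : ℕ, ‖(m2 : ℚ_[v]) - U2‖ ≤ (v : ℝ) ^ (-(B : ℤ)) → G v m1 m2) (by
      intro v hv hvS
      obtain ⟨U1, U2, B, h1, h2, h3⟩ := hG v hvS
      exact ⟨U1, B, h1, fun m1 hm1 => ⟨U2, B, h2, fun m2 hm2 => h3 m1 m2 hm1 hm2⟩⟩) C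
  obtain ⟨p2, hp2, hp2C, hp2G⟩ := exists_prime_good S hSp (fun v _ m2 => G v p1 m2) (by
      intro v hv hvS
      exact hp1G v hvS) p1
  have hp1f : Fact p1.Prime := ⟨hp1⟩
  have hp2f : Fact p2.Prime := ⟨hp2⟩
  have hp12 : p1 ≠ p2 := hp2C.ne
  -- the new number
  set π : ℚ := ε * P * p1 * p2 with hπ
  have hp10 : (p1 : ℚ) ≠ 0 := by exact_mod_cast hp1.ne_zero
  have hp20 : (p2 : ℚ) ≠ 0 := by exact_mod_cast hp2.ne_zero
  have hπ0 : π ≠ 0 := mul_ne_zero (mul_ne_zero (mul_ne_zero hε0 hP0) hp10) hp20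
  set X' := Function.update s.X a (s.X a * (Units.mk0 π hπ0) ^ N) with hX'
  have hX'a : X' a = s.X a * (Units.mk0 π hπ0) ^ N := Function.update_self _ _ _
  have hX'ne : ∀ b, b ≠ a → X' b = s.X b := fun b hb => Function.update_of_ne hb _ _
  have hX'aq : ∀ (v : ℕ) [Fact v.Prime], ((X' a : ℚ) : ℚ_[v]) = ((s.X a : ℚ) : ℚ_[v]) * (π : ℚ_[v]) ^ N := by
    intro v _
    rw [hX'a]
    push_cast
    rw [Units.val_mk0]
  have hπv : ∀ (v : ℕ) [Fact v.Prime], (π : ℚ_[v]) = (ε : ℚ_[v]) * P * p1 * p2 := by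
    intro v _
    rw [hπ]
    push_cast
    rfl
  have hold : ∀ (v : ℕ) [Fact v.Prime], v ≤ C → ∃ r : ℚ_[v], r ≠ 0 ∧
      s.x v - (a : ℚ_[v]) = ((X' a : ℚ) : ℚ_[v]) * r ^ (N * m) := by
    intro v hv hvC
    obtain ⟨⟨r, hr1, hr2⟩, -⟩ := hp2G v ((hSmem v).2 hvC)
    refine ⟨r, norm_ne_zero_iff.1 (by rw [hr1]; exact one_ne_zero), ?_⟩
    have hPv : (P : ℚ_[v]) ≠ 0 := by exact_mod_cast hP0
    have h1 : U v = (π : ℚ_[v]) * r ^ m := by
      have h2 : (ε : ℚ_[v]) * ε = 1 := by exact_mod_cast hεε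
      have h3 : U v = (ε : ℚ_[v]) * P * ((ε : ℚ_[v]) * (U v / P)) := by
        have : (ε : ℚ_[v]) * P * ((ε : ℚ_[v]) * (U v / P)) = ((ε : ℚ_[v]) * ε) * U v := by
          field_simp
        rw [this, h2, one_mul]
      rw [h3, hr2, hπv]
      ring
    rw [hU v, hX'aq, h1, mul_pow, ← pow_mul, mul_comm m N]
    ring
  have hXn : ∀ (v : ℕ) [Fact v.Prime], C < v → ∀ b ∈ A0, ‖((s.X b : ℚ) : ℚ_[v])‖ = 1 := by
    intro v hv hvC b hb
    exact norm_rat_eq_one (s.X b).ne_zero ((hCX b hb).trans_lt hvC)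
  have haA0 : a ∈ A0 := Finset.mem_insert_self _ _
  have hout : ∀ b ∉ A0, e' b = 1 ∧ X' b = 1 := by
    intro b hb
    have hba : b ≠ a := fun h => hb (h ▸ haA0)
    have hbA : b ∉ A := fun h => hb (Finset.mem_insert_of_mem h)
    rw [he'ne b hba, hX'ne b hba]
    exact hA b hbA
  -- the point at a new prime
  have hnew : ∀ (p : ℕ) [Fact p.Prime], C < p →
      (∀ (l : ℕ) [Fact l.Prime], l ≤ C → l ≠ 2 → ¬ ‖(p : ℚ_[l]) - 1‖ < 1) →
      ‖((X' a : ℚ) : ℚ_[p])‖ = (p : ℝ) ^ (-(N : ℤ)) →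
      ∃ x' : ℚ_[p], (∀ b : ℚ, x' ≠ b) ∧ (∀ b : ℚ, ∃ r : ℚ_[p], r ≠ 0 ∧
        x' - (b : ℚ_[p]) = ((X' b : ℚ) : ℚ_[p]) * r ^ e' b) ∧
        ‖x' - (a : ℚ_[p])‖ = (p : ℝ) ^ (-(N : ℤ)) := by
    intro p hp hpC hpl hXa
    have hpR : (1 : ℝ) < p := by exact_mod_cast hp.out.one_lt
    have hpQ : ∀ b ∈ A0, ¬ p ∣ e' b := by
      intro b hb h
      have := Nat.le_of_dvd hQ1 (h.trans (hdvdQ b hb))
      omega
    obtain ⟨x', hx1, ⟨r, hr1, hr2⟩, hx3⟩ := new_point (p := p) A0 a e' (fun b => (X' b : ℚ)) (e' a)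
      (hpQ a haA0) (X' a : ℚ) (X' a).ne_zero (by
        rw [hXa]
        exact zpow_lt_one_of_neg₀ hpR (by omega)) (by
        intro b hb hba
        have h1 : ‖((X' b : ℚ) : ℚ_[p])‖ = 1 := by
          rw [hX'ne b hba]
          exact hXn p hpC b hb
        refine ⟨hpQ b hb, h1, ?_⟩
        have h2 : Nat.gcd (e' b) (p - 1) = 1 := coprime_of_odd Q C (e' b) p (by omega)
          (hdvdQ b hb) hQ1 (he'odd b) hp.out hpl
        obtain ⟨j, i, hji⟩ := nat_bezout (e' b) (p - 1) (he'odd b).pos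
          (by have := hp.out.two_le; omega)
        rw [h2] at hji
        have h3 : ‖(a : ℚ_[p]) - b‖ = 1 := by
          have := norm_rat_eq_one (p := p) (q := a - b) (sub_ne_zero.2 hba.symm)
            ((hCa b hb).trans_lt hpC)
          push_cast at this
          exact this
        have hX0 : ((X' b : ℚ) : ℚ_[p]) ≠ 0 :=
          norm_ne_zero_iff.1 (by rw [h1]; exact one_ne_zero)
        obtain ⟨u, hu1, hu2⟩ := unit_pow (e' b) j 1 i hji (((a : ℚ_[p]) - b) / ((X' b : ℚ) : ℚ_[p]))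
          (((a : ℚ_[p]) - b) / ((X' b : ℚ) : ℚ_[p])) (by rw [norm_div, h3, h1, div_one]) (by simp)
        refine ⟨u, hu1, ?_⟩
        have h4 : ((a : ℚ_[p]) - b) - ((X' b : ℚ) : ℚ_[p]) * u ^ e' b =
            ((X' b : ℚ) : ℚ_[p]) * (((a : ℚ_[p]) - b) / ((X' b : ℚ) : ℚ_[p]) - u ^ e' b) := by
          field_simp
        rw [h4, norm_mul, h1, one_mul]
        exact hu2)
    refine ⟨x', hx1, ?_, ?_⟩
    · intro b
      by_cases hba : b = a
      · rw [hba]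
        exact ⟨r, norm_ne_zero_iff.1 (by rw [hr1]; exact one_ne_zero), hr2⟩
      · by_cases hb : b ∈ A0
        · obtain ⟨r, hr1, hr2⟩ := hx3 b hb hba
          exact ⟨r, norm_ne_zero_iff.1 (by rw [hr1]; exact one_ne_zero), hr2⟩
        · obtain ⟨h1, h2⟩ := hout b hb
          refine ⟨x' - b, sub_ne_zero.2 (hx1 b), ?_⟩
          rw [h1, h2]
          simp
    · rw [hr2, norm_mul, norm_pow, hr1, one_pow, mul_one, hXa]
  have hXa1 : ‖((X' a : ℚ) : ℚ_[p1])‖ = (p1 : ℝ) ^ (-(N : ℤ)) := by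
    rw [hX'aq, norm_mul, hXn p1 hp1C a haA0, one_mul, norm_pow, hπv, norm_mul, norm_mul, norm_mul,
      hε2, hPn2 p1 (fun h => absurd ((hSmem p1).1 h) (not_le.2 hp1C)), Padic.norm_p, one_mul, one_mul]
    have h1 : ‖(p2 : ℚ_[p1])‖ = 1 :=
      Padic.norm_natCast_eq_one_iff.2 ((Nat.coprime_primes hp1 hp2).2 hp12)
    rw [h1, mul_one, inv_pow, zpow_neg, zpow_natCast]
  have hXa2 : ‖((X' a : ℚ) : ℚ_[p2])‖ = (p2 : ℝ) ^ (-(N : ℤ)) := by
    rw [hX'aq, norm_mul, hXn p2 (hp1C.trans hp2C) a haA0, one_mul, norm_pow, hπv, norm_mul,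
      norm_mul, norm_mul, hε2,
      hPn2 p2 (fun h => absurd ((hSmem p2).1 h) (not_le.2 (hp1C.trans hp2C))), one_mul, one_mul]
    have h1 : ‖(p1 : ℚ_[p2])‖ = 1 :=
      Padic.norm_natCast_eq_one_iff.2 ((Nat.coprime_primes hp2 hp1).2 hp12.symm)
    rw [h1, one_mul, Padic.norm_p, inv_pow, zpow_neg, zpow_natCast]
  have hx' : ∀ p : ℕ, ∀ hp : Fact p.Prime, ∃ x' : ℚ_[p], (∀ b : ℚ, x' ≠ b) ∧
      (∀ b : ℚ, ∃ r : ℚ_[p], r ≠ 0 ∧
        x' - (b : ℚ_[p]) = ((X' b : ℚ) : ℚ_[p]) * r ^ e' b) ∧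
      (p ≤ C → x' = s.x p) ∧ (p = p1 → ‖x' - (a : ℚ_[p])‖ = (p : ℝ) ^ (-(N : ℤ))) := by
    intro p hp
    by_cases hpC : p ≤ C
    · refine ⟨s.x p, hs.irr p, ?_, fun _ => rfl, fun h => absurd hpC (not_le.2 (h ▸ hp1C))⟩
      intro b
      by_cases hba : b = a
      · rw [hba, he'a]
        exact hold p hpC
      · rw [he'ne b hba, hX'ne b hba]
        exact hs.pts p b trivial
    · push Not at hpC
      by_cases h1 : p = p1
      · subst h1
        obtain ⟨x', h2, h3, h4⟩ := hnew p hpC (fun l hl hlC hl2 =>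
          ((hp2G l ((hSmem l).2 hlC)).2 hl2).1) hXa1
        exact ⟨x', h2, h3, fun h => absurd h (not_le.2 hpC), fun _ => h4⟩
      · by_cases h2 : p = p2
        · subst h2
          obtain ⟨x', h3, h4, h5⟩ := hnew p hpC (fun l hl hlC hl2 =>
            ((hp2G l ((hSmem l).2 hlC)).2 hl2).2) hXa2
          exact ⟨x', h3, h4, fun h => absurd h (not_le.2 hpC), fun h => absurd h h1⟩
        · have hXb : ∀ b ∈ A0, ‖((X' b : ℚ) : ℚ_[p])‖ = 1 := by
            intro b hb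
            by_cases hba : b = a
            · rw [hba, hX'aq, norm_mul, hXn p hpC a haA0, one_mul, norm_pow, hπv, norm_mul,
                norm_mul, norm_mul, hε2, hPn2 p (fun h => absurd ((hSmem p).1 h) (not_le.2 hpC)),
                Padic.norm_natCast_eq_one_iff.2 ((Nat.coprime_primes hp.out hp1).2 h1),
                Padic.norm_natCast_eq_one_iff.2 ((Nat.coprime_primes hp.out hp2).2 h2)]
              simp
            · rw [hX'ne b hba]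
              exact hXn p hpC b hb
          obtain ⟨x', h3, h4⟩ := hK p (by omega) (fun b => (X' b : ℚ)) hXb
          refine ⟨x', h3, ?_, fun h => absurd h (not_le.2 hpC), fun h => absurd h h1⟩
          intro b
          by_cases hb : b ∈ A0
          · obtain ⟨r, hr1, hr2⟩ := h4 b hb
            obtain ⟨d, hd⟩ := hdvdQ b hb
            refine ⟨r ^ d, pow_ne_zero _ (norm_ne_zero_iff.1 (by rw [hr1]; exact one_ne_zero)), ?_⟩
            rw [hr2, ← pow_mul, hd, mul_comm d]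
          · obtain ⟨h5, h6⟩ := hout b hb
            refine ⟨x' - b, sub_ne_zero.2 (h3 b), ?_⟩
            rw [h5, h6]
            simp
  choose x' hx'1 hx'2 hx'3 hx'4 using hx'
  refine ⟨⟨e', X', fun p hp => x' p hp, p2⟩, ⟨?_, ?_, ⟨A0, hout⟩, he'odd⟩, ?_⟩
  · intro p hp b
    exact hx'1 p hp b
  · intro p hp b _
    exact hx'2 p hp b
  · refine ⟨he'a, he'ne, ⟨Units.mk0 π hπ0, hX'a⟩, hX'ne, ?_, ?_, ?_⟩
    · change s.g < p2
      omega
    · intro p hp hpg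
      exact hx'3 p hp (by omega)
    · exact ⟨p1, hp1f, by omega, hp2C.le, hx'4 p1 hp1f rfl⟩

end Pool.Agent.Q33.EX
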