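import Pool.Agent.Q33.EX.Sym
import Pool.Agent.Q33.EX.StepB

/-!
# The step for all exponents and finitely many rational points
-/

set_option autoImplicit false

namespace Pool.Agent.Q33.EX

/-- the data -/
structure HA (D : Finset ℚ) (z : ℚ) (T : Finset ℕ) (q : ℚ → ℕ) (N0 : ℕ) : Prop where
  prT : ∀ v ∈ T, v.Prime
  twoT : 2 ∈ T
  ne : ∀ b ∈ D, b ≠ z
  qT : ∀ b ∈ D, q b ∈ T
  q4 : ∀ b ∈ D, q b % 4 = 3
  q5 : ∀ b ∈ D, 5 ≤ q b
  qinj : ∀ b ∈ D, ∀ b' ∈ D, b ≠ b' → q b ≠ q b'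
  qN : ∀ b ∈ D, (q b - 1) ∣ N0
  even : Even N0
  supp : ∀ a ∈ D, ∀ b ∈ D, a ≠ b → ∀ (l : ℕ) [Fact l.Prime], l ∉ T →
    ‖(((a - b) * (z - b) : ℚ) : ℚ_[l])‖ = 1
  val : ∀ a ∈ D, ∀ b ∈ D, a ≠ b → ∀ [Fact (q b).Prime],
    ‖(((a - b) * (z - b) : ℚ) : ℚ_[q b])‖ = ((q b : ℕ) : ℝ)⁻¹
  unit : ∀ a ∈ D, ∀ b ∈ D, a ≠ b → ∀ b' ∈ D, b' ≠ b → ∀ [Fact (q b').Prime],
    ‖(((a - b) * (z - b) : ℚ) : ℚ_[q b'])‖ = 1

/-- the invariant -/
structure WA (D : Finset ℚ) (z : ℚ) (T : Finset ℕ) (N0 : ℕ) (s : St) : Prop where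
  pts : ∀ (p : ℕ) [Fact p.Prime], ∀ b ∈ D, ∃ r : ℚ_[p], ‖r‖ = 1 ∧
    s.x p - (b : ℚ_[p]) = ((s.X b : ℚ) : ℚ_[p]) * r ^ s.e b
  div : ∀ b ∈ D, N0 ∣ s.e b
  pos : ∀ b ∈ D, 1 ≤ s.e b
  sq : ∀ b ∈ D, ∃ Y : ℚ, Y ≠ 0 ∧ (s.X b : ℚ) = (z - b) * Y ^ 2
  fr : ∀ (v : ℕ) [Fact v.Prime], v ∈ T → s.x v = (z : ℚ_[v]) ∧ ∀ b ∈ D, ∃ ρ : ℚ_[v],
    ‖ρ - 1‖ ≤ (v : ℝ) ^ (-3 : ℤ) ∧ (z : ℚ_[v]) - (b : ℚ_[v]) = ((s.X b : ℚ) : ℚ_[v]) * ρ ^ s.e b
  Tg : ∀ v ∈ T, v ≤ s.g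

theorem teich {v : ℕ} [hv : Fact v.Prime] (u : ℚ_[v]) (hu : ‖u‖ = 1) :
    ∃ ζ : ℚ_[v], ‖ζ‖ = 1 ∧ ζ ^ (v - 1) = 1 ∧ ‖ζ - u‖ < 1 := by
  have h1 : ¬ v ∣ v - 1 := by
    intro h
    have := Nat.le_of_dvd (by have := hv.out.two_le; omega) h
    have := hv.out.two_le
    omega
  obtain ⟨r, hr1, hr2, hr3⟩ := hensel_unit (v - 1) h1 1 u hu (by
    rw [← norm_neg, neg_sub]
    exact pow_card_sub_one u hu)
  exact ⟨r, hr1, hr2.symm, hr3⟩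

theorem zmod_of_norm_add {v : ℕ} [hv : Fact v.Prime] (n : ℕ) (h : ‖(n : ℚ_[v]) + 1‖ < 1) :
    (n : ZMod v) = -1 := by
  have h1 : PadicInt.toZMod ((n : ℤ_[v]) + 1) = 0 := by
    rw [toZMod_eq_zero_iff, PadicInt.norm_def]
    push_cast
    exact h
  rw [map_add, map_natCast, map_one] at h1
  exact eq_neg_of_add_eq_zero_left h1

theorem zmod_of_norm_sub_four {v : ℕ} [hv : Fact v.Prime] (n : ℕ) (h : ‖(n : ℚ_[v]) - 4‖ < 1) :
    (n : ZMod v) = 4 := by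
  have h1 : PadicInt.toZMod ((n : ℤ_[v]) - ((4 : ℕ) : ℤ_[v])) = 0 := by
    rw [toZMod_eq_zero_iff, PadicInt.norm_def]
    push_cast
    exact h
  rw [map_sub, map_natCast, map_natCast] at h1
  have h2 := sub_eq_zero.1 h1
  rw [h2]
  norm_num

theorem mod_eight (n : ℕ) (v : ℕ) [hv : Fact v.Prime] (hv2 : v = 2)
    (h : ‖(n : ℚ_[v]) + 1‖ ≤ (v : ℝ) ^ (-3 : ℤ)) : n % 8 = 7 := by
  subst hv2
  have h1 := (Padic.norm_int_le_pow_iff_dvd (p := 2) ((n : ℤ) + 1) 3).1 (by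
    push_cast
    exact_mod_cast h)
  norm_num at h1
  omega

/-- the residues at the old places -/
theorem exists_U {v : ℕ} [hv : Fact v.Prime] (x a Xa : ℚ_[v]) (N : ℕ) (hN : Even N)
    (Fl T : Finset ℕ) (h2T : 2 ∈ T) (hFl : ∀ l ∈ Fl, 5 ≤ l ∧ (l - 1) ∣ N)
    (h1 : ∃ r : ℚ_[v], ‖r‖ = 1 ∧ x - a = Xa * r ^ N)
    (h2 : v ∈ T → ∃ ρ : ℚ_[v], ‖ρ - 1‖ ≤ (v : ℝ) ^ (-3 : ℤ) ∧ x - a = Xa * ρ ^ N) :
    ∃ U : ℚ_[v], ‖U‖ = 1 ∧ x - a = Xa * U ^ N ∧ (v ≠ 2 → ¬ ‖U - 1‖ < 1) ∧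
      (v = 2 → ‖U + 1‖ ≤ (v : ℝ) ^ (-3 : ℤ)) ∧
      (v ∈ T → v ≠ 2 → (v ∈ Fl → ‖U - 4‖ < 1) ∧ (v ∉ Fl → ‖U + 1‖ < 1)) := by
  have hv1 : (1 : ℝ) < v := by exact_mod_cast hv.out.one_lt
  by_cases hvT : v ∈ T
  · obtain ⟨ρ, hρ1, hρ2⟩ := h2 hvT
    have hρ3 : ‖ρ - 1‖ < 1 := hρ1.trans_lt (zpow_lt_one_of_neg₀ hv1 (by norm_num))
    have hρn : ‖ρ‖ = 1 := norm_eq_one_of_sub_lt (w := (1 : ℚ_[v])) (by simp) hρ3
    have hneg : x - a = Xa * (-ρ) ^ N := by rw [hN.neg_pow]; exact hρ2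
    have hn1 : ‖-ρ + 1‖ = ‖ρ - 1‖ := by rw [← norm_neg]; congr 1; ring
    have hn2 : v ≠ 2 → ¬ ‖-ρ - 1‖ < 1 := by
      intro hv2 h
      have h3 := norm_two_eq_one hv2
      have h4 : (2 : ℚ_[v]) = -(-ρ - 1) + -(ρ - 1) := by ring
      rw [h4] at h3
      have h5 := Padic.nonarchimedean (-(-ρ - 1)) (-(ρ - 1))
      rw [h3, norm_neg, norm_neg] at h5
      exact absurd (h5.trans_lt (max_lt h hρ3)) (lt_irrefl _)
    by_cases hvF : v ∈ Fl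
    · obtain ⟨hv5, hvN⟩ := hFl v hvF
      have hv2 : v ≠ 2 := by omega
      have h4n : ‖(4 : ℚ_[v])‖ = 1 := by
        have h5 : (4 : ℚ_[v]) = 2 * 2 := by norm_num
        rw [h5, norm_mul, norm_two_eq_one hv2, one_mul]
      obtain ⟨ζ, hζ1, hζ2, hζ3⟩ := teich (v := v) 4 h4n
      obtain ⟨d, hd⟩ := hvN
      have hU4 : ‖ρ * ζ - 4‖ < 1 := by
        have h5 : ρ * ζ - 4 = (ρ - 1) * ζ + (ζ - 4) := by ring
        rw [h5]
        refine (Padic.nonarchimedean _ _).trans_lt (max_lt ?_ hζ3)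
        rw [norm_mul, hζ1, mul_one]
        exact hρ3
      refine ⟨ρ * ζ, by rw [norm_mul, hρn, hζ1, one_mul], ?_, ?_, fun h => absurd h hv2,
        fun _ _ => ⟨fun _ => hU4, fun h => absurd hvF h⟩⟩
      · rw [mul_pow, hd, pow_mul ζ, hζ2, one_pow, mul_one, ← hd]
        exact hρ2
      · intro _ h
        have h3 : ‖(3 : ℚ_[v])‖ = 1 := by
          have h1 : ‖((3 : ℕ) : ℚ_[v])‖ = 1 :=
            Padic.norm_natCast_eq_one_iff.2 ((Nat.coprime_primes hv.out Nat.prime_three).2 (by omega))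
          exact_mod_cast h1
        have h4 : (3 : ℚ_[v]) = (ρ * ζ - 1) + -(ρ * ζ - 4) := by ring
        rw [h4] at h3
        have h5 := Padic.nonarchimedean (ρ * ζ - 1) (-(ρ * ζ - 4))
        rw [h3, norm_neg] at h5
        exact absurd (h5.trans_lt (max_lt h hU4)) (lt_irrefl _)
    · refine ⟨-ρ, by rw [norm_neg, hρn], hneg, hn2, fun _ => by rw [hn1]; exact hρ1,
        fun _ _ => ⟨fun h => absurd h hvF, fun _ => by rw [hn1]; exact hρ3⟩⟩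
  · have hv2 : v ≠ 2 := fun h => hvT (h ▸ h2T)
    obtain ⟨r, hr1, hr2⟩ := h1
    by_cases h3 : ‖r - 1‖ < 1
    · refine ⟨-r, by rw [norm_neg, hr1], by rw [hN.neg_pow]; exact hr2, ?_,
        fun h => absurd h hv2, fun h => absurd h hvT⟩
      intro _ h
      have h3' := norm_two_eq_one hv2
      have h4 : (2 : ℚ_[v]) = -(-r - 1) + -(r - 1) := by ring
      rw [h4] at h3'
      have h5 := Padic.nonarchimedean (-(-r - 1)) (-(r - 1))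
      rw [h3', norm_neg, norm_neg] at h5
      exact absurd (h5.trans_lt (max_lt h h3)) (lt_irrefl _)
    · exact ⟨r, hr1, hr2, fun _ => h3, fun h => absurd h hv2, fun h => absurd h hvT⟩

/-- the conditions are open -/
theorem open_U {v : ℕ} [hv : Fact v.Prime] (x a Xa U : ℚ_[v]) (N m : ℕ) (hm : 1 ≤ m)
    (hU1 : ‖U‖ = 1) (hU2 : x - a = Xa * U ^ N) (P4 : Prop) (Q4 : Prop)
    (hU3 : v ≠ 2 → ¬ ‖U - 1‖ < 1) (hU4 : v = 2 → ‖U + 1‖ ≤ (v : ℝ) ^ (-3 : ℤ))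
    (hU5 : P4 → ‖U - 4‖ < 1) (hU6 : Q4 → ‖U + 1‖ < 1) :
    ∃ B : ℕ, ∀ n : ℕ, ‖(n : ℚ_[v]) - U‖ ≤ (v : ℝ) ^ (-(B : ℤ)) →
      (∃ r : ℚ_[v], ‖r‖ = 1 ∧ x - a = Xa * (n : ℚ_[v]) ^ N * r ^ (N * m) ∧
        ‖r - 1‖ ≤ (v : ℝ) ^ (-3 : ℤ)) ∧
      (v ≠ 2 → ¬ ‖(n : ℚ_[v]) - 1‖ < 1) ∧ (v = 2 → ‖(n : ℚ_[v]) + 1‖ ≤ (v : ℝ) ^ (-3 : ℤ)) ∧
      (P4 → ‖(n : ℚ_[v]) - 4‖ < 1) ∧ (Q4 → ‖(n : ℚ_[v]) + 1‖ < 1) := by
  have hv1 : (1 : ℝ) < v := by exact_mod_cast hv.out.one_lt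
  obtain ⟨B, hB⟩ := pow_near_one (p := v) m hm
  refine ⟨B + 3, fun n hn => ?_⟩
  have h1 : ‖(n : ℚ_[v]) - U‖ ≤ (v : ℝ) ^ (-(B : ℤ)) :=
    hn.trans (zpow_le_zpow_right₀ hv1.le (by push_cast; omega))
  have h2 : ‖(n : ℚ_[v]) - U‖ ≤ (v : ℝ) ^ (-3 : ℤ) :=
    hn.trans (zpow_le_zpow_right₀ hv1.le (by push_cast; omega))
  have h3 : ‖(n : ℚ_[v]) - U‖ < 1 := h2.trans_lt (zpow_lt_one_of_neg₀ hv1 (by norm_num))
  have hn1 : ‖(n : ℚ_[v])‖ = 1 := norm_eq_one_of_sub_lt hU1 h3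
  have hn0 : (n : ℚ_[v]) ≠ 0 := norm_ne_zero_iff.1 (by rw [hn1]; exact one_ne_zero)
  refine ⟨?_, ?_, ?_, ?_, ?_⟩
  · have h4 : ‖U / (n : ℚ_[v]) - 1‖ ≤ (v : ℝ) ^ (-(B : ℤ)) := by
      have h5 : U / (n : ℚ_[v]) - 1 = -((n : ℚ_[v]) - U) / (n : ℚ_[v]) := by
        field_simp
        ring
      rw [h5, norm_div, norm_neg, hn1, div_one]
      exact h1
    obtain ⟨r, hr1, hr2, hr3⟩ := hB _ h4
    refine ⟨r, hr1, ?_, hr3⟩
    have h6 : U = (n : ℚ_[v]) * r ^ m := by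
      rw [← hr2]
      field_simp
    rw [hU2, h6, mul_pow, ← pow_mul, mul_comm m N]
    ring
  · intro hv2 h
    apply hU3 hv2
    have h4 : U - 1 = -((n : ℚ_[v]) - U) + ((n : ℚ_[v]) - 1) := by ring
    rw [h4]
    refine (Padic.nonarchimedean _ _).trans_lt (max_lt ?_ h)
    rw [norm_neg]
    exact h3
  · intro hv2
    have h4 : (n : ℚ_[v]) + 1 = ((n : ℚ_[v]) - U) + (U + 1) := by ring
    rw [h4]
    exact (Padic.nonarchimedean _ _).trans (max_le h2 (hU4 hv2))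
  · intro h
    have h4 : (n : ℚ_[v]) - 4 = ((n : ℚ_[v]) - U) + (U - 4) := by ring
    rw [h4]
    exact (Padic.nonarchimedean _ _).trans_lt (max_lt h3 (hU5 h))
  · intro h
    have h4 : (n : ℚ_[v]) + 1 = ((n : ℚ_[v]) - U) + (U + 1) := by ring
    rw [h4]
    exact (Padic.nonarchimedean _ _).trans_lt (max_lt h3 (hU6 h))

/-- the greatest common divisor of the exponent and `p - 1` is two -/
theorem gcd_eq_two (Q C e p : ℕ) (hQC : Q ≤ C) (he : e ∣ Q) (hQ0 : 1 ≤ Q) (heven : Even e)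
    (hp : p.Prime) (h8 : p % 8 = 7)
    (h : ∀ (l : ℕ) [Fact l.Prime], l ≤ C → l ≠ 2 → ¬ ‖(p : ℚ_[l]) - 1‖ < 1) :
    Nat.gcd e (p - 1) = 2 := by
  have h2 : 2 ∣ Nat.gcd e (p - 1) := Nat.dvd_gcd (even_iff_two_dvd.1 heven) (by omega)
  obtain ⟨g, hg⟩ := h2
  have hg1 : g = 1 := by
    by_contra hne
    obtain ⟨l, hl, hl1⟩ := Nat.exists_prime_and_dvd hne
    have hlg : l ∣ Nat.gcd e (p - 1) := by rw [hg]; exact hl1.mul_left _
    have hle : l ∣ e := hlg.trans (Nat.gcd_dvd_left _ _)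
    have hlp : l ∣ p - 1 := hlg.trans (Nat.gcd_dvd_right _ _)
    have hl2 : l ≠ 2 := by
      rintro rfl
      have h4 : 2 * 2 ∣ p - 1 := (mul_dvd_mul_left 2 hl1).trans (hg ▸ Nat.gcd_dvd_right _ _)
      omega
    have hfl : Fact l.Prime := ⟨hl⟩
    apply h l ((Nat.le_of_dvd hQ0 (hle.trans he)).trans hQC) hl2
    have h1 := (Padic.norm_natCast_lt_one_iff (p := l) (n := p - 1)).2 hlp
    rwa [Nat.cast_sub hp.one_le, Nat.cast_one] at h1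
  rw [hg, hg1]

theorem stepA {D : Finset ℚ} {z : ℚ} {T : Finset ℕ} {q : ℚ → ℕ} {N0 : ℕ} (hA : HA D z T q N0)
    (s : St) (hs : WA D z T N0 s) (a : ℚ) (ha : a ∈ D) (m : ℕ) (hm : 1 ≤ m) (L : ℕ) :
    ∃ s', WA D z T N0 s' ∧ Step L a m s s' := by
  classical
  set N := s.e a with hN
  have hN1 : 1 ≤ N := hs.pos a ha
  have hNdiv : N0 ∣ N := hs.div a ha
  have hNeven : Even N := (even_iff_two_dvd.2 ((even_iff_two_dvd.1 hA.even).trans hNdiv))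
  set e' := Function.update s.e a (N * m) with he'
  have he'a : e' a = N * m := Function.update_self _ _ _
  have he'ne : ∀ b, b ≠ a → e' b = s.e b := fun b hb => Function.update_of_ne hb _ _
  have he'pos : ∀ b ∈ D, 1 ≤ e' b := by
    intro b hb
    by_cases hba : b = a
    · rw [hba, he'a]
      exact Nat.mul_pos hN1 hm
    · rw [he'ne b hba]
      exact hs.pos b hb
  have he'div : ∀ b ∈ D, N0 ∣ e' b := by
    intro b hb
    by_cases hba : b = a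
    · rw [hba, he'a]
      exact hNdiv.mul_right _
    · rw [he'ne b hba]
      exact hs.div b hb
  have he'even : ∀ b ∈ D, Even (e' b) := fun b hb =>
    even_iff_two_dvd.2 ((even_iff_two_dvd.1 hA.even).trans (he'div b hb))
  set Q := ∏ b ∈ D, e' b with hQ
  have hQ1 : 1 ≤ Q := Nat.one_le_iff_ne_zero.2
    (Finset.prod_ne_zero_iff.2 fun b hb => Nat.one_le_iff_ne_zero.1 (he'pos b hb))
  have hdvdQ : ∀ b ∈ D, e' b ∣ Q := fun b hb => Finset.dvd_prod_of_mem _ hb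
  obtain ⟨K, hK⟩ := good_point D Q hQ1
  set C := K + L + s.g + Q + ∑ b ∈ D, rb (s.X b) + ∑ b ∈ D, rb ((a - b) * (z - b)) +
    ∑ b ∈ D, rb (z - b) + ∑ b ∈ D, rb (a - b) + 3 with hC
  have hCX : ∀ b ∈ D, rb (s.X b) ≤ C := by
    intro b hb
    have := Finset.single_le_sum (f := fun b => rb (s.X b : ℚ)) (fun _ _ => Nat.zero_le _) hb
    omega
  have hCc : ∀ b ∈ D, rb ((a - b) * (z - b)) ≤ C := by
    intro b hb
    have := Finset.single_le_sum (f := fun b => rb ((a - b) * (z - b)))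
      (fun _ _ => Nat.zero_le _) hb
    omega
  have hCz : ∀ b ∈ D, rb (z - b) ≤ C := by
    intro b hb
    have := Finset.single_le_sum (f := fun b => rb (z - b)) (fun _ _ => Nat.zero_le _) hb
    omega
  have hCT : ∀ v ∈ T, v ≤ C := fun v hv => (hs.Tg v hv).trans (by omega)
  set S := (Finset.range (C + 1)).filter Nat.Prime with hS
  have hSp : ∀ v ∈ S, v.Prime := fun v hv => (Finset.mem_filter.1 hv).2
  have hSmem : ∀ (v : ℕ) [Fact v.Prime], v ∈ S ↔ v ≤ C := by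
    intro v hv
    rw [hS, Finset.mem_filter, Finset.mem_range]
    exact ⟨fun h => by omega, fun h => ⟨by omega, hv.out⟩⟩
  -- the set of flips
  set Fl : Finset ℕ := (D.filter fun b => b ≠ a ∧ (a - b) * (z - b) < 0).image q with hFl
  have hFl1 : ∀ l ∈ Fl, 5 ≤ l ∧ (l - 1) ∣ N := by
    intro l hl
    obtain ⟨b, hb, rfl⟩ := Finset.mem_image.1 hl
    have hbD := (Finset.mem_filter.1 hb).1
    exact ⟨hA.q5 b hbD, (hA.qN b hbD).trans hNdiv⟩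
  -- the new prime number
  let G : (v : ℕ) → [Fact v.Prime] → ℕ → Prop := fun v _ n =>
    (∃ r : ℚ_[v], ‖r‖ = 1 ∧ s.x v - (a : ℚ_[v]) =
        ((s.X a : ℚ) : ℚ_[v]) * (n : ℚ_[v]) ^ N * r ^ (N * m) ∧ ‖r - 1‖ ≤ (v : ℝ) ^ (-3 : ℤ)) ∧
      (v ≠ 2 → ¬ ‖(n : ℚ_[v]) - 1‖ < 1) ∧ (v = 2 → ‖(n : ℚ_[v]) + 1‖ ≤ (v : ℝ) ^ (-3 : ℤ)) ∧
      ((v ∈ T ∧ v ≠ 2 ∧ v ∈ Fl) → ‖(n : ℚ_[v]) - 4‖ < 1) ∧
      ((v ∈ T ∧ v ≠ 2 ∧ v ∉ Fl) → ‖(n : ℚ_[v]) + 1‖ < 1)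
  obtain ⟨p, hp, hpC, hpG⟩ := exists_prime_good S hSp G (by
    intro v hv hvS
    obtain ⟨U, hU1, hU2, hU3, hU4, hU5⟩ := exists_U (s.x v) (a : ℚ_[v]) ((s.X a : ℚ) : ℚ_[v]) N
      hNeven Fl T hA.twoT hFl1 (hs.pts v a ha) (by
        intro hvT
        obtain ⟨h1, h2⟩ := hs.fr v hvT
        obtain ⟨ρ, h3, h4⟩ := h2 a ha
        exact ⟨ρ, h3, by rw [h1]; exact h4⟩)
    obtain ⟨B, hB⟩ := open_U (s.x v) (a : ℚ_[v]) ((s.X a : ℚ) : ℚ_[v]) U N m hm hU1 hU2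
      (v ∈ T ∧ v ≠ 2 ∧ v ∈ Fl) (v ∈ T ∧ v ≠ 2 ∧ v ∉ Fl) hU3 hU4
      (fun h => (hU5 h.1 h.2.1).1 h.2.2) (fun h => (hU5 h.1 h.2.1).2 h.2.2)
    exact ⟨U, B, hU1, hB⟩) C
  have hpf : Fact p.Prime := ⟨hp⟩
  have hpR : (1 : ℝ) < p := by exact_mod_cast hp.one_lt
  have hpl : ∀ (l : ℕ) [Fact l.Prime], l ≤ C → l ≠ 2 → ¬ ‖(p : ℚ_[l]) - 1‖ < 1 := by
    intro l hl hlC hl2
    exact (hpG l ((hSmem l).2 hlC)).2.1 hl2
  have h8 : p % 8 = 7 := by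
    have h2f : Fact (Nat.Prime 2) := ⟨Nat.prime_two⟩
    exact mod_eight p 2 rfl ((hpG 2 ((hSmem 2).2 (by omega))).2.2.1 rfl)
  have hp0 : (p : ℚ) ≠ 0 := by exact_mod_cast hp.ne_zero
  set X' := Function.update s.X a (s.X a * (Units.mk0 (p : ℚ) hp0) ^ N) with hX'
  have hX'a : X' a = s.X a * (Units.mk0 (p : ℚ) hp0) ^ N := Function.update_self _ _ _
  have hX'ne : ∀ b, b ≠ a → X' b = s.X b := fun b hb => Function.update_of_ne hb _ _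
  have hX'aQ : (X' a : ℚ) = (s.X a : ℚ) * (p : ℚ) ^ N := by
    rw [hX'a]
    push_cast
    rw [Units.val_mk0]
  have hX'aq : ∀ (v : ℕ) [Fact v.Prime], ((X' a : ℚ) : ℚ_[v]) =
      ((s.X a : ℚ) : ℚ_[v]) * (p : ℚ_[v]) ^ N := by
    intro v _
    rw [hX'aQ]
    push_cast
    rfl
  have hXn : ∀ (v : ℕ) [Fact v.Prime], C < v → ∀ b ∈ D, ‖((s.X b : ℚ) : ℚ_[v])‖ = 1 := by
    intro v hv hvC b hb
    exact norm_rat_eq_one (s.X b).ne_zero ((hCX b hb).trans_lt hvC)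
  have hXa1 : ‖((X' a : ℚ) : ℚ_[p])‖ = (p : ℝ) ^ (-(N : ℤ)) := by
    rw [hX'aq, norm_mul, hXn p hpC a ha, one_mul, norm_pow, Padic.norm_p, inv_pow, zpow_neg,
      zpow_natCast]
  -- the squares modulo p
  have hsq : ∀ b ∈ D, b ≠ a → ∃ y : ℚ_[p], ‖y‖ = 1 ∧
      ‖(((a - b) * (z - b) : ℚ) : ℚ_[p]) - y ^ 2‖ < 1 := by
    intro b hb hba
    have hqT := hA.qT b hb
    have hqf : Fact (q b).Prime := ⟨hA.prT _ hqT⟩
    have hq2 : q b ≠ 2 := by have := hA.q5 b hb; omega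
    have hc0 : (a - b) * (z - b) ≠ 0 :=
      mul_ne_zero (sub_ne_zero.2 hba.symm) (sub_ne_zero.2 (hA.ne b hb).symm)
    apply square_mod p (q b) h8 (hA.q4 b hb) _ hc0 ((hCc b hb).trans_lt hpC)
      (hA.val a ha b hb hba.symm)
    · intro l hl hl2 hlq hnl
      have hlT : l ∈ T := by
        by_contra h
        exact hnl (hA.supp a ha b hb hba.symm l h)
      apply zmod_of_norm_add
      apply (hpG l ((hSmem l).2 (hCT l hlT))).2.2.2.2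
      refine ⟨hlT, hl2, ?_⟩
      intro hlF
      obtain ⟨b', hb', hqb'⟩ := Finset.mem_image.1 hlF
      have hb'D := (Finset.mem_filter.1 hb').1
      have hne : b' ≠ b := by
        rintro rfl
        exact hlq hqb'.symm
      subst hqb'
      exact hnl (hA.unit a ha b hb hba.symm b' hb'D hne)
    · rcases lt_or_gt_of_ne hc0 with h | h
      · right
        refine ⟨h, ?_⟩
        apply zmod_of_norm_sub_four
        apply (hpG (q b) ((hSmem (q b)).2 (hCT _ hqT))).2.2.2.1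
        exact ⟨hqT, hq2, Finset.mem_image_of_mem q (Finset.mem_filter.2 ⟨hb, hba, h⟩)⟩
      · left
        refine ⟨h, ?_⟩
        apply zmod_of_norm_add
        apply (hpG (q b) ((hSmem (q b)).2 (hCT _ hqT))).2.2.2.2
        refine ⟨hqT, hq2, ?_⟩
        intro hF
        obtain ⟨b', hb', hqb'⟩ := Finset.mem_image.1 hF
        obtain ⟨hb'D, -, hneg⟩ := Finset.mem_filter.1 hb'
        have hbb : b' = b := by
          by_contra hne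
          exact hA.qinj b' hb'D b hb hne hqb'
        rw [hbb] at hneg
        exact absurd hneg (not_lt.2 h.le)
  have hpQ : ∀ b ∈ D, ¬ p ∣ e' b := by
    intro b hb h
    have := Nat.le_of_dvd hQ1 (h.trans (hdvdQ b hb))
    omega
  obtain ⟨xp, hxp1, ⟨rp, hrp1, hrp2⟩, hxp3⟩ := new_point (p := p) D a e' (fun b => (X' b : ℚ)) (e' a)
    (hpQ a ha) (X' a : ℚ) (X' a).ne_zero (by
      rw [hXa1]
      exact zpow_lt_one_of_neg₀ hpR (by omega)) (by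
      intro b hb hba
      have h1 : ‖((X' b : ℚ) : ℚ_[p])‖ = 1 := by
        rw [hX'ne b hba]
        exact hXn p hpC b hb
      refine ⟨hpQ b hb, h1, ?_⟩
      have h2 := gcd_eq_two Q C (e' b) p (by omega) (hdvdQ b hb) hQ1 (he'even b hb) hp h8 hpl
      obtain ⟨j, i, hji⟩ := nat_bezout (e' b) (p - 1) (he'pos b hb)
        (by have := hp.two_le; omega)
      rw [h2] at hji
      obtain ⟨y, hy1, hy2⟩ := hsq b hb hba
      obtain ⟨Y, hY0, hY⟩ := hs.sq b hb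
      have hzb : ‖((z : ℚ_[p]) - b)‖ = 1 := by
        have := norm_rat_eq_one (p := p) (q := z - b) (sub_ne_zero.2 (hA.ne b hb).symm)
          ((hCz b hb).trans_lt hpC)
        push_cast at this
        exact this
      set w : ℚ_[p] := ((z : ℚ_[p]) - b) * (Y : ℚ_[p]) with hw
      have hXw : ((X' b : ℚ) : ℚ_[p]) * ((z : ℚ_[p]) - b) = w ^ 2 := by
        rw [hX'ne b hba, hY, hw]
        push_cast
        ring
      have hwn : ‖w‖ = 1 := by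
        have h3 : ‖w‖ ^ 2 = 1 := by rw [← norm_pow, ← hXw, norm_mul, h1, hzb, one_mul]
        exact (pow_eq_one_iff_of_nonneg (norm_nonneg _) two_ne_zero).1 h3
      have hw0 : w ≠ 0 := norm_ne_zero_iff.1 (by rw [hwn]; exact one_ne_zero)
      have hX0 : ((X' b : ℚ) : ℚ_[p]) ≠ 0 :=
        norm_ne_zero_iff.1 (by rw [h1]; exact one_ne_zero)
      have hzb0 : (z : ℚ_[p]) - b ≠ 0 := norm_ne_zero_iff.1 (by rw [hzb]; exact one_ne_zero)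
      have h3 : ((a : ℚ_[p]) - b) / ((X' b : ℚ) : ℚ_[p]) =
          (((a - b) * (z - b) : ℚ) : ℚ_[p]) / w ^ 2 := by
        rw [← hXw]
        push_cast
        field_simp
      obtain ⟨u, hu1, hu2⟩ := unit_pow (e' b) j 2 i hji (((a : ℚ_[p]) - b) / ((X' b : ℚ) : ℚ_[p]))
        (y / w) (by rw [norm_div, hy1, hwn, div_one]) (by
          have h4 : ((a : ℚ_[p]) - b) / ((X' b : ℚ) : ℚ_[p]) - (y / w) ^ 2 =
              ((((a - b) * (z - b) : ℚ) : ℚ_[p]) - y ^ 2) / w ^ 2 := by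
            rw [h3, div_pow, sub_div]
          rw [h4, norm_div, norm_pow, hwn, one_pow, div_one]
          exact hy2)
      refine ⟨u, hu1, ?_⟩
      have h4 : ((a : ℚ_[p]) - b) - ((X' b : ℚ) : ℚ_[p]) * u ^ e' b =
          ((X' b : ℚ) : ℚ_[p]) * (((a : ℚ_[p]) - b) / ((X' b : ℚ) : ℚ_[p]) - u ^ e' b) := by
        field_simp
      rw [h4, norm_mul, h1, one_mul]
      exact hu2)
  have hx' : ∀ v : ℕ, ∀ hv : Fact v.Prime, ∃ x' : ℚ_[v],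
      (∀ b ∈ D, ∃ r : ℚ_[v], ‖r‖ = 1 ∧
        x' - (b : ℚ_[v]) = ((X' b : ℚ) : ℚ_[v]) * r ^ e' b) ∧
      (v ≤ C → x' = s.x v) ∧ (v = p → ‖x' - (a : ℚ_[v])‖ = (v : ℝ) ^ (-(N : ℤ))) := by
    intro v hv
    by_cases hvC : v ≤ C
    · refine ⟨s.x v, ?_, fun _ => rfl, fun h => absurd hvC (not_le.2 (h ▸ hpC))⟩
      intro b hb
      by_cases hba : b = a
      · obtain ⟨⟨r, hr1, hr2, -⟩, -⟩ := hpG v ((hSmem v).2 hvC)
        refine ⟨r, hr1, ?_⟩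
        rw [hba, he'a, hX'aq]
        exact hr2
      · rw [he'ne b hba, hX'ne b hba]
        exact hs.pts v b hb
    · push Not at hvC
      by_cases h1 : v = p
      · subst h1
        refine ⟨xp, ?_, fun h => absurd h (not_le.2 hvC), fun _ => ?_⟩
        · intro b hb
          by_cases hba : b = a
          · rw [hba]
            exact ⟨rp, hrp1, hrp2⟩
          · exact hxp3 b hb hba
        · rw [hrp2, norm_mul, norm_pow, hrp1, one_pow, mul_one, hXa1]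
      · have hXb : ∀ b ∈ D, ‖((X' b : ℚ) : ℚ_[v])‖ = 1 := by
          intro b hb
          by_cases hba : b = a
          · rw [hba, hX'aq, norm_mul, hXn v hvC a ha, one_mul, norm_pow,
              Padic.norm_natCast_eq_one_iff.2 ((Nat.coprime_primes hv.out hp).2 h1), one_pow]
          · rw [hX'ne b hba]
            exact hXn v hvC b hb
        obtain ⟨x', h3, h4⟩ := hK v (by omega) (fun b => (X' b : ℚ)) hXb
        refine ⟨x', ?_, fun h => absurd h (not_le.2 hvC), fun h => absurd h h1⟩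
        intro b hb
        obtain ⟨r, hr1, hr2⟩ := h4 b hb
        obtain ⟨d, hd⟩ := hdvdQ b hb
        refine ⟨r ^ d, by rw [norm_pow, hr1, one_pow], ?_⟩
        rw [hr2, ← pow_mul, hd, mul_comm d]
  choose x' hx'1 hx'2 hx'3 using hx'
  refine ⟨⟨e', X', fun v hv => x' v hv, p⟩, ⟨?_, he'div, he'pos, ?_, ?_, ?_⟩, ?_⟩
  · intro v hv b hb
    exact hx'1 v hv b hb
  · intro b hb
    by_cases hba : b = a
    · obtain ⟨Y, hY0, hY⟩ := hs.sq a ha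
      obtain ⟨k, hk⟩ := hNeven
      refine ⟨Y * (p : ℚ) ^ k, mul_ne_zero hY0 (pow_ne_zero _ hp0), ?_⟩
      change (X' b : ℚ) = _
      rw [hba, hX'aQ, hY, hk]
      ring
    · change ∃ Y : ℚ, Y ≠ 0 ∧ (X' b : ℚ) = _
      rw [hX'ne b hba]
      exact hs.sq b hb
  · intro v hv hvT
    obtain ⟨h1, h2⟩ := hs.fr v hvT
    refine ⟨?_, ?_⟩
    · change x' v hv = _
      rw [hx'2 v hv (hCT v hvT)]
      exact h1
    · intro b hb
      change ∃ ρ : ℚ_[v], ‖ρ - 1‖ ≤ (v : ℝ) ^ (-3 : ℤ) ∧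
        (z : ℚ_[v]) - (b : ℚ_[v]) = ((X' b : ℚ) : ℚ_[v]) * ρ ^ e' b
      by_cases hba : b = a
      · obtain ⟨⟨r, hr1, hr2, hr3⟩, -⟩ := hpG v ((hSmem v).2 (hCT v hvT))
        refine ⟨r, hr3, ?_⟩
        rw [hba, he'a, hX'aq, ← h1]
        exact hr2
      · rw [he'ne b hba, hX'ne b hba]
        exact h2 b hb
  · intro v hvT
    exact (hCT v hvT).trans hpC.le
  · refine ⟨he'a, he'ne, ⟨Units.mk0 (p : ℚ) hp0, hX'a⟩, hX'ne, ?_, ?_, ?_⟩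
    · change s.g < p
      omega
    · intro v hv hvg
      exact hx'2 v hv (by omega)
    · exact ⟨p, hpf, by omega, le_rfl, hx'3 p hpf rfl⟩

end Pool.Agent.Q33.EX
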