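import Pool.Agent.Q33.EX.Prep

/-!
# Quadratic residues modulo a prime number which is like the real place
-/

set_option autoImplicit false

namespace Pool.Agent.Q33.EX

theorem leg_prime (p l : ℕ) [hp : Fact p.Prime] [hl : Fact l.Prime] (h8 : p % 8 = 7)
    (h : l = 2 ∨ (p : ZMod l) = -1) : legendreSym p l = 1 := by
  have hp2 : p ≠ 2 := by rintro rfl; omega
  by_cases hl2 : l = 2
  · subst hl2
    have h1 := legendreSym.at_two hp2
    have h2 : ((2 : ℕ) : ℤ) = 2 := rfl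
    rw [h2, h1, ZMod.χ₈_nat_eq_if_mod_eight]
    have h3 : p % 2 ≠ 0 := by omega
    rw [if_neg h3, if_pos (Or.inr h8)]
  · have h1 : (p : ZMod l) = -1 := h.resolve_left hl2
    have h2 : legendreSym l p = ZMod.χ₄ l := by
      rw [← legendreSym.at_neg_one hl2]
      unfold legendreSym
      push_cast
      rw [h1]
    have hodd : l % 2 = 1 := (Nat.Prime.eq_two_or_odd hl.out).resolve_left hl2
    have h3 : l % 4 = 1 ∨ l % 4 = 3 := by omega
    rcases h3 with h3 | h3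
    · rw [legendreSym.quadratic_reciprocity_one_mod_four h3 hp2, h2, ZMod.χ₄_nat_one_mod_four h3]
    · rw [legendreSym.quadratic_reciprocity_three_mod_four h3 (by omega), h2,
        ZMod.χ₄_nat_three_mod_four h3]
      norm_num

theorem leg_nat (p : ℕ) [hp : Fact p.Prime] (n : ℕ) (hn : n ≠ 0)
    (h : ∀ (l : ℕ), l.Prime → l ∣ n → legendreSym p l = 1) : legendreSym p n = 1 := by
  induction n using Nat.strong_induction_on with
  | _ n ih =>
    by_cases h1 : n = 1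
    · rw [h1]
      simp
    · obtain ⟨m, hm⟩ := Nat.minFac_dvd n
      have hpr := Nat.minFac_prime h1
      have hm0 : m ≠ 0 := by
        rintro rfl
        rw [mul_zero] at hm
        exact hn hm
      have hlt : m < n := by
        conv_rhs => rw [hm]
        have := hpr.two_le
        have : 0 < m := Nat.pos_of_ne_zero hm0
        nlinarith
      have h2 := ih m hlt hm0 fun l hl hlm => h l hl (by rw [hm]; exact hlm.mul_left _)
      rw [hm]
      push_cast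
      rw [legendreSym.mul, h2, mul_one]
      exact h _ hpr (Nat.minFac_dvd n)

theorem leg_q (p q : ℕ) [hp : Fact p.Prime] [hq : Fact q.Prime] (h8 : p % 8 = 7) (hq4 : q % 4 = 3)
    (h : (p : ZMod q) = 4) : legendreSym p q = -1 := by
  have hp2 : p ≠ 2 := by rintro rfl; omega
  have hq2 : q ≠ 2 := by rintro rfl; omega
  rw [legendreSym.quadratic_reciprocity_three_mod_four hq4 (by omega)]
  congr 1
  unfold legendreSym
  push_cast
  rw [h]
  have h1 : (4 : ZMod q) = 2 ^ 2 := by norm_num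
  rw [h1]
  have h2 : (2 : ZMod q) ≠ 0 := by
    have h3 : ((2 : ℕ) : ZMod q) ≠ 0 := by
      rw [Ne, ZMod.natCast_eq_zero_iff]
      intro h4
      have := (Nat.prime_dvd_prime_iff_eq hq.out Nat.prime_two).1 h4
      exact hq2 this
    exact_mod_cast h3
  exact quadraticChar_sq_one' h2

/-- the integer `num * den` of a rational number, without the sign -/
def nd (c : ℚ) : ℕ := c.num.natAbs * c.den

theorem nd_ne_zero {c : ℚ} (hc : c ≠ 0) : nd c ≠ 0 :=
  Nat.mul_ne_zero (Int.natAbs_ne_zero.2 (Rat.num_ne_zero.2 hc)) c.den_nz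

theorem norm_num_den {l : ℕ} [hl : Fact l.Prime] (c : ℚ) :
    ‖(c : ℚ_[l])‖ * ‖((c.den : ℕ) : ℚ_[l])‖ = ‖((c.num.natAbs : ℕ) : ℚ_[l])‖ := by
  have h1 : (c : ℚ_[l]) * ((c.den : ℕ) : ℚ_[l]) = ((c.num : ℤ) : ℚ_[l]) := by
    have := Rat.mul_den_eq_num c
    exact_mod_cast congrArg (fun x : ℚ => (x : ℚ_[l])) this
  rw [← norm_mul, h1]
  have h7 : ((c.num.natAbs : ℕ) : ℚ_[l]) = ((c.num.natAbs : ℤ) : ℚ_[l]) := by
    rw [Int.cast_natCast]
  rw [h7]
  rcases Int.natAbs_eq c.num with h6 | h6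
  · rw [← h6]
  · conv_lhs => rw [h6]
    rw [Int.cast_neg, norm_neg]

theorem ne_one_of_dvd_nd {l : ℕ} [hl : Fact l.Prime] (c : ℚ) (h : l ∣ nd c) :
    ‖(c : ℚ_[l])‖ ≠ 1 := by
  intro h1
  have h2 := norm_num_den (l := l) c
  rw [h1, one_mul] at h2
  have hcop := c.reduced
  rcases (Nat.Prime.dvd_mul hl.out).1 h with h3 | h3
  · have h4 : ¬ l ∣ c.den := fun h5 => Nat.not_coprime_of_dvd_of_dvd hl.out.one_lt h3 h5 hcop
    have h5 := (Padic.norm_natCast_lt_one_iff (p := l)).2 h3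
    rw [← h2, Padic.norm_natCast_eq_one_iff.2 ((Nat.Prime.coprime_iff_not_dvd hl.out).2 h4)] at h5
    exact lt_irrefl _ h5
  · have h4 : ¬ l ∣ c.num.natAbs := fun h5 =>
      Nat.not_coprime_of_dvd_of_dvd hl.out.one_lt h5 h3 hcop
    have h5 := (Padic.norm_natCast_lt_one_iff (p := l)).2 h3
    rw [h2, Padic.norm_natCast_eq_one_iff.2 ((Nat.Prime.coprime_iff_not_dvd hl.out).2 h4)] at h5
    exact lt_irrefl _ h5

theorem nd_of_norm {q : ℕ} [hq : Fact q.Prime] (c : ℚ) (h : ‖(c : ℚ_[q])‖ = (q : ℝ)⁻¹) :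
    q ∣ nd c ∧ ¬ q ^ 2 ∣ nd c := by
  have hq1 : (1 : ℝ) < q := by exact_mod_cast hq.out.one_lt
  have h2 := norm_num_den (l := q) c
  have hcop := c.reduced
  have hden : ¬ q ∣ c.den := by
    intro h3
    have h4 : ¬ q ∣ c.num.natAbs := fun h5 =>
      Nat.not_coprime_of_dvd_of_dvd hq.out.one_lt h5 h3 hcop
    rw [h, Padic.norm_natCast_eq_one_iff.2 ((Nat.Prime.coprime_iff_not_dvd hq.out).2 h4)] at h2
    have h5 := (Padic.norm_natCast_lt_one_iff (p := q)).2 h3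
    have h6 : (q : ℝ)⁻¹ < 1 := inv_lt_one_of_one_lt₀ hq1
    have h7 : (0 : ℝ) < (q : ℝ)⁻¹ := by positivity
    nlinarith [norm_nonneg ((c.den : ℕ) : ℚ_[q])]
  have hdn : ‖((c.den : ℕ) : ℚ_[q])‖ = 1 :=
    Padic.norm_natCast_eq_one_iff.2 ((Nat.Prime.coprime_iff_not_dvd hq.out).2 hden)
  rw [hdn, mul_one, h] at h2
  have h3 : ‖((nd c : ℕ) : ℚ_[q])‖ = (q : ℝ)⁻¹ := by
    unfold nd
    push_cast
    rw [norm_mul, hdn, mul_one, h2]
  constructor
  · rw [← Padic.norm_natCast_lt_one_iff (p := q), h3]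
    exact inv_lt_one_of_one_lt₀ hq1
  · intro h4
    have h5 := (Padic.norm_int_le_pow_iff_dvd (p := q) (nd c : ℤ) 2).2 (by exact_mod_cast h4)
    rw [Int.cast_natCast, h3] at h5
    have h6 : (q : ℝ) ^ (-((2 : ℕ) : ℤ)) = (q : ℝ)⁻¹ * (q : ℝ)⁻¹ := by
      rw [zpow_neg, zpow_natCast, pow_two, mul_inv]
    rw [h6] at h5
    have h7 : (0 : ℝ) < (q : ℝ)⁻¹ := by positivity
    have h8 : (q : ℝ)⁻¹ < 1 := inv_lt_one_of_one_lt₀ hq1
    nlinarith

/-- the numbers which are squares modulo `p` -/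
theorem square_mod (p q : ℕ) [hp : Fact p.Prime] [hq : Fact q.Prime] (h8 : p % 8 = 7)
    (hq4 : q % 4 = 3) (c : ℚ) (hc : c ≠ 0) (hpc : rb c < p) (hqc : ‖(c : ℚ_[q])‖ = (q : ℝ)⁻¹)
    (hl : ∀ (l : ℕ) [Fact l.Prime], l ≠ 2 → l ≠ q → ‖(c : ℚ_[l])‖ ≠ 1 → (p : ZMod l) = -1)
    (hs : (0 < c ∧ (p : ZMod q) = -1) ∨ (c < 0 ∧ (p : ZMod q) = 4)) :
    ∃ y : ℚ_[p], ‖y‖ = 1 ∧ ‖(c : ℚ_[p]) - y ^ 2‖ < 1 := by
  have hp2 : p ≠ 2 := by rintro rfl; omega
  obtain ⟨h1, h2⟩ := nd_of_norm c hqc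
  obtain ⟨n', hn'⟩ := h1
  have hn'0 : n' ≠ 0 := by
    rintro rfl
    rw [mul_zero] at hn'
    exact nd_ne_zero hc hn'
  have hqn' : ¬ q ∣ n' := by
    rintro ⟨d, hd⟩
    exact h2 ⟨d, by rw [hn', hd]; ring⟩
  have h3 : legendreSym p n' = 1 := by
    apply leg_nat p n' hn'0
    intro l hlp hln
    have : Fact l.Prime := ⟨hlp⟩
    apply leg_prime p l h8
    by_cases hl2 : l = 2
    · exact Or.inl hl2
    · right
      have hlq : l ≠ q := by
        rintro rfl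
        exact hqn' hln
      exact hl l hl2 hlq (ne_one_of_dvd_nd c (by rw [hn']; exact hln.mul_left _))
  have h4 : legendreSym p (c.num * c.den) = 1 := by
    rcases hs with ⟨hc1, hc2⟩ | ⟨hc1, hc2⟩
    · have h5 : c.num * (c.den : ℤ) = ((q * n' : ℕ) : ℤ) := by
        rw [← hn']
        unfold nd
        push_cast
        rw [abs_of_pos (Rat.num_pos.2 hc1)]
      rw [h5]
      push_cast
      rw [legendreSym.mul, h3, mul_one]
      exact leg_prime p q h8 (Or.inr hc2)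
    · have h5 : c.num * (c.den : ℤ) = (-1) * ((q * n' : ℕ) : ℤ) := by
        rw [← hn']
        unfold nd
        push_cast
        rw [abs_of_neg (Rat.num_neg.2 hc1)]
        ring
      rw [h5, legendreSym.mul]
      push_cast
      rw [legendreSym.mul, h3, mul_one, leg_q p q h8 hq4 hc2, legendreSym.at_neg_one hp2,
        ZMod.χ₄_nat_three_mod_four (by omega)]
      norm_num
  have hnum : ‖((c.num : ℤ) : ℚ_[p])‖ = 1 ∧ ‖((c.den : ℕ) : ℚ_[p])‖ = 1 := by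
    have hd : ¬ p ∣ c.den := by
      intro h
      have := Nat.le_of_dvd c.den_pos h
      unfold rb at hpc
      omega
    have hdn : ‖((c.den : ℕ) : ℚ_[p])‖ = 1 :=
      Padic.norm_natCast_eq_one_iff.2 ((Nat.Prime.coprime_iff_not_dvd hp.out).2 hd)
    refine ⟨?_, hdn⟩
    have h5 : ((c.num : ℤ) : ℚ_[p]) = (c : ℚ_[p]) * ((c.den : ℕ) : ℚ_[p]) := by
      have := Rat.mul_den_eq_num c
      exact_mod_cast congrArg (fun x : ℚ => (x : ℚ_[p])) this.symm
    rw [h5, norm_mul, hdn, mul_one]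
    exact norm_rat_eq_one hc hpc
  obtain ⟨hnn, hdn⟩ := hnum
  have hcz : ((c.num * c.den : ℤ) : ZMod p) ≠ 0 := by
    intro h
    have h6 : PadicInt.toZMod ((c.num * c.den : ℤ) : ℤ_[p]) = 0 := by
      rw [map_intCast]
      exact h
    rw [toZMod_eq_zero_iff] at h6
    have h7 : ‖((c.num * c.den : ℤ) : ℤ_[p])‖ = ‖((c.num : ℤ) : ℚ_[p])‖ * ‖((c.den : ℕ) : ℚ_[p])‖ := by
      rw [← norm_mul, PadicInt.norm_def]
      push_cast
      rfl
    rw [h7, hnn, hdn, one_mul] at h6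
    exact lt_irrefl _ h6
  rw [legendreSym.eq_one_iff p hcz] at h4
  obtain ⟨y0, hy0⟩ := h4
  obtain ⟨y1, hy1⟩ := ZMod.ringHom_surjective (PadicInt.toZMod (p := p)) y0
  have hy1n : ‖(y1 : ℚ_[p])‖ = 1 := by
    have h5 : ¬ ‖y1‖ < 1 := by
      rw [← toZMod_eq_zero_iff, hy1]
      intro h
      rw [h, mul_zero] at hy0
      exact hcz hy0
    exact le_antisymm (PadicInt.norm_le_one _) (not_lt.1 h5)
  have h6 : ‖((c.num : ℤ) : ℚ_[p]) * ((c.den : ℕ) : ℚ_[p]) - (y1 : ℚ_[p]) * y1‖ < 1 := by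
    have h7 : PadicInt.toZMod (((c.num * c.den : ℤ) : ℤ_[p]) - y1 * y1) = 0 := by
      rw [map_sub, map_mul, hy1, map_intCast, hy0, sub_self]
    rw [toZMod_eq_zero_iff, PadicInt.norm_def] at h7
    push_cast at h7
    exact h7
  have hd0 : ((c.den : ℕ) : ℚ_[p]) ≠ 0 := norm_ne_zero_iff.1 (by rw [hdn]; exact one_ne_zero)
  refine ⟨y1 / ((c.den : ℕ) : ℚ_[p]), by rw [norm_div, hy1n, hdn, div_one], ?_⟩
  have h8 : (c : ℚ_[p]) - ((y1 : ℚ_[p]) / ((c.den : ℕ) : ℚ_[p])) ^ 2 =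
      (((c.num : ℤ) : ℚ_[p]) * ((c.den : ℕ) : ℚ_[p]) - (y1 : ℚ_[p]) * y1) /
        (((c.den : ℕ) : ℚ_[p]) * ((c.den : ℕ) : ℚ_[p])) := by
    have h5 : ((c.num : ℤ) : ℚ_[p]) = (c : ℚ_[p]) * ((c.den : ℕ) : ℚ_[p]) := by
      have := Rat.mul_den_eq_num c
      exact_mod_cast congrArg (fun x : ℚ => (x : ℚ_[p])) this.symm
    rw [h5]
    field_simp
  rw [h8, norm_div, norm_mul, hdn, one_mul, div_one]
  exact h6

end Pool.Agent.Q33.EX
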